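import Mathlib
import Pool.Agent.Lib.P0c8ca5V.Tog
import Pool.Agent.Lib.P0c8ca5V.ChOrb

/-! Alternating sums over the chains of p-subgroups and over the chains of elementary abelian
p-subgroups agree. -/

namespace Pool.Agent.Lib.P0c8ca5.Id

variable {p : ℕ} {A : Type*} [Group A]

/-- `Q` is elementary abelian -/
def IsEl (p : ℕ) (Q : Subgroup A) : Prop :=
  (∀ x ∈ Q, ∀ y ∈ Q, x * y = y * x) ∧ ∀ x ∈ Q, x ^ p = 1

/-- chains of nontrivial elementary abelian p-subgroups -/
def IsChE (p : ℕ) (σ : Finset (Subgroup A)) : Prop := IsCh p σ ∧ ∀ Q ∈ σ, IsEl p Q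

open Classical in
/-- alternating sum over the chains of nontrivial elementary abelian p-subgroups -/
noncomputable def chE (p : ℕ) (F : Subgroup A → ℤ) : ℤ :=
  ∑ᶠ σ : Finset (Subgroup A), if IsChE p σ then (-1) ^ σ.card * F (sN σ) else 0

namespace ElAux

/-- the elements of order dividing `p` in the center of `P` -/
def zo (p : ℕ) (P : Subgroup A) : Subgroup A where
  carrier := {x | x ∈ P ∧ x ^ p = 1 ∧ ∀ y ∈ P, x * y = y * x}
  mul_mem' := by
    rintro a b ⟨ha1, ha2, ha3⟩ ⟨hb1, hb2, hb3⟩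
    refine ⟨P.mul_mem ha1 hb1, ?_, fun y hy => ?_⟩
    · have h : Commute a b := ha3 b hb1
      rw [h.mul_pow, ha2, hb2, one_mul]
    · rw [mul_assoc, hb3 y hy, ← mul_assoc, ha3 y hy, mul_assoc]
  one_mem' := ⟨P.one_mem, one_pow _, fun y _ => by rw [one_mul, mul_one]⟩
  inv_mem' := by
    rintro a ⟨ha1, ha2, ha3⟩
    refine ⟨P.inv_mem ha1, by rw [inv_pow, ha2, inv_one], fun y hy => ?_⟩
    have h : Commute a y := ha3 y hy
    exact h.inv_left

theorem mem_zo {P : Subgroup A} {x : A} :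
    x ∈ zo p P ↔ x ∈ P ∧ x ^ p = 1 ∧ ∀ y ∈ P, x * y = y * x := Iff.rfl

theorem zo_le (P : Subgroup A) : zo p P ≤ P := fun _ h => h.1

theorem zo_ne [Fact p.Prime] [Finite A] {P : Subgroup A} (hP : IsPGroup p P) (h1 : P ≠ ⊥) :
    zo p P ≠ ⊥ := by
  have : Nontrivial P := (Subgroup.nontrivial_iff_ne_bot P).2 h1
  have hc : Nontrivial (Subgroup.center P) := hP.center_nontrivial
  have hcp : IsPGroup p (Subgroup.center P) := hP.to_subgroup _
  have hd : p ∣ Nat.card (Subgroup.center P) := by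
    obtain ⟨n, hn⟩ := IsPGroup.iff_card.1 hcp
    rw [hn]
    refine dvd_pow_self p ?_
    rintro rfl
    rw [pow_zero] at hn
    have := Finite.one_lt_card_iff_nontrivial.2 hc
    omega
  obtain ⟨x, hx⟩ := exists_prime_orderOf_dvd_card' p hd
  intro h
  have hx1 : ((x : P) : A) ∈ zo p P := by
    refine ⟨(x : P).2, ?_, fun y hy => ?_⟩
    · have e : x ^ p = 1 := by rw [← hx]; exact pow_orderOf_eq_one x
      have e1 : ((x : P)) ^ p = 1 := by
        rw [← Subgroup.coe_pow, e, Subgroup.coe_one]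
      rw [← Subgroup.coe_pow, e1, Subgroup.coe_one]
    · have e := Subgroup.mem_center_iff.1 x.2 ⟨y, hy⟩
      exact (congrArg Subtype.val e).symm
  rw [h, Subgroup.mem_bot] at hx1
  have e2 : x = 1 := Subtype.ext (Subtype.ext hx1)
  rw [e2, orderOf_one] at hx
  exact (Fact.out : p.Prime).one_lt.ne hx

theorem zo_norm {P : Subgroup A} {x : A} (hx : x ∈ Subgroup.normalizer (P : Set A)) :
    x ∈ Subgroup.normalizer (zo p P : Set A) := by
  have key : ∀ x ∈ Subgroup.normalizer (P : Set A), ∀ y ∈ zo p P, x * y * x⁻¹ ∈ zo p P := by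
    intro x hx y hy
    rw [Subgroup.mem_normalizer_iff] at hx
    obtain ⟨h1, h2, h3⟩ := hy
    refine ⟨(hx y).1 h1, by rw [conj_pow, h2]; group, fun z hz => ?_⟩
    have hz' : x⁻¹ * z * x ∈ P := by
      apply (hx _).2
      have e : x * (x⁻¹ * z * x) * x⁻¹ = z := by group
      rwa [e]
    have h4 := h3 _ hz'
    calc x * y * x⁻¹ * z = x * (y * (x⁻¹ * z * x)) * x⁻¹ := by group
      _ = x * (x⁻¹ * z * x * y) * x⁻¹ := by rw [h4]
      _ = z * (x * y * x⁻¹) := by group
  rw [Subgroup.mem_normalizer_iff]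
  intro y
  refine ⟨key x hx y, fun h => ?_⟩
  have h1 := key x⁻¹ (Subgroup.inv_mem _ hx) _ h
  have e : x⁻¹ * (x * y * x⁻¹) * x⁻¹⁻¹ = y := by group
  rwa [e] at h1

theorem isEl_sup {P Z B : Subgroup A} (hZ : Z ≤ zo p P) (hB : B ≤ P) (hBe : IsEl p B) :
    IsEl p (Z ⊔ B) := by
  have hc : ∀ z ∈ Z, ∀ b ∈ B, z * b = b * z := fun z hz b hb => (hZ hz).2.2 b (hB hb)
  let W : Subgroup A :=
    { carrier := {x | ∃ z ∈ Z, ∃ b ∈ B, x = z * b}
      mul_mem' := by
        rintro _ _ ⟨z, hz, b, hb, rfl⟩ ⟨z', hz', b', hb', rfl⟩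
        refine ⟨z * z', Z.mul_mem hz hz', b * b', B.mul_mem hb hb', ?_⟩
        calc z * b * (z' * b') = z * (b * z') * b' := by group
          _ = z * (z' * b) * b' := by rw [hc z' hz' b hb]
          _ = (z * z') * (b * b') := by group
      one_mem' := ⟨1, Z.one_mem, 1, B.one_mem, by rw [mul_one]⟩
      inv_mem' := by
        rintro _ ⟨z, hz, b, hb, rfl⟩
        refine ⟨z⁻¹, Z.inv_mem hz, b⁻¹, B.inv_mem hb, ?_⟩
        rw [mul_inv_rev]
        exact (hc z⁻¹ (Z.inv_mem hz) b⁻¹ (B.inv_mem hb)).symm }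
  have hform : ∀ x ∈ Z ⊔ B, ∃ z ∈ Z, ∃ b ∈ B, x = z * b := by
    intro x hx
    have h1 : Z ⊔ B ≤ W := by
      refine sup_le (fun z hz => ?_) (fun b hb => ?_)
      · exact ⟨z, hz, 1, B.one_mem, by rw [mul_one]⟩
      · exact ⟨1, Z.one_mem, b, hb, by rw [one_mul]⟩
    exact h1 hx
  constructor
  · intro x hx y hy
    obtain ⟨z, hz, b, hb, rfl⟩ := hform x hx
    obtain ⟨z', hz', b', hb', rfl⟩ := hform y hy
    have h1 : z * z' = z' * z := (hZ hz).2.2 z' (hZ hz').1
    have h2 := hBe.1 b hb b' hb'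
    have h3 := hc z hz b' hb'
    have h4 := hc z' hz' b hb
    calc z * b * (z' * b') = z * (b * z') * b' := by group
      _ = z * (z' * b) * b' := by rw [h4]
      _ = (z * z') * (b * b') := by group
      _ = (z' * z) * (b' * b) := by rw [h1, h2]
      _ = z' * (z * b') * b := by group
      _ = z' * (b' * z) * b := by rw [h3]
      _ = z' * b' * (z * b) := by group
  · intro x hx
    obtain ⟨z, hz, b, hb, rfl⟩ := hform x hx
    have h : Commute z b := hc z hz b hb
    rw [h.mul_pow, (hZ hz).2.1, hBe.2 b hb, one_mul]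

/-- `P` is the least member that is not elementary abelian -/
def Spec (p : ℕ) (σ : Finset (Subgroup A)) (P : Subgroup A) : Prop :=
  P ∈ σ ∧ ¬ IsEl p P ∧ ∀ Q ∈ σ, ¬ IsEl p Q → P ≤ Q

theorem spec_unique {σ : Finset (Subgroup A)} {P R : Subgroup A} (h : Spec p σ P)
    (h' : Spec p σ R) : P = R :=
  le_antisymm (h.2.2 R h'.1 h'.2.1) (h'.2.2 P h.1 h.2.1)

open Classical in
/-- the toggled subgroup -/
noncomputable def tg (p : ℕ) (σ : Finset (Subgroup A)) : Subgroup A :=
  if h : ∃ P, Spec p σ P then TogAux.tg (zo p h.choose) σ else ⊥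

theorem tg_eq {σ : Finset (Subgroup A)} {P : Subgroup A} (h : Spec p σ P) :
    tg p σ = TogAux.tg (zo p P) σ := by
  have he : ∃ P, Spec p σ P := ⟨P, h⟩
  unfold tg
  rw [dif_pos he, spec_unique he.choose_spec h]

/-- the condition -/
def Bad (p : ℕ) (σ : Finset (Subgroup A)) : Prop := IsCh p σ ∧ ∃ Q ∈ σ, ¬ IsEl p Q

open Classical in
theorem exists_spec {σ : Finset (Subgroup A)} (h : Bad p σ) : ∃ P, Spec p σ P := by
  obtain ⟨⟨hc, hp⟩, Q, hQ, hQn⟩ := h
  have hne : (σ.filter fun R => ¬ IsEl p R).Nonempty := ⟨Q, Finset.mem_filter.2 ⟨hQ, hQn⟩⟩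
  obtain ⟨M, hM, hmin⟩ := Finset.exists_minimal hne
  have hMσ := Finset.mem_filter.1 hM
  refine ⟨M, hMσ.1, hMσ.2, ?_⟩
  intro R hR hRn
  have hR' : R ∈ σ.filter fun R => ¬ IsEl p R := Finset.mem_filter.2 ⟨hR, hRn⟩
  rcases hc.total hMσ.1 hR with h1 | h1
  · exact h1
  · exact hmin hR' h1

/-- the properties of the toggled subgroup -/
theorem tg_prop {σ : Finset (Subgroup A)} {P : Subgroup A} (hc : IsCh p σ) (h : Spec p σ P) :
    IsEl p (TogAux.tg (zo p P) σ) ∧ TogAux.tg (zo p P) σ ≤ P := by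
  have hb := TogAux.bg_mem (zo p P) σ hc.1
  have h1 : TogAux.bg (zo p P) σ ≤ P ∧ IsEl p (TogAux.bg (zo p P) σ) := by
    rcases hb with h1 | ⟨h1, h2⟩
    · rw [h1]
      refine ⟨bot_le, fun x hx y hy => ?_, fun x hx => ?_⟩
      · rw [Subgroup.mem_bot.1 hx, Subgroup.mem_bot.1 hy]
      · rw [Subgroup.mem_bot.1 hx, one_pow]
    · have h3 : TogAux.bg (zo p P) σ ≤ P := by
        rcases hc.1.total h1 h.1 with h3 | h3
        · exact h3
        · exact absurd ((zo_le P).trans h3) h2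
      refine ⟨h3, ?_⟩
      by_contra h4
      exact h2 ((zo_le P).trans (h.2.2 _ h1 h4))
  exact ⟨isEl_sup le_rfl h1.1 h1.2, sup_le (zo_le P) h1.1⟩

theorem spec_insert [DecidableEq (Subgroup A)] {σ : Finset (Subgroup A)} {P T : Subgroup A}
    (h : Spec p σ P) (hT : IsEl p T) : Spec p (insert T σ) P := by
  refine ⟨Finset.mem_insert_of_mem h.1, h.2.1, fun Q hQ hQn => ?_⟩
  rcases Finset.mem_insert.1 hQ with rfl | hQ
  · exact absurd hT hQn
  · exact h.2.2 Q hQ hQn

theorem spec_erase [DecidableEq (Subgroup A)] {σ : Finset (Subgroup A)} {P T : Subgroup A}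
    (h : Spec p σ P) (hT : T ≠ P) : Spec p (σ.erase T) P :=
  ⟨Finset.mem_erase.2 ⟨hT.symm, h.1⟩, h.2.1, fun Q hQ => h.2.2 Q (Finset.mem_of_mem_erase hQ)⟩

theorem isCh_mono {σ τ : Finset (Subgroup A)} (h : IsCh p σ) (hs : τ ⊆ σ) : IsCh p τ :=
  ⟨h.1.mono (Finset.coe_subset.2 hs), fun Q hQ => h.2 Q (hs hQ)⟩

theorem isCh_insert [Fact p.Prime] [Finite A] [DecidableEq (Subgroup A)]
    {σ : Finset (Subgroup A)} {P : Subgroup A}
    (hc : IsCh p σ) (h : Spec p σ P) : IsCh p (insert (TogAux.tg (zo p P) σ) σ) := by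
  have hb := TogAux.bg_mem (zo p P) σ hc.1
  refine ⟨?_, ?_⟩
  · rw [Finset.coe_insert]
    refine hc.1.insert ?_
    intro Q hQ _
    have hQσ : Q ∈ σ := hQ
    by_cases hRQ : zo p P ≤ Q
    · left
      refine sup_le hRQ ?_
      rcases hb with h1 | h1
      · rw [h1]
        exact bot_le
      · rcases hc.1.total h1.1 hQσ with h2 | h2
        · exact h2
        · exact absurd (hRQ.trans h2) h1.2
    · right
      refine le_trans ?_ (le_sup_right : TogAux.bg (zo p P) σ ≤ TogAux.tg (zo p P) σ)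
      exact TogAux.le_bg (zo p P) Q σ hQσ hRQ
  · intro Q hQ
    rcases Finset.mem_insert.1 hQ with rfl | hQ
    · refine ⟨(hc.2 _ h.1).1.to_le (tg_prop hc h).2, ?_⟩
      intro h2
      have h3 := TogAux.le_tg (zo p P) σ
      rw [h2] at h3
      exact zo_ne (hc.2 _ h.1).1 (hc.2 _ h.1).2 (le_bot_iff.1 h3)
    · exact hc.2 Q hQ

open Classical in
/-- the involution -/
noncomputable def inv (p : ℕ) (σ : Finset (Subgroup A)) : Finset (Subgroup A) :=
  if tg p σ ∈ σ then σ.erase (tg p σ) else insert (tg p σ) σ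

theorem inv_eq {σ : Finset (Subgroup A)} {P : Subgroup A} (h : Spec p σ P) :
    inv p σ = TogAux.inv (zo p P) σ := by
  unfold inv TogAux.inv
  rw [tg_eq h]

open Classical in
theorem inv_spec [Fact p.Prime] [Finite A] {σ : Finset (Subgroup A)} {P : Subgroup A}
    (hc : IsCh p σ) (h : Spec p σ P) : IsCh p (inv p σ) ∧ Spec p (inv p σ) P := by
  have ht := tg_eq h
  have h2 : tg p σ ≠ P := by
    intro h3
    apply h.2.1
    rw [← h3, ht]
    exact (tg_prop hc h).1
  unfold inv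
  split_ifs with h3
  · exact ⟨isCh_mono hc (Finset.erase_subset _ _), spec_erase h h2⟩
  · rw [ht]
    exact ⟨isCh_insert hc h, spec_insert h (tg_prop hc h).1⟩

theorem inv_inv [Fact p.Prime] [Finite A] {σ : Finset (Subgroup A)} (h : Bad p σ) :
    inv p (inv p σ) = σ := by
  obtain ⟨P, hs⟩ := exists_spec h
  obtain ⟨h1, h2⟩ := inv_spec h.1 hs
  rw [inv_eq h2, inv_eq hs, TogAux.inv_inv]

theorem inv_ne (σ : Finset (Subgroup A)) : inv p σ ≠ σ := by
  classical
  by_cases hT : tg p σ ∈ σ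
  · have h1 : inv p σ = σ.erase (tg p σ) := if_pos hT
    rw [h1]
    intro h
    rw [Finset.erase_eq_self] at h
    exact h hT
  · have h1 : inv p σ = insert (tg p σ) σ := if_neg hT
    rw [h1]
    intro h
    rw [Finset.insert_eq_self] at h
    exact hT h

theorem sN_toggle [DecidableEq (Subgroup A)] {σ : Finset (Subgroup A)} {P : Subgroup A}
    (hc : IsCh p σ) (h : Spec p σ P) : sN (insert (TogAux.tg (zo p P) σ) σ) = sN σ := by
  rw [TogAux.sN_insert]
  refine le_antisymm inf_le_right (le_inf ?_ le_rfl)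
  intro x hx
  exact TogAux.norm_tg (zo p P) σ hc.1 (zo_norm (TogAux.mem_sN.1 hx P h.1)) hx

open Classical in
theorem cancel [Fact p.Prime] [Finite A] (F : Subgroup A → ℤ) {σ : Finset (Subgroup A)}
    (h : Bad p σ) :
    (-1) ^ σ.card * F (sN σ) + (-1) ^ (inv p σ).card * F (sN (inv p σ)) = 0 := by
  obtain ⟨P, hs⟩ := exists_spec h
  have ht := tg_eq hs
  by_cases hT : tg p σ ∈ σ
  · have e1 : inv p σ = σ.erase (tg p σ) := if_pos hT
    obtain ⟨h1, h2⟩ := inv_spec h.1 hs
    have e2 : insert (tg p σ) (inv p σ) = σ := by rw [e1, Finset.insert_erase hT]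
    have e3 : tg p σ ∉ inv p σ := by
      rw [e1]
      exact Finset.notMem_erase _ _
    have e4 : σ.card = (inv p σ).card + 1 := by
      rw [← Finset.card_insert_of_notMem e3, e2]
    have e6 : tg p σ = TogAux.tg (zo p P) (inv p σ) := by
      rw [inv_eq hs, TogAux.tg_inv, ht]
    have e5 : sN σ = sN (inv p σ) := by
      have := sN_toggle h1 h2
      rw [← e6, e2] at this
      exact this
    rw [e4, e5]
    ring
  · have e1 : inv p σ = insert (tg p σ) σ := if_neg hT
    have e5 : sN (inv p σ) = sN σ := by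
      rw [e1, ht]
      exact sN_toggle h.1 hs
    have e4 : (inv p σ).card = σ.card + 1 := by
      rw [e1, Finset.card_insert_of_notMem hT]
    rw [e4, e5]
    ring

end ElAux

open ElAux

/-- the alternating sum over the chains of p-subgroups is the alternating sum over the chains of
elementary abelian p-subgroups -/
theorem chS_eq_chE [Fact p.Prime] [Finite A] (F : Subgroup A → ℤ) : chS p F = chE p F := by
  classical
  have : Fintype (Subgroup A) := Fintype.ofFinite _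
  unfold chS chE
  rw [finsum_eq_sum_of_fintype, finsum_eq_sum_of_fintype, ← sub_eq_zero,
    ← Finset.sum_sub_distrib]
  have h1 : ∀ σ : Finset (Subgroup A),
      (if IsCh p σ then (-1) ^ σ.card * F (sN σ) else 0)
        - (if IsChE p σ then (-1) ^ σ.card * F (sN σ) else 0)
      = if Bad p σ then (-1) ^ σ.card * F (sN σ) else 0 := by
    intro σ
    by_cases h : IsCh p σ
    · by_cases h2 : ∀ Q ∈ σ, IsEl p Q
      · have h3 : ¬ Bad p σ := by
          rintro ⟨-, Q, hQ, hQn⟩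
          exact hQn (h2 Q hQ)
        rw [if_pos h, if_pos ⟨h, h2⟩, if_neg h3, sub_self]
      · have h3 : Bad p σ := by
          push Not at h2
          exact ⟨h, h2⟩
        rw [if_pos h, if_neg (fun h4 => h2 h4.2), if_pos h3, sub_zero]
    · rw [if_neg h, if_neg (fun h4 => h h4.1), if_neg (fun h4 => h h4.1), sub_zero]
  rw [Finset.sum_congr rfl fun σ _ => h1 σ, ← Finset.sum_filter]
  refine Finset.sum_involution (fun σ _ => inv p σ) ?_ ?_ ?_ ?_
  · intro σ hσ
    exact cancel F (Finset.mem_filter.1 hσ).2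
  · intro σ _ _
    exact inv_ne σ
  · intro σ hσ
    have h : Bad p σ := (Finset.mem_filter.1 hσ).2
    obtain ⟨P, hs⟩ := exists_spec h
    obtain ⟨h1, h2⟩ := inv_spec h.1 hs
    exact Finset.mem_filter.2 ⟨Finset.mem_univ _, h1, P, h2.1, h2.2.1⟩
  · intro σ hσ
    exact ElAux.inv_inv (p := p) (Finset.mem_filter.1 hσ).2

namespace ElAux

open ChOrbAux

theorem isEl_cg {g : A} {Q : Subgroup A} (h : IsEl p Q) : IsEl p (cg g Q) := by
  refine ⟨fun x hx y hy => ?_, fun x hx => ?_⟩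
  · rw [mem_cg] at hx hy
    have h1 := h.1 _ hx _ hy
    have e1 : x * y = g * (g⁻¹ * x * g * (g⁻¹ * y * g)) * g⁻¹ := by group
    have e2 : y * x = g * (g⁻¹ * y * g * (g⁻¹ * x * g)) * g⁻¹ := by group
    rw [e1, h1, ← e2]
  · rw [mem_cg] at hx
    have h1 := h.2 _ hx
    have e1 : x = g * (g⁻¹ * x * g) * g⁻¹ := by group
    rw [e1, conj_pow, h1]
    group

theorem isChE_cgS_imp (g : A) {σ : Finset (Subgroup A)} (h : IsChE p σ) :
    IsChE p (cgS g σ) := by
  refine ⟨(isCh_cgS g σ).2 h.1, fun Q hQ => ?_⟩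
  obtain ⟨R, hR, rfl⟩ := mem_cgS.1 hQ
  exact isEl_cg (h.2 R hR)

theorem isChE_cgS (g : A) (σ : Finset (Subgroup A)) : IsChE p (cgS g σ) ↔ IsChE p σ := by
  constructor
  · intro h
    have := isChE_cgS_imp g⁻¹ h
    rwa [cgS_cgS, inv_mul_cancel, cgS_one] at this
  · exact isChE_cgS_imp g

end ElAux

end Pool.Agent.Lib.P0c8ca5.Id
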