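import Mathlib
import Pool.Agent.Lib.P0c8ca5Bw.NilC
import Pool.Agent.Lib.P0c8ca5Bw.TSl
import Pool.Agent.Lib.P0c8ca5Id.El

/-! The restriction of central elements to the stabilizers of chains of elementary abelian
p-subgroups is multiplicative up to nilpotent elements. -/

namespace Pool.Agent.Lib.P0c8ca5.Id

open MonoidAlgebra Bw

set_option linter.unusedSectionVars false

/-- `U` lies between the centralizer and the normalizer of the p-subgroup `Q` of `U` -/
structure Sand (p : ℕ) {A : Type*} [Group A] (Q U : Subgroup A) : Prop where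
  pg : IsPGroup p Q
  le : Q ≤ U
  no : U ≤ Subgroup.normalizer (Q : Set A)
  ce : Subgroup.centralizer (Q : Set A) ≤ U

section
variable {p : ℕ} {A : Type*} [Group A]

theorem sand_of_chE [Finite A] {σ : Finset (Subgroup A)} (h : IsChE p σ) :
    ∃ Q, Sand p Q (sN σ) := by
  classical
  by_cases hne : σ.Nonempty
  · obtain ⟨M, hM, hmax⟩ := Finset.exists_maximal hne
    have hall : ∀ Q ∈ σ, Q ≤ M := by
      intro Q hQ
      rcases h.1.1.total hQ hM with h1 | h1
      · exact h1
      · exact hmax hQ h1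
    refine ⟨M, (h.1.2 M hM).1, ?_, ?_, ?_⟩
    · intro x hx
      rw [TogAux.mem_sN]
      intro Q hQ
      have key : ∀ y ∈ Q, x * y * x⁻¹ = y := by
        intro y hy
        rw [(h.2 M hM).1 x hx y (hall Q hQ hy)]
        group
      have key' : ∀ y ∈ Q, x⁻¹ * y * x = y := by
        intro y hy
        have h1 := (h.2 M hM).1 x hx y (hall Q hQ hy)
        rw [mul_assoc, ← h1]
        group
      rw [Subgroup.mem_normalizer_iff]
      intro y
      constructor
      · intro hy
        rw [key y hy]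
        exact hy
      · intro hy
        have h1 := key' _ hy
        have e : x⁻¹ * (x * y * x⁻¹) * x = y := by group
        rw [e] at h1
        rw [h1]
        exact hy
    · intro x hx
      exact TogAux.mem_sN.1 hx M hM
    · intro x hx
      rw [TogAux.mem_sN]
      intro Q hQ
      have h1 : x ∈ Subgroup.centralizer (Q : Set A) := by
        rw [Subgroup.mem_centralizer_iff] at hx ⊢
        exact fun y hy => hx y (hall Q hQ hy)
      exact Subgroup.centralizer_le_normalizer _ h1
  · rw [Finset.not_nonempty_iff_eq_empty] at hne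
    subst hne
    have h1 : sN (∅ : Finset (Subgroup A)) = ⊤ := by
      unfold sN
      simp
    rw [h1]
    refine ⟨⊥, IsPGroup.of_bot, bot_le, ?_, le_top⟩
    intro x _
    rw [Subgroup.mem_normalizer_iff]
    intro y
    rw [Subgroup.mem_bot, Subgroup.mem_bot, conj_eq_one_iff]

end

section
variable {p : ℕ} {k : Type*} [Field k] {A : Type*} [Group A] [Fintype A]
variable [Fact p.Prime] [CharP k p] [IsAlgClosed k]

/-- a central element that vanishes on the centralizer of a normal p-subgroup is nilpotent -/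
theorem nil_top {Q : Subgroup A} (hn : ∀ g : A, g ∈ Subgroup.normalizer (Q : Set A))
    (hQ : IsPGroup p Q) {v : MonoidAlgebra k A} (hv : v ∈ fixAlg k (⊤ : Subgroup A) ⊤)
    (h0 : ∀ x ∈ Subgroup.centralizer (Q : Set A), v.coeff x = 0) : IsNilpotent v := by
  classical
  by_contra hnil
  obtain ⟨f, hf, hnf⟩ := NilBAux.exists_blk p hv hnil
  obtain ⟨w, hw, hwf⟩ := (blk_nilp_or_unit hf hv).resolve_left hnf
  obtain ⟨y, hy0, hyQ, hyc⟩ := exists_fixed (k := k) hQ (radMul (k := k) Q) f hf.ne_zero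
  have hcomm : ∀ d ∈ Q, Commute (single d (1 : k)) f :=
    fun d _ => invBy_iff_commute.1 hf.invBy d (Subgroup.mem_top d)
  have hfy : f * y = y := by
    clear hy0 hyQ
    induction hyc using AddSubgroup.closure_induction with
    | mem w hw =>
      obtain ⟨v, rfl⟩ := hw
      change f * radMul Q v f = radMul Q v f
      rw [radMul_apply, ← mul_assoc, ← (hcomm v v.2).eq, mul_assoc, hf.idem]
    | zero => rw [mul_zero]
    | add a b _ _ ha hb => rw [mul_add, ha, hb]
    | neg a _ ha => rw [mul_neg, ha]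
  have hinv : ∀ v ∈ Q, ∀ x, y.coeff (v * x) = y.coeff x := by
    intro v hv x
    have h1 := hyQ ⟨v⁻¹, Q.inv_mem hv⟩
    rw [radMul_apply] at h1
    have h2 := congrArg (fun a : MonoidAlgebra k A => a.coeff x) h1
    simp only [coeff_single_mul_apply, one_mul, inv_inv] at h2
    exact h2
  have hvy : v * y = 0 := by
    ext t
    change (v * y).coeff t = 0
    rw [coeff_mul_fin, sum_conj_eq (p := p) hQ (fun x => v.coeff x * y.coeff (x⁻¹ * t)) ?_
      (Finset.univ.filter (fun x => x ∈ Subgroup.centralizer (Q : Set A))) (fun x => by simp)]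
    · refine Finset.sum_eq_zero fun x hx => ?_
      rw [h0 x (Finset.mem_filter.1 hx).2, zero_mul]
    · intro d hd x
      have h1 : v.coeff (d * x * d⁻¹) = v.coeff x := (mem_fixAlg.1 hv).2 d (Subgroup.mem_top d) x
      have h2 : x⁻¹ * d⁻¹ * x ∈ Q := by
        have h3 := (Subgroup.mem_normalizer_iff.1 (hn x⁻¹) d⁻¹).1 (Q.inv_mem hd)
        rwa [inv_inv] at h3
      have e : (d * x * d⁻¹)⁻¹ * t = (d * (x⁻¹ * d⁻¹ * x)) * (x⁻¹ * t) := by group
      beta_reduce
      rw [h1, e, hinv _ (Q.mul_mem hd h2)]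
  have hvw : v * w = w * v :=
    commute_of (fun x _ => Subgroup.mem_top x) (mem_fixAlg.1 hw).2
  apply hy0
  calc y = v * w * f * y := by rw [hwf, hfy]
    _ = v * w * y := by rw [mul_assoc (v * w), hfy]
    _ = w * (v * y) := by rw [hvw, mul_assoc]
    _ = 0 := by rw [hvy, mul_zero]

/-- the same for subgroups -/
theorem nil_sub {Q U : Subgroup A} (hQU : Q ≤ U) (hUN : U ≤ Subgroup.normalizer (Q : Set A))
    (hQ : IsPGroup p Q) {v : MonoidAlgebra k A} (hv : v ∈ fixAlg k U U)
    (h0 : ∀ x ∈ Subgroup.centralizer (Q : Set A), v.coeff x = 0) : IsNilpotent v := by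
  have := Fintype.ofFinite ↥U
  have h1 : IsNilpotent (R2bAux.dnH U v) := by
    refine nil_top (p := p) (Q := Q.subgroupOf U) (fun g => ?_) ?_ (NilCAux.dn_mem hv)
      (fun x hx => ?_)
    · rw [Subgroup.mem_normalizer_iff]
      intro y
      rw [Subgroup.mem_subgroupOf, Subgroup.mem_subgroupOf]
      exact Subgroup.mem_normalizer_iff.1 (hUN g.2) (y : A)
    · exact hQ.comap_of_injective U.subtype U.subtype_injective
    · rw [R2bAux.coeff_dnH]
      apply h0
      rw [Subgroup.mem_centralizer_iff] at hx ⊢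
      intro y hy
      have h2 := hx ⟨y, hQU hy⟩ (Subgroup.mem_subgroupOf.2 hy)
      exact congrArg Subtype.val h2
  have h2 : MonoidAlgebra.mapDomainRingHom k U.subtype (R2bAux.dnH U v) = v :=
    R2bAux.up_dnH (mem_fixAlg.1 hv).1
  have h4 := h1.map (MonoidAlgebra.mapDomainRingHom k U.subtype)
  rwa [h2] at h4

namespace TruAux

theorem resS_rz {Q U : Subgroup A} (h : Sand p Q U) (x : MonoidAlgebra k A) :
    resS (Subgroup.centralizer (Q : Set A) : Set A) (rz U x)
      = resS (Subgroup.centralizer (Q : Set A) : Set A) x := by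
  classical
  ext t
  by_cases ht : t ∈ (Subgroup.centralizer (Q : Set A) : Set A)
  · rw [coeff_resS_of_mem _ ht, coeff_resS_of_mem _ ht, rz_coeff, if_pos (h.ce ht)]
  · rw [coeff_resS_of_notMem _ ht, coeff_resS_of_notMem _ ht]

theorem invBy_rz {Q U : Subgroup A} (h : Sand p Q U) {x : MonoidAlgebra k A}
    (hx : x ∈ fixAlg k (⊤ : Subgroup A) ⊤) : InvBy Q (rz U x) :=
  ((mem_fixAlg.1 (NilCAux.rz_mem hx U)).2).mono h.le

theorem resS_pow {Q : Subgroup A} (hQ : IsPGroup p Q) {U : Subgroup A} (hQU : Q ≤ U)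
    {v : MonoidAlgebra k A} (hv : v ∈ fixAlg k U U) (n : ℕ) (hn : n ≠ 0) :
    resS (Subgroup.centralizer (Q : Set A) : Set A) (v ^ n)
      = (resS (Subgroup.centralizer (Q : Set A) : Set A) v) ^ n := by
  induction n with
  | zero => exact absurd rfl hn
  | succ n ih =>
    by_cases h0 : n = 0
    · subst h0
      rw [zero_add, pow_one, pow_one]
    · have h1 : InvBy Q (v ^ n) :=
        ((mem_fixAlg.1 ((fixAlg k U U).pow_mem hv n)).2).mono hQU
      have h2 : InvBy Q v := ((mem_fixAlg.1 hv).2).mono hQU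
      rw [pow_succ, pow_succ, resS_mul hQ h1 h2, ih h0]

end TruAux

open TruAux

/-- the restriction is multiplicative up to nilpotent elements -/
theorem rz_mul_nil {Q U : Subgroup A} (h : Sand p Q U) {x y : MonoidAlgebra k A}
    (hx : x ∈ fixAlg k (⊤ : Subgroup A) ⊤) (hy : y ∈ fixAlg k (⊤ : Subgroup A) ⊤) :
    rz U (x * y) - rz U x * rz U y ∈ fixAlg k U U ∧
      IsNilpotent (rz U (x * y) - rz U x * rz U y) := by
  classical
  have hxy := (fixAlg k (⊤ : Subgroup A) ⊤).mul_mem hx hy
  have hm := (fixAlg k U U).sub_mem (NilCAux.rz_mem hxy U)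
    ((fixAlg k U U).mul_mem (NilCAux.rz_mem hx U) (NilCAux.rz_mem hy U))
  refine ⟨hm, nil_sub h.le h.no h.pg hm fun t ht => ?_⟩
  have ht' : t ∈ (Subgroup.centralizer (Q : Set A) : Set A) := ht
  have hi : ∀ z ∈ fixAlg k (⊤ : Subgroup A) ⊤, InvBy Q z := fun z hz =>
    ((mem_fixAlg.1 hz).2).mono le_top
  have h1 : (rz U (x * y)).coeff t
      = (resS (Subgroup.centralizer (Q : Set A) : Set A) (x * y)).coeff t := by
    rw [coeff_resS_of_mem _ ht', rz_coeff, if_pos (h.ce ht)]
  have h2 : (rz U x * rz U y).coeff t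
      = (resS (Subgroup.centralizer (Q : Set A) : Set A) (rz U x * rz U y)).coeff t := by
    rw [coeff_resS_of_mem _ ht']
  have h3 : (rz U (x * y) - rz U x * rz U y).coeff t
      = (rz U (x * y)).coeff t - (rz U x * rz U y).coeff t := rfl
  rw [h3, h1, h2, resS_mul h.pg (hi x hx) (hi y hy), resS_mul h.pg (invBy_rz h hx) (invBy_rz h hy),
    resS_rz h, resS_rz h, sub_self]

/-- the restriction of a nilpotent central element is nilpotent -/
theorem rz_nil {Q U : Subgroup A} (h : Sand p Q U) {n : MonoidAlgebra k A}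
    (hn : n ∈ fixAlg k (⊤ : Subgroup A) ⊤) (hnil : IsNilpotent n) : IsNilpotent (rz U n) := by
  classical
  obtain ⟨m, hm⟩ := hnil
  have hm1 : n ^ (m + 1) = 0 := by rw [pow_succ, hm, zero_mul]
  have hv := NilCAux.rz_mem hn U
  have h1 : IsNilpotent ((rz U n) ^ (m + 1)) := by
    refine nil_sub h.le h.no h.pg ((fixAlg k U U).pow_mem hv _) fun t ht => ?_
    have ht' : t ∈ (Subgroup.centralizer (Q : Set A) : Set A) := ht
    rw [← coeff_resS_of_mem _ ht', resS_pow h.pg h.le hv _ (Nat.succ_ne_zero m), resS_rz h,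
      ← resS_pow h.pg (le_top : Q ≤ ⊤) hn _ (Nat.succ_ne_zero m), hm1, resS_zero]
    rfl
  obtain ⟨N, hN⟩ := h1
  exact ⟨(m + 1) * N, by rw [pow_mul, hN]⟩

theorem trE_rz_mul {Q U : Subgroup A} (h : Sand p Q U) {x y : MonoidAlgebra k A}
    (hx : x ∈ fixAlg k (⊤ : Subgroup A) ⊤) (hy : y ∈ fixAlg k (⊤ : Subgroup A) ⊤) :
    trE k U (fun t => (rz U x * rz U y).coeff t) = trE k U (fun t => (rz U (x * y)).coeff t) := by
  obtain ⟨h1, h2⟩ := rz_mul_nil h hx hy
  have h3 := trE_nilpotent (p := p) (mem_fixAlg.1 h1).1 (mem_fixAlg.1 h1).2 h2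
  have h4 : (fun t => (rz U (x * y)).coeff t) = fun t => (rz U x * rz U y).coeff t
      + (rz U (x * y) - rz U x * rz U y).coeff t := by
    funext t
    change _ = (rz U x * rz U y).coeff t + ((rz U (x * y)).coeff t - (rz U x * rz U y).coeff t)
    ring
  rw [h4, trE_add, h3, add_zero]

theorem trE_rz_nil {Q U : Subgroup A} (h : Sand p Q U) {n : MonoidAlgebra k A}
    (hn : n ∈ fixAlg k (⊤ : Subgroup A) ⊤) (hnil : IsNilpotent n) :
    trE k U (fun t => (rz U n).coeff t) = 0 := by
  have h1 := NilCAux.rz_mem hn U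
  exact trE_nilpotent (p := p) (mem_fixAlg.1 h1).1 (mem_fixAlg.1 h1).2 (rz_nil h hn hnil)

end

end Pool.Agent.Lib.P0c8ca5.Id
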