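import Mathlib
import Pool.Agent.Lib.P0c8ca5Id.Tru
import Pool.Agent.Lib.P0c8ca5Rc.Bi

/-! The alternating sum of the traces over the chains of elementary abelian p-subgroups. -/

namespace Pool.Agent.Lib.P0c8ca5.Id

open MonoidAlgebra Bw TFinAux

set_option linter.unusedSectionVars false

open Classical in
/-- representatives of the classes of the chains of elementary abelian p-subgroups -/
noncomputable def chRE (p : ℕ) (A : Type*) [Group A] [Finite A] : Finset (Finset (Subgroup A)) :=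
  (chR p A).filter (fun σ => ∀ Q ∈ σ, IsEl p Q)

section
variable {p : ℕ} {A : Type*} [Group A] [Finite A]

theorem isChE_of_mem {σ : Finset (Subgroup A)} (h : σ ∈ chRE p A) : IsChE p σ := by
  classical
  unfold chRE at h
  rw [Finset.mem_filter] at h
  exact ⟨isCh_of_mem_chR h.1, h.2⟩

/-- sums over the chains by representatives -/
theorem chS_sumE [Fact p.Prime] (F t : Subgroup A → ℤ) (hF : ∀ U, F U = (Nat.card U : ℤ) * t U)
    (ht : ∀ g U, t (cg g U) = t U) :
    chS p F = (Nat.card A : ℤ) * ∑ σ ∈ chRE p A, (-1) ^ σ.card * t (sN σ) := by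
  classical
  rw [chS_eq_chE]
  have h1 := sum_chR p (A := A)
    (fun σ => if ∀ Q ∈ σ, IsEl p Q then (-1) ^ σ.card * t (sN σ) else 0) (by
      intro g σ hσ
      have h2 : (∀ Q ∈ ChOrbAux.cgS g σ, IsEl p Q) ↔ ∀ Q ∈ σ, IsEl p Q := by
        have h3 := ElAux.isChE_cgS (p := p) g σ
        constructor
        · intro h
          exact (h3.1 ⟨(ChOrbAux.isCh_cgS g σ).2 hσ, h⟩).2
        · intro h
          exact (h3.2 ⟨hσ, h⟩).2
      rw [ChOrbAux.card_cgS, ChOrbAux.sN_cgS, ht]
      exact if_congr h2 rfl rfl)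
  have h4 : ∑ σ ∈ chR p A, (if ∀ Q ∈ σ, IsEl p Q then (-1) ^ σ.card * t (sN σ) else 0)
      = ∑ σ ∈ chRE p A, (-1) ^ σ.card * t (sN σ) := by
    unfold chRE
    rw [Finset.sum_filter]
  rw [← h4, ← h1]
  unfold chE
  refine finsum_congr fun σ => ?_
  by_cases hσ : IsCh p σ
  · rw [if_pos hσ]
    by_cases h2 : ∀ Q ∈ σ, IsEl p Q
    · rw [if_pos (show IsChE p σ from ⟨hσ, h2⟩), if_pos h2, hF]
      ring
    · rw [if_neg (fun h : IsChE p σ => h2 h.2), if_neg h2, mul_zero]
  · rw [if_neg hσ, if_neg (fun h : IsChE p σ => hσ h.1)]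

end

section
variable {p : ℕ} {k : Type*} [Field k] {A : Type*} [Group A] [Fintype A]

/-- the alternating sum of the traces -/
noncomputable def TE (p : ℕ) (z : MonoidAlgebra k A) : k :=
  ∑ σ ∈ chRE p A, (-1) ^ σ.card * trE k (sN σ) (fun x => (rz (sN σ) z).coeff x)

theorem TE_add (y z : MonoidAlgebra k A) : TE p (y + z) = TE p y + TE p z := by
  unfold TE
  rw [← Finset.sum_add_distrib]
  refine Finset.sum_congr rfl (fun σ _ => ?_)
  rw [← mul_add, ← trE_add]
  congr 2
  funext x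
  rw [TSlAux.rz_add, coeff_add, Finsupp.add_apply]

theorem TE_smul (c : k) (z : MonoidAlgebra k A) : TE p (c • z) = c * TE p z := by
  unfold TE
  rw [Finset.mul_sum]
  refine Finset.sum_congr rfl (fun σ _ => ?_)
  rw [mul_left_comm, ← trE_smul (sN σ) c]
  congr 2
  funext x
  rw [TSlAux.rz_smul, coeff_smul, Finsupp.smul_apply, smul_eq_mul]

theorem TE_zero : TE p (0 : MonoidAlgebra k A) = 0 := by
  have h := TE_smul (p := p) (0 : k) (0 : MonoidAlgebra k A)
  rwa [zero_smul, zero_mul] at h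

theorem TE_sum {ι : Type*} (S : Finset ι) (z : ι → MonoidAlgebra k A) :
    TE p (∑ i ∈ S, z i) = ∑ i ∈ S, TE p (z i) := by
  classical
  induction S using Finset.induction_on with
  | empty => rw [Finset.sum_empty, Finset.sum_empty, TE_zero]
  | insert a S ha ih => rw [Finset.sum_insert ha, Finset.sum_insert ha, TE_add, ih]

theorem TE_sub (y z : MonoidAlgebra k A) : TE p (y - z) = TE p y - TE p z := by
  have h1 : y - z = y + (-1 : k) • z := by rw [neg_one_smul, sub_eq_add_neg]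
  rw [h1, TE_add, TE_smul]
  ring

theorem trE_rz (U : Subgroup A) (z : MonoidAlgebra k A) :
    trE k U (fun x => (rz U z).coeff x) = trE k U (fun x => z.coeff x) := by
  classical
  unfold trE
  refine finsum_congr fun X => Finset.sum_congr rfl fun y _ => ?_
  by_cases h : y ∈ U ∧ ∃ h ∈ U, y * (X.out : A) = h * (X.out : A) * h⁻¹
  · rw [if_pos h, if_pos h]
    change (rz U z).coeff y = z.coeff y
    rw [rz_coeff, if_pos h.1]
  · rw [if_neg h, if_neg h]

/-- class functions: the alternating sum of `nE` -/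
theorem eE_TE [Fact p.Prime] {m : A → ℤ} (hm : ∀ h x, m (h * x * h⁻¹) = m x) :
    ∃ t : ℤ, eE p m = (Nat.card A : ℤ) * t ∧ (t : k) = TE p (zel k m) := by
  classical
  choose t ht1 ht2 using fun U : Subgroup A => nE_trE (k := k) U (fun h _ x => hm h x)
  have htc : ∀ (g : A) (U : Subgroup A), t (cg g U) = t U := by
    intro g U
    have h1 := nE_conj U g (m := m) (fun x => hm g x)
    rw [ht1, ht1, card_cg] at h1
    have h2 : (Nat.card U : ℤ) ≠ 0 := by
      have : 0 < Nat.card U := Nat.card_pos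
      exact_mod_cast this.ne'
    exact mul_left_cancel₀ h2 h1
  refine ⟨∑ σ ∈ chRE p A, (-1) ^ σ.card * t (sN σ), ?_, ?_⟩
  · exact chS_sumE (p := p) (fun U => nE U m) t ht1 htc
  · push_cast
    unfold TE
    refine Finset.sum_congr rfl (fun σ _ => ?_)
    rw [ht2, trE_rz]
    rfl

theorem rz_hI (S : Set A) (U : Subgroup A) : rz U (hI k S (⊤ : Subgroup A)) = hI k S U := by
  classical
  ext x
  rw [rz_coeff, hI_coeff, hI_coeff]
  by_cases h1 : x ∈ U <;> by_cases h2 : x⁻¹ ∈ S <;> simp [h1, h2]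

variable [Fact p.Prime] [CharP k p] [IsAlgClosed k]

theorem TE_nil {n : MonoidAlgebra k A} (hn : n ∈ fixAlg k (⊤ : Subgroup A) ⊤)
    (hnil : IsNilpotent n) : TE p n = 0 := by
  unfold TE
  refine Finset.sum_eq_zero fun σ hσ => ?_
  obtain ⟨Q, hQ⟩ := sand_of_chE (isChE_of_mem hσ)
  rw [trE_rz_nil (p := p) hQ hn hnil, mul_zero]

/-- triples with `[a, b] c ∈ S` -/
theorem eS_TE {S : Set A} (hC : CInv S) {m : A → ℤ} (hm : ∀ h x, m (h * x * h⁻¹) = m x) :
    ∃ t : ℤ, eS p S m = (Nat.card A : ℤ) * t ∧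
      (t : k) = TE p (hI k S (⊤ : Subgroup A) * zel k m) := by
  classical
  choose t ht1 ht2 using fun U : Subgroup A => nS_trE (k := k) hC U (fun h _ x => hm h x)
  have htc : ∀ (g : A) (U : Subgroup A), t (cg g U) = t U := by
    intro g U
    have h1 := nS_conj hC U g (m := m) (fun x => hm g x)
    rw [ht1, ht1, card_cg] at h1
    have h2 : (Nat.card U : ℤ) ≠ 0 := by
      have : 0 < Nat.card U := Nat.card_pos
      exact_mod_cast this.ne'
    exact mul_left_cancel₀ h2 h1
  refine ⟨∑ σ ∈ chRE p A, (-1) ^ σ.card * t (sN σ), ?_, ?_⟩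
  · rw [eS_chS]
    exact chS_sumE (p := p) (fun U => nS S U m) t ht1 htc
  · push_cast
    unfold TE
    refine Finset.sum_congr rfl (fun σ hσ => ?_)
    obtain ⟨Q, hQ⟩ := sand_of_chE (isChE_of_mem hσ)
    rw [ht2, ← trE_rz_mul (p := p) hQ (NilCAux.hI_mem hC ⊤) (zel_mem hm), rz_hI]

/-- `TE` on a block -/
theorem TE_blk {b y : MonoidAlgebra k A} (hb : IsBlock (⊤ : Subgroup A) b)
    (hy : y ∈ fixAlg k (⊤ : Subgroup A) ⊤) (h0 : TE p (y * b) = 0) (hn : ¬ IsNilpotent (y * b)) :
    TE p b = 0 := by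
  obtain ⟨c, w, hw, hwn, hyb⟩ := blk_scalar hb hy
  have hc : c ≠ 0 := by
    rintro rfl
    rw [zero_smul, zero_add] at hyb
    exact hn (hyb ▸ hwn)
  rw [hyb, TE_add, TE_smul, TE_nil hw hwn, add_zero] at h0
  exact (mul_eq_zero.1 h0).resolve_left hc

open Rc.BiAux in
/-- from the weights to the block -/
theorem TE_of_eS {S : Set A} (hC : CInv S) {b : MonoidAlgebra k A}
    (hb : IsBlock (⊤ : Subgroup A) b)
    (h : ∀ m : A → ℤ, IsWt p ⊤ m → (p : ℤ) * (Nat.card A : ℤ) ∣ eS p S m) :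
    TE p (hI k S (⊤ : Subgroup A) * b) = 0 := by
  classical
  have hA : (Nat.card A : ℤ) ≠ 0 := by exact_mod_cast (Nat.card_pos (α := A)).ne'
  have hwt : ∀ c : k, c ≠ 0 → IsWt p (⊤ : Subgroup A) (lev b c) := by
    intro c hc
    constructor
    · intro g hg x
      have h1 : b.coeff (g * x * g⁻¹) = b.coeff x := hb.invBy g hg x
      unfold lev
      rw [h1]
    · intro x hx
      refine osima hb.mem hb.idem (x := x) (fun h0 => hx ?_)
      exact if_neg (fun h1 => hc (by rw [← h1, h0]))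
  rw [eq_sum_lev b, Finset.mul_sum, TE_sum]
  refine Finset.sum_eq_zero (fun c hc => ?_)
  rw [Finset.mem_filter] at hc
  rw [mul_smul_comm, TE_smul]
  have hw := hwt c hc.2
  obtain ⟨t, ht, ht'⟩ := eS_TE (k := k) (p := p) hC (m := lev b c)
    (fun h x => hw.conj h (Subgroup.mem_top h) x)
  have h2 := h _ hw
  rw [ht, mul_comm (p : ℤ)] at h2
  have h3 : (p : ℤ) ∣ t := Int.dvd_of_mul_dvd_mul_left hA h2
  have h4 : (t : k) = 0 := (CharP.intCast_eq_zero_iff k p t).2 h3
  rw [← ht', h4, mul_zero]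

end

end Pool.Agent.Lib.P0c8ca5.Id
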