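import Mathlib
import Pool.Agent.Lib.P0c8ca5Bw.NilC
import Pool.Agent.Lib.P0c8ca5Se.PrB
import Pool.Agent.Lib.P0c8ca5V.TFin

/-!
# Gd: elements `u d` with a nonzero value on a block

`D` a defect group of `b`, `u` in the center of `D`. There is a p-regular `d` commuting with `u` such
that `D` is a Sylow p-subgroup of the centralizer of `d` and the class sum of `(u d)⁻¹` times `b` is not
nilpotent.
-/

namespace Pool.Agent.Lib.P0c8ca5.Id

open MonoidAlgebra Bw

set_option linter.unusedSectionVars false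

variable {p : ℕ} {k : Type*} [Field k] {A : Type*} [Group A] [Fintype A]
variable [Fact p.Prime] [CharP k p] [IsAlgClosed k]

namespace GdAux

theorem isSyl_of_max {C D : Subgroup A} (hDC : D ≤ C) (hD : IsPGroup p D)
    (hmax : ∀ P : Subgroup A, IsPGroup p P → P ≤ C → D ≤ P → P = D) : IsSyl p C D := by
  obtain ⟨P, hP⟩ := exists_isSyl (p := p) C
  obtain ⟨g, hg, hDg⟩ := hP.conj D hDC hD
  have hle : ∀ {g : A} {Q : Subgroup A}, g ∈ C → Q ≤ C → cg g Q ≤ C := by
    intro g Q hg hQ x hx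
    rw [mem_cg] at hx
    have h1 := hQ hx
    have h2 := C.mul_mem (C.mul_mem hg h1) (C.inv_mem hg)
    have e : g * (g⁻¹ * x * g) * g⁻¹ = x := by group
    rwa [e] at h2
  have h1 : cg g P = D := hmax _ (isPGroup_cg hP.isPGroup) (hle hg hP.le) hDg
  refine ⟨hDC, hD, ?_, ?_⟩
  · intro E hE hEp
    obtain ⟨g', hg', hEg⟩ := hP.conj E hE hEp
    refine ⟨g' * g⁻¹, C.mul_mem hg' (C.inv_mem hg), ?_⟩
    rw [← h1, cg_cg, inv_mul_cancel_right]
    exact hEg
  · have h2 : Nat.card D = Nat.card P := by rw [← h1, card_cg]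
    have h3 := Subgroup.card_mul_index (D.subgroupOf C)
    have h4 := Subgroup.card_mul_index (P.subgroupOf C)
    rw [Nat.card_congr (Subgroup.subgroupOfEquivOfLe hDC).toEquiv] at h3
    rw [Nat.card_congr (Subgroup.subgroupOfEquivOfLe hP.le).toEquiv] at h4
    have h5 : (D.subgroupOf C).index = (P.subgroupOf C).index := by
      rw [h2, ← h4] at h3
      exact Nat.eq_of_mul_eq_mul_left Nat.card_pos h3
    change ¬ p ∣ (D.subgroupOf C).index
    rw [h5]
    exact hP.ndvd

theorem cent_inv (d : A) : Subgroup.centralizer ({d⁻¹} : Set A) = Subgroup.centralizer {d} := by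
  ext x
  rw [Subgroup.mem_centralizer_iff, Subgroup.mem_centralizer_iff]
  constructor
  · rintro h y (rfl : y = d)
    have h1 : Commute y⁻¹ x := h y⁻¹ rfl
    exact (Commute.inv_left_iff.1 h1).eq
  · rintro h y (rfl : y = d⁻¹)
    have h1 : Commute d x := h d rfl
    exact (Commute.inv_left_iff.2 h1).eq

theorem mem_cent {d x : A} : x ∈ Subgroup.centralizer ({d} : Set A) ↔ Commute x d := by
  rw [Subgroup.mem_centralizer_iff]
  constructor
  · intro h
    exact (h d rfl).symm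
  · rintro h y (rfl : y = d)
    exact h.symm.eq

end GdAux

theorem exists_dd {b : MonoidAlgebra k A} (hb : IsBlock (⊤ : Subgroup A) b) {D : Subgroup A}
    (hD : IsDefectGroup p (⊤ : Subgroup A) b D) {u : A} (hu : u ∈ D)
    (huc : ∀ x ∈ D, u * x = x * u) :
    ∃ d : A, Commute u d ∧ Preg p d ∧ D ≤ Subgroup.centralizer ({d} : Set A) ∧
      (∀ P : Subgroup A, IsPGroup p P → P ≤ Subgroup.centralizer ({d} : Set A) → D ≤ P → P = D) ∧
      ¬ IsNilpotent (hI k {x : A | IsConj (u * d) x} (⊤ : Subgroup A) * b) := by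
  classical
  have hDp : IsPGroup p D := hD.isPGroup
  -- a block of defect zero of `NQ D`
  have hpf0 : proj D b ≠ 0 :=
    NilBAux.proj_ne_zero hDp (hb.invBy.mono le_top) hb.idem hD.br
  have hpff : proj D b * proj D b = proj D b := by
    rw [← proj_mul hDp (hb.invBy.mono le_top) (hb.invBy.mono le_top), hb.idem]
  obtain ⟨g, hg, hfg⟩ := NilBAux.exists_below (NilBAux.proj_mem hb.mem) hpff hpf0
  have hgdz : IsDZ p (⊤ : Subgroup (NQ D)) g := by
    refine ⟨hg, fun P _ hpP hbr => ?_⟩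
    have h1 := NilBAux.hasBr_pre hDp hb.invBy hg hfg hpP hbr
    have h2 : pre D P = D := hD.max _ le_top (isPGroup_pre hDp hpP) h1 (le_pre P)
    rw [eq_bot_iff]
    intro u hu
    obtain ⟨x, hx, rfl⟩ := qm_surj u
    have h3 : x ∈ pre D P := mem_pre.2 ⟨hx, hu⟩
    rw [h2] at h3
    rw [Subgroup.mem_bot, qm_eq_one_iff]
    exact h3
  -- a class
  have hcl : ∃ y : A, b.coeff y ≠ 0 ∧ Preg p y ∧ proj D (zel k (Se.ic y)) * g ≠ 0 := by
    by_contra hcon
    push Not at hcon
    have : Fintype (Cl (⊤ : Subgroup A) (Preg p)) := Fintype.ofFinite _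
    have hp0 : proj D (0 : MonoidAlgebra k A) = 0 := by
      rw [← zero_smul k (0 : MonoidAlgebra k A), proj_smul, zero_smul]
    let F : MonoidAlgebra k A →+ MonoidAlgebra k (NQ D) :=
      { toFun := fun z => proj D z * g
        map_zero' := by rw [hp0, zero_mul]
        map_add' := fun x y => by rw [proj_add, add_mul] }
    have h1 : F b = g := hfg
    rw [TFinAux.blk_eq_sum (p := p) hb, map_sum] at h1
    apply hg.ne_zero
    rw [← h1]
    refine Finset.sum_eq_zero fun X _ => ?_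
    change proj D (b.coeff (X.out : A) • zel k (TFinAux.icl p X)) * g = 0
    rw [proj_smul, smul_mul_assoc]
    by_cases hX : b.coeff (X.out : A) = 0
    · rw [hX, zero_smul]
    · have h2 : TFinAux.icl p X = Se.ic (X.out : A) := by
        funext x
        unfold TFinAux.icl Se.ic
        have h3 : InCl (⊤ : Subgroup A) (Preg p) X x ↔ IsConj (X.out : A) x := by
          constructor
          · intro h
            obtain ⟨g, -, hg⟩ := InCl_out_conj h
            exact (isConj_iff.2 ⟨g, hg.symm⟩).symm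
          · intro h
            obtain ⟨g, hg⟩ := isConj_iff.1 h
            rw [← hg]
            exact (InCl_conj (fun g _ x hx => (preg_conj g x).2 hx) (Subgroup.mem_top g)).2
              (InCl_out X)
        by_cases h4 : IsConj (X.out : A) x
        · rw [if_pos (h3.2 h4), if_pos h4]
        · rw [if_neg (fun h => h4 (h3.1 h)), if_neg h4]
      rw [h2, hcon _ hX X.out.2, smul_zero]
  obtain ⟨y, hby, hyr, hyg⟩ := hcl
  have hzm : ∀ y : A, zel k (Se.ic y) ∈ fixAlg k (⊤ : Subgroup A) ⊤ := fun y =>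
    zel_mem (Se.CF_ic y)
  have hyp0 : proj D (zel k (Se.ic y)) ≠ 0 := by
    intro h0
    rw [h0, zero_mul] at hyg
    exact hyg rfl
  obtain ⟨d₀, hd₀D, hd₀⟩ := hasBr_of_proj hDp ((mem_fixAlg.1 (hzm y)).2.mono le_top) hyp0
  have hconj : IsConj y d₀ := by
    by_contra hn
    apply hd₀
    rw [zel_coeff]
    unfold Se.ic
    rw [if_neg hn, Int.cast_zero]
  have hic : Se.ic d₀ = Se.ic y := by
    funext x
    unfold Se.ic
    by_cases hx : IsConj d₀ x
    · rw [if_pos hx, if_pos (hconj.trans hx)]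
    · rw [if_neg hx, if_neg (fun h => hx (hconj.symm.trans h))]
  obtain ⟨h, hh⟩ := isConj_iff.1 hconj
  have hbd : b.coeff d₀ ≠ 0 := by
    rw [← hh, hb.invBy h (Subgroup.mem_top h) y]
    exact hby
  have hdr : Preg p d₀ := by
    rw [← hh]
    exact (preg_conj h y).2 hyr
  have hDd₀ : ∀ x ∈ D, Commute x d₀ := fun x hx => Subgroup.mem_centralizer_iff.1 hd₀D x hx
  have hDle : D ≤ Subgroup.centralizer ({d₀} : Set A) := fun x hx => GdAux.mem_cent.2 (hDd₀ x hx)
  have hmax : ∀ P : Subgroup A, IsPGroup p P → P ≤ Subgroup.centralizer ({d₀} : Set A) →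
      D ≤ P → P = D := by
    intro P hP hPd hDP
    refine hD.max P le_top hP ⟨d₀, ?_, hbd⟩ hDP
    rw [Subgroup.mem_centralizer_iff]
    exact fun x hx => (GdAux.mem_cent.1 (hPd hx)).eq
  have hsyl : IsSyl p (Subgroup.centralizer ({d₀} : Set A)) D :=
    GdAux.isSyl_of_max hDle hDp hmax
  obtain ⟨c, hc, hprop⟩ := Se.proj_prop (k := k) hdr hsyl (D.inv_mem hu)
    (fun x hx => ((show Commute u x from huc x hx).symm.inv_right).eq)
  have hud₀ : Commute u d₀ := hDd₀ u hu
  refine ⟨d₀⁻¹, hud₀.inv_right, ?_, ?_, ?_, ?_⟩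
  · rw [Preg, orderOf_inv]
    exact hdr
  · rw [GdAux.cent_inv]
    exact hDle
  · rw [GdAux.cent_inv]
    exact hmax
  -- the class sum
  have hhI : hI k {x : A | IsConj (u * d₀⁻¹) x} (⊤ : Subgroup A) = zel k (Se.ic (u⁻¹ * d₀)) := by
    ext x
    rw [hI_coeff, zel_coeff]
    unfold Se.ic
    have h1 : (x⁻¹ ∈ {x : A | IsConj (u * d₀⁻¹) x} ∧ x ∈ (⊤ : Subgroup A)) ↔
        IsConj (u⁻¹ * d₀) x := by
      rw [Set.mem_ofPred_eq]
      have h2 : (u * d₀⁻¹)⁻¹ = u⁻¹ * d₀ := by
        rw [mul_inv_rev, inv_inv]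
        exact (hud₀.inv_left.symm).eq
      constructor
      · rintro ⟨h3, -⟩
        obtain ⟨g, hg⟩ := isConj_iff.1 h3
        refine isConj_iff.2 ⟨g, ?_⟩
        rw [← h2]
        have h4 := congrArg (fun t => t⁻¹) hg
        simp only [inv_inv] at h4
        rw [← h4]
        group
      · intro h3
        refine ⟨?_, Subgroup.mem_top x⟩
        obtain ⟨g, hg⟩ := isConj_iff.1 h3
        refine isConj_iff.2 ⟨g, ?_⟩
        rw [← hg, ← h2]
        group
    by_cases h3 : IsConj (u⁻¹ * d₀) x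
    · rw [if_pos (h1.2 h3), if_pos h3, Int.cast_one]
    · rw [if_neg (fun h4 => h3 (h1.1 h4)), if_neg h3, Int.cast_zero]
  rw [hhI]
  intro hnil
  obtain ⟨n, hn⟩ := hnil
  have hWm := hzm (u⁻¹ * d₀)
  set W := zel k (Se.ic (u⁻¹ * d₀)) with hW
  have hWb : W * b ∈ fixAlg k (⊤ : Subgroup A) ⊤ := (fixAlg k (⊤ : Subgroup A) ⊤).mul_mem hWm hb.mem
  have hpW : proj D (W * b) ^ n = 0 := by
    rw [← TFinAux.proj_pow hDp hWb, hn, ← zero_smul k (0 : MonoidAlgebra k A), proj_smul, zero_smul]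
  obtain ⟨e, he⟩ := dz_scalar hgdz (TFinAux.proj_mem (hzm d₀) : proj D (zel k (Se.ic d₀)) ∈ _)
  have he0 : e ≠ 0 := by
    intro h0
    rw [h0, zero_smul, hic] at he
    exact hyg he
  have hc0 : (c : k) ≠ 0 := by
    intro h0
    exact hc ((CharP.cast_eq_zero_iff k p c).1 h0)
  have h1 : proj D (W * b) * g = ((c : k) * e) • g := by
    rw [proj_mul hDp ((mem_fixAlg.1 hWm).2.mono le_top) (hb.invBy.mono le_top), mul_assoc, hfg,
      hprop, smul_mul_assoc, he, smul_smul]
  have h2 : ∀ m : ℕ, proj D (W * b) ^ m * g = ((c : k) * e) ^ m • g := by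
    intro m
    induction m with
    | zero => rw [pow_zero, pow_zero, one_mul, one_smul]
    | succ m ih =>
      rw [pow_succ, mul_assoc, h1, mul_smul_comm, ih, smul_smul, pow_succ, mul_comm]
  have h3 := h2 n
  rw [hpW, zero_mul] at h3
  rcases smul_eq_zero.1 h3.symm with h4 | h4
  · exact (pow_ne_zero n (mul_ne_zero hc0 he0)) h4
  · exact hg.ne_zero h4

/-- transfer: `u` is in the center of `centralizer {u d}` and `D` is a Sylow p-subgroup of it -/
theorem not_mem_comm {D : Subgroup A} (hDp : IsPGroup p D) {u d : A} (hu : u ∈ D)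
    (huc : ∀ x ∈ D, u * x = x * u) (hu' : u ∉ ⁅D, D⁆) (hd : Preg p d) (hud : Commute u d)
    (hDd : D ≤ Subgroup.centralizer ({d} : Set A))
    (hmax : ∀ P : Subgroup A, IsPGroup p P → P ≤ Subgroup.centralizer ({d} : Set A) →
      D ≤ P → P = D) :
    u ∉ ⁅Subgroup.centralizer ({u * d} : Set A), Subgroup.centralizer ({u * d} : Set A)⁆ := by
  classical
  set C : Subgroup A := Subgroup.centralizer ({u * d} : Set A) with hC
  have hpel : Pel p u := by
    obtain ⟨n, hn⟩ := hDp ⟨u, hu⟩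
    exact ⟨n, congrArg Subtype.val hn⟩
  have hp : p.Prime := Fact.out
  -- `u` and `d` are powers of `u * d`
  have hcop : Nat.Coprime (orderOf u) (orderOf d) := by
    obtain ⟨m, hm⟩ := hpel
    exact Nat.Coprime.coprime_dvd_left (orderOf_dvd_of_pow_eq_one hm)
      (Nat.Coprime.pow_left m ((Nat.Prime.coprime_iff_not_dvd hp).2 hd))
  have hcu : ∀ x ∈ C, Commute x u := by
    intro x hx
    have h1 : Commute x (u * d) := GdAux.mem_cent.1 hx
    obtain ⟨t, ht1, ht2⟩ := Nat.chineseRemainder hcop 1 0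
    have h2 : (u * d) ^ t = u := by
      rw [hud.mul_pow, pow_eq_pow_iff_modEq.2 ht1, pow_eq_pow_iff_modEq.2 ht2, pow_one, pow_zero,
        mul_one]
    rw [← h2]
    exact h1.pow_right t
  have hcd : ∀ x ∈ C, Commute x d := by
    intro x hx
    have h1 : Commute x (u * d) := GdAux.mem_cent.1 hx
    obtain ⟨t, ht1, ht2⟩ := Nat.chineseRemainder hcop 0 1
    have h2 : (u * d) ^ t = d := by
      rw [hud.mul_pow, pow_eq_pow_iff_modEq.2 ht1, pow_eq_pow_iff_modEq.2 ht2, pow_one, pow_zero,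
        one_mul]
    rw [← h2]
    exact h1.pow_right t
  have hDC : D ≤ C := by
    intro x hx
    refine GdAux.mem_cent.2 ?_
    exact (show Commute x u from (huc x hx).symm).mul_right (GdAux.mem_cent.1 (hDd hx))
  have hCd : C ≤ Subgroup.centralizer ({d} : Set A) := fun x hx => GdAux.mem_cent.2 (hcd x hx)
  have hsyl : IsSyl p C D := GdAux.isSyl_of_max hDC hDp
    (fun P hP hPC hDP => hmax P hP (hPC.trans hCd) hDP)
  have huC : u ∈ C := hDC hu
  intro hmem
  -- the transfer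
  let D' : Subgroup ↥C := D.subgroupOf C
  have huD' : (⟨u, huC⟩ : ↥C) ∈ D' := Subgroup.mem_subgroupOf.2 hu
  let ϕ : ↥D' →* Abelianization ↥D' := Abelianization.of
  have hcen : ∀ g : ↥C, Commute g (⟨u, huC⟩ : ↥C) := fun g => Subtype.ext (hcu g g.2).eq
  have hkey : ∀ (i : ℕ) (g₀ : ↥C), g₀⁻¹ * (⟨u, huC⟩ : ↥C) ^ i * g₀ ∈ D' →
      g₀⁻¹ * (⟨u, huC⟩ : ↥C) ^ i * g₀ = (⟨u, huC⟩ : ↥C) ^ i := by
    intro i g₀ _
    have h1 : Commute g₀ ((⟨u, huC⟩ : ↥C) ^ i) := (hcen g₀).pow_right i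
    rw [mul_assoc, ← h1.eq, inv_mul_cancel_left]
  have htr := MonoidHom.transfer_eq_pow ϕ (⟨u, huC⟩ : ↥C) hkey
  have h1 : (⟨u, huC⟩ : ↥C) ∈ commutator ↥C := by
    have h3 : (commutator ↥C).map C.subtype = ⁅C, C⁆ := by
      rw [commutator_def, Subgroup.map_commutator, ← MonoidHom.range_eq_map, Subgroup.range_subtype]
    rw [← h3] at hmem
    obtain ⟨x, hx, hxu⟩ := hmem
    have : x = ⟨u, huC⟩ := Subtype.ext hxu
    rwa [← this]
  have h2 : MonoidHom.transfer ϕ (⟨u, huC⟩ : ↥C) = 1 :=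
    Abelianization.commutator_subset_ker (MonoidHom.transfer ϕ) h1
  rw [h2] at htr
  have h4 := (QuotientGroup.eq_one_iff _).1 htr.symm
  have h5 : u ^ D'.index ∈ ⁅D, D⁆ := by
    have h6 : ((commutator ↥D').map D'.subtype).map C.subtype = ⁅D, D⁆ := by
      have h7 : D'.map C.subtype = D := by
        rw [Subgroup.map_subgroupOf_eq_of_le hDC]
      rw [commutator_def, Subgroup.map_commutator, ← MonoidHom.range_eq_map, Subgroup.range_subtype,
        Subgroup.map_commutator, h7]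
    rw [← h6]
    exact ⟨_, ⟨_, h4, rfl⟩, rfl⟩
  have h8 : Nat.Coprime D'.index (orderOf u) := by
    obtain ⟨m, hm⟩ := hpel
    refine Nat.Coprime.coprime_dvd_right (orderOf_dvd_of_pow_eq_one hm) (Nat.Coprime.pow_right m ?_)
    rw [Nat.coprime_comm]
    exact (Nat.Prime.coprime_iff_not_dvd hp).2 hsyl.ndvd
  obtain ⟨m, hm⟩ := exists_pow_eq_self_of_coprime h8
  apply hu'
  rw [← hm]
  exact Subgroup.pow_mem _ h5 m

end Pool.Agent.Lib.P0c8ca5.Id
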