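import Mathlib
import Pool.Agent.Lib.P0c8ca5Ab.Defs

/-!
# P0c8ca5Id.K3Defs: triples `(a, b, c)` with `[a, b] c = w`

* `Pw3 p w a b c`: `[a, b] c = w` and the three elements generate all p-regular elements;
* `XW3 p w C`: the triples with `c ∈ C`;
* `HyC`, `Pc`: the same for the pair `(a, b)` with `c` fixed; `S` a p-subgroup commuting with `c`
  and with `w = [a, b]`;
* `Sc S c`: the elements of `S` commuting with `c`.
-/

namespace Pool.Agent.Lib.P0c8ca5.K3

open Ab

section
variable {G : Type*} [Group G]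

/-- triples with `[a, b] c = w` generating all p-regular elements -/
structure Pw3 (p : ℕ) (w a b c : G) : Prop where
  cm : cmt a b * c = w
  ge : ∀ g : G, Preg p g → g ∈ Subgroup.closure ({a, b, c} : Set G)

/-- `C` is invariant under conjugation -/
def CInv (C : Set G) : Prop := ∀ g : G, ∀ c ∈ C, g * c * g⁻¹ ∈ C

/-- the set of the triples -/
def XW3 (p : ℕ) (w : G) (C : Set G) : Type _ :=
  {t : G × G × G // Pw3 p w t.1 t.2.1 t.2.2 ∧ t.2.2 ∈ C}

instance {p : ℕ} {w : G} {C : Set G} [Finite G] : Finite (XW3 p w C) := by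
  unfold XW3; infer_instance

/-- the hypotheses on the group, the element `w` and the p-subgroup `S` -/
structure HyS (p k : ℕ) (S : Subgroup G) (w : G) : Prop where
  no : NoP p (⊤ : Subgroup G)
  pS : IsPGroup p S
  cw : ∀ x ∈ S, x * w = w * x
  pk : ∀ g : G, Pel p (g ^ k)

/-- the hypotheses on the group, the commutator, the puncture `c` and the p-subgroup -/
structure HyC (p k : ℕ) (S : Subgroup G) (c w : G) : Prop where
  no : NoP p (⊤ : Subgroup G)
  pS : IsPGroup p S
  cc : ∀ x ∈ S, x * c = c * x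
  cw : ∀ x ∈ S, x * w = w * x
  pk : ∀ g : G, Pel p (g ^ k)

/-- pairs with commutator `w` that generate with `c` all p-regular elements -/
structure Pc (p : ℕ) (c w a b : G) : Prop where
  cm : cmt a b = w
  ge : ∀ g : G, Preg p g → g ∈ Subgroup.closure ({a, b, c} : Set G)

/-- the elements of `S` commuting with `c` -/
def Sc (S : Subgroup G) (c : G) : Subgroup G := S ⊓ Subgroup.centralizer {c}

theorem mem_Sc {S : Subgroup G} {c x : G} : x ∈ Sc S c ↔ x ∈ S ∧ x * c = c * x := by
  unfold Sc
  rw [Subgroup.mem_inf, Subgroup.mem_centralizer_iff]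
  constructor
  · rintro ⟨h1, h2⟩
    exact ⟨h1, (h2 c rfl).symm⟩
  · rintro ⟨h1, h2⟩
    refine ⟨h1, ?_⟩
    rintro y (rfl : y = c)
    exact h2.symm

end

end Pool.Agent.Lib.P0c8ca5.K3
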