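import Mathlib
import Pool.Agent.Lib.P0c8ca5Id.K3Defs

/-!
# P0c8ca5Id.K3Braid: the action of the braid group on four strands on the triples

On all of `G × G × G`, with a parameter `w`:
`t1 (a, b, c) = (a, b a, c)`, `t2 (a, b, c) = (a b⁻¹, b, c)`,
`t3 w (a, b, c) = (a, g⁻¹ b, g⁻¹ c g)` with `g = a⁻¹ w`.
The braid relations hold identically; on the triples with `[a, b] c = w` the full twist
`(t1 t2 t3) ^ 4 = (t1 t1 t2 t3) ^ 3` is the conjugation by `w⁻¹`.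
-/

namespace Pool.Agent.Lib.P0c8ca5.K3

open Ab

section
variable {G : Type*} [Group G]

/-- the first braid -/
def t1 (x : G × G × G) : G × G × G := (x.1, x.2.1 * x.1, x.2.2)

/-- the second braid -/
def t2 (x : G × G × G) : G × G × G := (x.1 * x.2.1⁻¹, x.2.1, x.2.2)

/-- the third braid -/
def t3 (w : G) (x : G × G × G) : G × G × G :=
  (x.1, (x.1⁻¹ * w)⁻¹ * x.2.1, (x.1⁻¹ * w)⁻¹ * x.2.2 * (x.1⁻¹ * w))

theorem t_braid12 (x : G × G × G) : t1 (t2 (t1 x)) = t2 (t1 (t2 x)) := by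
  obtain ⟨a, b, c⟩ := x
  simp only [t1, t2, Prod.mk.injEq]
  refine ⟨?_, ?_, ?_⟩ <;> group

theorem t_braid13 (w : G) (x : G × G × G) : t1 (t3 w x) = t3 w (t1 x) := by
  obtain ⟨a, b, c⟩ := x
  simp only [t1, t3, Prod.mk.injEq]
  refine ⟨?_, ?_, ?_⟩ <;> group

theorem t_braid23 (w : G) (x : G × G × G) : t2 (t3 w (t2 x)) = t3 w (t2 (t3 w x)) := by
  obtain ⟨a, b, c⟩ := x
  simp only [t2, t3, Prod.mk.injEq]
  refine ⟨?_, ?_, ?_⟩ <;> group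

theorem t1_inj {x y : G × G × G} (h : t1 x = t1 y) : x = y := by
  obtain ⟨a, b, c⟩ := x
  obtain ⟨a', b', c'⟩ := y
  simp only [t1, Prod.mk.injEq] at h ⊢
  obtain ⟨rfl, h2, rfl⟩ := h
  exact ⟨rfl, mul_right_cancel h2, rfl⟩

theorem t2_inj {x y : G × G × G} (h : t2 x = t2 y) : x = y := by
  obtain ⟨a, b, c⟩ := x
  obtain ⟨a', b', c'⟩ := y
  simp only [t2, Prod.mk.injEq] at h ⊢
  obtain ⟨h1, rfl, rfl⟩ := h
  exact ⟨mul_right_cancel h1, rfl, rfl⟩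

theorem t3_inj {w : G} {x y : G × G × G} (h : t3 w x = t3 w y) : x = y := by
  obtain ⟨a, b, c⟩ := x
  obtain ⟨a', b', c'⟩ := y
  simp only [t3, Prod.mk.injEq] at h ⊢
  obtain ⟨rfl, h2, h3⟩ := h
  exact ⟨rfl, mul_left_cancel h2, mul_left_cancel (mul_right_cancel h3)⟩

/-- the value of `t1 t2 t3` -/
theorem t123 (w : G) (a b c : G) : t1 (t2 (t3 w (a, b, c))) =
    (a * b⁻¹ * (a⁻¹ * w), (a⁻¹ * w)⁻¹ * b * a * b⁻¹ * (a⁻¹ * w),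
      (a⁻¹ * w)⁻¹ * c * (a⁻¹ * w)) := by
  simp only [t1, t2, t3, Prod.mk.injEq]
  refine ⟨?_, ?_, ?_⟩ <;> group

/-- the value of `(t1 t2 t3) ^ 2` -/
theorem t123_sq (w : G) (a b c : G) :
    t1 (t2 (t3 w (t1 (t2 (t3 w (a, b, c)))))) =
      (a⁻¹ * w, (a⁻¹ * w)⁻¹ * a * b⁻¹ * (a⁻¹ * w) * (a⁻¹ * w),
        (a⁻¹ * w)⁻¹ * b⁻¹ * c * b * (a⁻¹ * w)) := by
  rw [t123, t123, Prod.mk.injEq, Prod.mk.injEq]
  refine ⟨?_, ?_, ?_⟩ <;> group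

/-- the full twist is the conjugation by `w⁻¹` -/
theorem t123_four {w a b c : G} (h : cmt a b * c = w) :
    (fun y => t1 (t2 (t3 w y)))^[4] (a, b, c) = (w⁻¹ * a * w, w⁻¹ * b * w, w⁻¹ * c * w) := by
  have e4 : (fun y => t1 (t2 (t3 w y)))^[4] (a, b, c) =
      t1 (t2 (t3 w (t1 (t2 (t3 w (t1 (t2 (t3 w (t1 (t2 (t3 w (a, b, c)))))))))))) := rfl
  have hc : c = (cmt a b)⁻¹ * w := by rw [← h]; group
  rw [e4, t123_sq, t123_sq, Prod.mk.injEq, Prod.mk.injEq, hc]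
  unfold cmt
  refine ⟨?_, ?_, ?_⟩ <;> group

/-- the value of `t1 t1 t2 t3` -/
theorem t1123 (w : G) (a b c : G) : t1 (t1 (t2 (t3 w (a, b, c)))) =
    (a * b⁻¹ * (a⁻¹ * w), (a⁻¹ * w)⁻¹ * b * a * b⁻¹ * (a⁻¹ * w) * a * b⁻¹ * (a⁻¹ * w),
      (a⁻¹ * w)⁻¹ * c * (a⁻¹ * w)) := by
  simp only [t1, t2, t3, Prod.mk.injEq]
  refine ⟨?_, ?_, ?_⟩ <;> group

/-- the full twist as a third power -/
theorem t1123_three {w a b c : G} (h : cmt a b * c = w) :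
    (fun y => t1 (t1 (t2 (t3 w y))))^[3] (a, b, c) = (w⁻¹ * a * w, w⁻¹ * b * w, w⁻¹ * c * w) := by
  have e3 : (fun y => t1 (t1 (t2 (t3 w y))))^[3] (a, b, c) =
      t1 (t1 (t2 (t3 w (t1 (t1 (t2 (t3 w (t1 (t1 (t2 (t3 w (a, b, c)))))))))))) := rfl
  have hc : c = (cmt a b)⁻¹ * w := by rw [← h]; group
  rw [e3, t1123, t1123, t1123, Prod.mk.injEq, Prod.mk.injEq, hc]
  unfold cmt
  refine ⟨?_, ?_, ?_⟩ <;> group

end

end Pool.Agent.Lib.P0c8ca5.K3
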