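import Mathlib
import Pool.Agent.Lib.P0c8ca5Fo.Tr
import Pool.Agent.Lib.P0c8ca5Id.K3Fib
import Pool.Agent.Lib.P0c8ca5Id.K3Braid

/-!
# P0c8ca5Id.K3LT: the transfer of `t1 ^ k` on the triples is trivial
-/

namespace Pool.Agent.Lib.P0c8ca5.K3

open MulAction Ab Fo

section
variable {G : Type*} [Group G] {p k : ℕ} {S : Subgroup G} {w : G} {C : Set G}

theorem Pw3_cj {a b c s : G} (hs : s * w = w * s) (h : Pw3 p w a b c) :
    Pw3 p w (s * a * s⁻¹) (s * b * s⁻¹) (s * c * s⁻¹) := by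
  constructor
  · have h1 : cmt (s * a * s⁻¹) (s * b * s⁻¹) * (s * c * s⁻¹) = s * (cmt a b * c) * s⁻¹ := by
      unfold cmt
      group
    rw [h1, h.cm, hs]
    group
  · intro g hg
    have h2 : Preg p (MulAut.conj s⁻¹ g) := by
      unfold Preg at hg ⊢
      rwa [MulEquiv.orderOf_eq]
    have h3 := h.ge _ h2
    have h4 : MulAut.conj s (MulAut.conj s⁻¹ g) = g := by
      simp [MulAut.conj_apply, mul_assoc]
    rw [← h4]
    have h5 : MulAut.conj s (MulAut.conj s⁻¹ g) ∈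
        (Subgroup.closure ({a, b, c} : Set G)).map (MulAut.conj s).toMonoidHom :=
      Subgroup.mem_map.2 ⟨_, h3, rfl⟩
    rw [MonoidHom.map_closure] at h5
    refine Subgroup.closure_mono ?_ h5
    rintro x ⟨y, hy, rfl⟩
    simp only [Set.mem_insert_iff, Set.mem_singleton_iff] at hy ⊢
    rcases hy with rfl | rfl | rfl
    · left
      simp [MulAut.conj_apply]
    · right; left
      simp [MulAut.conj_apply]
    · right; right
      simp [MulAut.conj_apply]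

theorem Pw3_of_le {a b c a' b' c' : G} (h : Pw3 p w a b c) (hc : cmt a' b' * c' = w)
    (h1 : a ∈ Subgroup.closure ({a', b', c'} : Set G))
    (h2 : b ∈ Subgroup.closure ({a', b', c'} : Set G))
    (h3 : c ∈ Subgroup.closure ({a', b', c'} : Set G)) : Pw3 p w a' b' c' := by
  refine ⟨hc, fun g hg => ?_⟩
  refine (Subgroup.closure_le _).2 ?_ (h.ge g hg)
  rintro x (rfl | rfl | rfl)
  · exact h1
  · exact h2
  · exact h3

theorem Pw3_t1 {a b c : G} (h : Pw3 p w a b c) : Pw3 p w a (b * a) c := by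
  have ha : a ∈ Subgroup.closure ({a, b * a, c} : Set G) := Subgroup.subset_closure (by simp)
  have hb : b * a ∈ Subgroup.closure ({a, b * a, c} : Set G) := Subgroup.subset_closure (by simp)
  have hc : c ∈ Subgroup.closure ({a, b * a, c} : Set G) := Subgroup.subset_closure (by simp)
  refine Pw3_of_le h ?_ ha ?_ hc
  · rw [← h.cm]
    unfold cmt
    group
  · have := mul_mem hb (inv_mem ha)
    simpa [mul_assoc] using this

theorem Pw3_t2 {a b c : G} (h : Pw3 p w a b c) : Pw3 p w (a * b⁻¹) b c := by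
  have ha : a * b⁻¹ ∈ Subgroup.closure ({a * b⁻¹, b, c} : Set G) :=
    Subgroup.subset_closure (by simp)
  have hb : b ∈ Subgroup.closure ({a * b⁻¹, b, c} : Set G) := Subgroup.subset_closure (by simp)
  have hc : c ∈ Subgroup.closure ({a * b⁻¹, b, c} : Set G) := Subgroup.subset_closure (by simp)
  refine Pw3_of_le h ?_ ?_ hb hc
  · rw [← h.cm]
    unfold cmt
    group
  · have := mul_mem ha hb
    simpa [mul_assoc] using this

theorem Pw3_t3 {a b c : G} (h : Pw3 p w a b c) :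
    Pw3 p w a ((a⁻¹ * w)⁻¹ * b) ((a⁻¹ * w)⁻¹ * c * (a⁻¹ * w)) := by
  set H := Subgroup.closure
    ({a, (a⁻¹ * w)⁻¹ * b, (a⁻¹ * w)⁻¹ * c * (a⁻¹ * w)} : Set G) with hH
  have ha : a ∈ H := Subgroup.subset_closure (by simp)
  have hb : (a⁻¹ * w)⁻¹ * b ∈ H := Subgroup.subset_closure (by simp)
  have hc : (a⁻¹ * w)⁻¹ * c * (a⁻¹ * w) ∈ H := Subgroup.subset_closure (by simp)
  have hcm : cmt a ((a⁻¹ * w)⁻¹ * b) * ((a⁻¹ * w)⁻¹ * c * (a⁻¹ * w)) = w := by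
    have h1 : cmt a ((a⁻¹ * w)⁻¹ * b) * ((a⁻¹ * w)⁻¹ * c * (a⁻¹ * w)) =
        a * (a⁻¹ * w)⁻¹ * a⁻¹ * (cmt a b * c) * (a⁻¹ * w) := by
      unfold cmt
      group
    rw [h1, h.cm]
    group
  have hw : w ∈ H := by
    rw [← hcm]
    unfold cmt
    exact H.mul_mem (H.mul_mem (H.mul_mem (H.mul_mem ha hb) (H.inv_mem ha)) (H.inv_mem hb)) hc
  have hg : a⁻¹ * w ∈ H := H.mul_mem (H.inv_mem ha) hw
  refine Pw3_of_le h hcm ha ?_ ?_
  · have h1 := H.mul_mem hg hb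
    rw [mul_inv_cancel_left] at h1
    exact h1
  · have h1 := H.mul_mem (H.mul_mem hg hc) (H.inv_mem hg)
    have h2 : a⁻¹ * w * ((a⁻¹ * w)⁻¹ * c * (a⁻¹ * w)) * (a⁻¹ * w)⁻¹ = c := by group
    rw [h2] at h1
    exact h1

/-- conjugation by an element commuting with `w` -/
def cj3 (hC : CInv C) (s : G) (hs : s * w = w * s) (x : XW3 p w C) : XW3 p w C :=
  ⟨(s * x.1.1 * s⁻¹, s * x.1.2.1 * s⁻¹, s * x.1.2.2 * s⁻¹), Pw3_cj hs x.2.1, hC s _ x.2.2⟩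

/-- the first braid on the triples -/
def T1 (x : XW3 p w C) : XW3 p w C := ⟨t1 x.1, Pw3_t1 x.2.1, x.2.2⟩

/-- the second braid on the triples -/
def T2 (x : XW3 p w C) : XW3 p w C := ⟨t2 x.1, Pw3_t2 x.2.1, x.2.2⟩

/-- the third braid on the triples -/
def T3 (hC : CInv C) (x : XW3 p w C) : XW3 p w C :=
  ⟨t3 w x.1, Pw3_t3 x.2.1, by
    have h1 := hC (x.1.1⁻¹ * w)⁻¹ x.1.2.2 x.2.2
    rw [inv_inv] at h1
    exact h1⟩

theorem T1_bij [Finite G] : Function.Bijective (T1 : XW3 p w C → XW3 p w C) :=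
  Finite.injective_iff_bijective.1 fun _ _ h => Subtype.ext (t1_inj (congrArg Subtype.val h))

theorem T2_bij [Finite G] : Function.Bijective (T2 : XW3 p w C → XW3 p w C) :=
  Finite.injective_iff_bijective.1 fun _ _ h => Subtype.ext (t2_inj (congrArg Subtype.val h))

theorem T3_bij [Finite G] (hC : CInv C) : Function.Bijective (T3 hC : XW3 p w C → XW3 p w C) :=
  Finite.injective_iff_bijective.1 fun _ _ h => Subtype.ext (t3_inj (congrArg Subtype.val h))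

theorem T1_iter (n : ℕ) (x : XW3 p w C) :
    (T1^[n] x).1 = (x.1.1, x.1.2.1 * x.1.1 ^ n, x.1.2.2) := by
  induction n generalizing x with
  | zero => simp
  | succ n ih =>
    rw [Function.iterate_succ_apply, ih]
    simp only [T1, t1, Prod.mk.injEq, true_and, and_true]
    rw [mul_assoc, ← pow_succ']

theorem T12 (x : XW3 p w C) : T1 (T2 (T1 x)) = T2 (T1 (T2 x)) := Subtype.ext (t_braid12 x.1)

theorem T23 (hC : CInv C) (x : XW3 p w C) : T2 (T3 hC (T2 x)) = T3 hC (T2 (T3 hC x)) :=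
  Subtype.ext (t_braid23 w x.1)

theorem T123_val (hC : CInv C) (n : ℕ) (x : XW3 p w C) :
    ((fun y : XW3 p w C => T1 (T2 (T3 hC y)))^[n] x).1 =
      (fun y => t1 (t2 (t3 w y)))^[n] x.1 := by
  induction n generalizing x with
  | zero => rfl
  | succ n ih =>
    rw [Function.iterate_succ_apply, ih]
    rfl

theorem T123_four (hC : CInv C) (x : XW3 p w C) :
    ((fun y : XW3 p w C => T1 (T2 (T3 hC y)))^[4] x).1 =
      (w⁻¹ * x.1.1 * w, w⁻¹ * x.1.2.1 * w, w⁻¹ * x.1.2.2 * w) := by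
  rw [T123_val]
  exact t123_four x.2.1.cm

theorem T123_r (hC : CInv C) (r : ℕ) (x : XW3 p w C) :
    ((fun y : XW3 p w C => T1 (T2 (T3 hC y)))^[4 * r] x).1 =
      ((w ^ r)⁻¹ * x.1.1 * w ^ r, (w ^ r)⁻¹ * x.1.2.1 * w ^ r, (w ^ r)⁻¹ * x.1.2.2 * w ^ r) := by
  induction r with
  | zero => simp
  | succ r ih =>
    have h1 : 4 * (r + 1) = 4 + 4 * r := by ring
    rw [h1, Function.iterate_add_apply, T123_four, ih]
    simp only [Prod.mk.injEq]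
    rw [pow_succ]
    refine ⟨?_, ?_, ?_⟩ <;> group

theorem T1_cj (hC : CInv C) (s : G) (hs : s * w = w * s) (x : XW3 p w C) :
    T1 (cj3 hC s hs x) = cj3 hC s hs (T1 x) := by
  apply Subtype.ext
  change (s * x.1.1 * s⁻¹, s * x.1.2.1 * s⁻¹ * (s * x.1.1 * s⁻¹), s * x.1.2.2 * s⁻¹) =
    (s * x.1.1 * s⁻¹, s * (x.1.2.1 * x.1.1) * s⁻¹, s * x.1.2.2 * s⁻¹)
  rw [Prod.mk.injEq, Prod.mk.injEq]
  exact ⟨rfl, by group, rfl⟩

theorem T2_cj (hC : CInv C) (s : G) (hs : s * w = w * s) (x : XW3 p w C) :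
    T2 (cj3 hC s hs x) = cj3 hC s hs (T2 x) := by
  apply Subtype.ext
  change (s * x.1.1 * s⁻¹ * (s * x.1.2.1 * s⁻¹)⁻¹, s * x.1.2.1 * s⁻¹, s * x.1.2.2 * s⁻¹) =
    (s * (x.1.1 * x.1.2.1⁻¹) * s⁻¹, s * x.1.2.1 * s⁻¹, s * x.1.2.2 * s⁻¹)
  rw [Prod.mk.injEq, Prod.mk.injEq]
  exact ⟨by group, rfl, rfl⟩

theorem T3_cj (hC : CInv C) (s : G) (hs : s * w = w * s) (x : XW3 p w C) :
    T3 hC (cj3 hC s hs x) = cj3 hC s hs (T3 hC x) := by
  have e : (s * x.1.1 * s⁻¹)⁻¹ * w = s * (x.1.1⁻¹ * w) * s⁻¹ := by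
    have h1 : s⁻¹ * w = w * s⁻¹ := by
      have h2 : s⁻¹ * (s * w) * s⁻¹ = s⁻¹ * (w * s) * s⁻¹ := by rw [hs]
      simpa [mul_assoc] using h2.symm
    calc (s * x.1.1 * s⁻¹)⁻¹ * w = s * x.1.1⁻¹ * (s⁻¹ * w) := by group
      _ = s * x.1.1⁻¹ * (w * s⁻¹) := by rw [h1]
      _ = s * (x.1.1⁻¹ * w) * s⁻¹ := by group
  apply Subtype.ext
  change (s * x.1.1 * s⁻¹, ((s * x.1.1 * s⁻¹)⁻¹ * w)⁻¹ * (s * x.1.2.1 * s⁻¹),
      ((s * x.1.1 * s⁻¹)⁻¹ * w)⁻¹ * (s * x.1.2.2 * s⁻¹) * ((s * x.1.1 * s⁻¹)⁻¹ * w)) =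
    (s * x.1.1 * s⁻¹, s * ((x.1.1⁻¹ * w)⁻¹ * x.1.2.1) * s⁻¹,
      s * ((x.1.1⁻¹ * w)⁻¹ * x.1.2.2 * (x.1.1⁻¹ * w)) * s⁻¹)
  rw [e, Prod.mk.injEq, Prod.mk.injEq]
  exact ⟨rfl, by group, by group⟩

/-- the action of `S` on the triples -/
@[reducible] def act3 (hC : CInv C) (hy : HyS p k S w) : MulAction ↥S (XW3 p w C) where
  smul s x := cj3 hC (s : G) (hy.cw s s.2) x
  one_smul x := by
    apply Subtype.ext
    change (((1 : ↥S) : G) * x.1.1 * ((1 : ↥S) : G)⁻¹,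
      ((1 : ↥S) : G) * x.1.2.1 * ((1 : ↥S) : G)⁻¹,
      ((1 : ↥S) : G) * x.1.2.2 * ((1 : ↥S) : G)⁻¹) = x.1
    simp
  mul_smul s t x := by
    apply Subtype.ext
    change (((s * t : ↥S) : G) * x.1.1 * ((s * t : ↥S) : G)⁻¹,
      ((s * t : ↥S) : G) * x.1.2.1 * ((s * t : ↥S) : G)⁻¹,
      ((s * t : ↥S) : G) * x.1.2.2 * ((s * t : ↥S) : G)⁻¹) =
      ((s : G) * ((t : G) * x.1.1 * (t : G)⁻¹) * (s : G)⁻¹,
        (s : G) * ((t : G) * x.1.2.1 * (t : G)⁻¹) * (s : G)⁻¹,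
        (s : G) * ((t : G) * x.1.2.2 * (t : G)⁻¹) * (s : G)⁻¹)
    simp [mul_assoc]

theorem hyC (hy : HyS p k S w) (x : XW3 p w C) :
    HyC p k (Sc S x.1.2.2) x.1.2.2 (cmt x.1.1 x.1.2.1) := by
  refine ⟨hy.no, hy.pS.to_le inf_le_left, fun y hy1 => (mem_Sc.1 hy1).2, fun y hy1 => ?_, hy.pk⟩
  obtain ⟨h1, h2⟩ := mem_Sc.1 hy1
  have h3 : cmt x.1.1 x.1.2.1 = w * x.1.2.2⁻¹ := eq_mul_inv_of_mul_eq x.2.1.cm
  rw [h3]
  exact ((show Commute y w from hy.cw y h1).mul_right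
    ((show Commute y x.1.2.2 from h2).inv_right)).eq

theorem pc (x : XW3 p w C) : Pc p x.1.2.2 (cmt x.1.1 x.1.2.1) x.1.1 x.1.2.1 :=
  ⟨rfl, x.2.1.ge⟩

/-- the group `Vg` of a triple -/
def VV (S : Subgroup G) (k : ℕ) (x : XW3 p w C) : Subgroup G :=
  Vg (Sc S x.1.2.2) k x.1.1 x.1.2.1

/-- the group `Qg` of a triple -/
def QQ (S : Subgroup G) (k : ℕ) (x : XW3 p w C) : Subgroup G :=
  Qg (Sc S x.1.2.2) k x.1.1 x.1.2.1

end

section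
variable {G : Type*} [Group G] [Finite G] {p k : ℕ} [Fact p.Prime] {S : Subgroup G} {w : G}
  {C : Set G}

/-- the triple `(a, v b, c)` -/
def vX (hy : HyS p k S w) (x : XW3 p w C) (v : ↥(VV S k x)) : XW3 p w C :=
  ⟨(x.1.1, v.1 * x.1.2.1, x.1.2.2), by
    have h := Pw_vb (hyC hy x) (pc x) v.2
    refine ⟨h.cm ▸ x.2.1.cm, h.ge⟩, x.2.2⟩

theorem VV_vX (hy : HyS p k S w) (x : XW3 p w C) (v : ↥(VV S k x)) : VV S k (vX hy x v) = VV S k x :=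
  Vg_vb (hyC hy x) (pc x) v.2

theorem QQ_vX (hy : HyS p k S w) (x : XW3 p w C) (v : ↥(VV S k x)) : QQ S k (vX hy x v) = QQ S k x :=
  Qg_vb (hyC hy x) (pc x) v.2

omit [Finite G] [Fact p.Prime] in
theorem Sc_cj (x : XW3 p w C) {s : G} (hs : s ∈ S) :
    ∀ y ∈ Sc S x.1.2.2, s * y * s⁻¹ ∈ Sc S (s * x.1.2.2 * s⁻¹) := by
  intro y hy1
  obtain ⟨h1, h2⟩ := mem_Sc.1 hy1
  refine mem_Sc.2 ⟨cj_mem hs y h1, ?_⟩
  calc s * y * s⁻¹ * (s * x.1.2.2 * s⁻¹) = s * (y * x.1.2.2) * s⁻¹ := by group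
    _ = s * (x.1.2.2 * y) * s⁻¹ := by rw [h2]
    _ = s * x.1.2.2 * s⁻¹ * (s * y * s⁻¹) := by group

theorem VV_cj (hC : CInv C) (hy : HyS p k S w) (x : XW3 p w C) {s : G} (hs : s ∈ S) {v : G}
    (h : v ∈ VV S k x) : s * v * s⁻¹ ∈ VV S k (cj3 hC s (hy.cw s hs) x) :=
  Vg_cj (hyC hy x) (pc x) (hyC hy (cj3 hC s (hy.cw s hs) x)) (pc (cj3 hC s (hy.cw s hs) x))
    (Sc_cj x hs) h

omit [Finite G] [Fact p.Prime] in
theorem cj3_inv (hC : CInv C) (hy : HyS p k S w) (x : XW3 p w C) {s : G} (hs : s ∈ S) :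
    cj3 hC s⁻¹ (hy.cw _ (S.inv_mem hs)) (cj3 hC s (hy.cw s hs) x) = x := by
  apply Subtype.ext
  have e : ∀ y : G, s⁻¹ * (s * y * s⁻¹) * s⁻¹⁻¹ = y := fun y => by group
  change (s⁻¹ * (s * x.1.1 * s⁻¹) * s⁻¹⁻¹, s⁻¹ * (s * x.1.2.1 * s⁻¹) * s⁻¹⁻¹,
    s⁻¹ * (s * x.1.2.2 * s⁻¹) * s⁻¹⁻¹) = x.1
  rw [e, e, e]

theorem VV_cj' (hC : CInv C) (hy : HyS p k S w) (x : XW3 p w C) {s : G} (hs : s ∈ S) {v : G}
    (h : v ∈ VV S k (cj3 hC s (hy.cw s hs) x)) : s⁻¹ * v * s ∈ VV S k x := by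
  have h2 := VV_cj hC hy _ (S.inv_mem hs) h
  rw [cj3_inv hC hy x hs, inv_inv] at h2
  exact h2

theorem T1k (hy : HyS p k S w) (x : XW3 p w C) (v : ↥(VV S k x)) :
    T1^[k] (vX hy x v) =
      vX hy x (⟨cq k x.1.1 x.1.2.1, cq_mem_Vg (hyC hy x) (pc x)⟩ * v) := by
  apply Subtype.ext
  rw [T1_iter]
  change (x.1.1, v.1 * x.1.2.1 * x.1.1 ^ k, x.1.2.2) =
    (x.1.1, cq k x.1.1 x.1.2.1 * v.1 * x.1.2.1, x.1.2.2)
  have h1 := cq_mem_Vg (hyC hy x) (pc x)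
  have h2 := (Vg_comm (hyC hy x) (pc x) v.2 h1).eq
  have h3 : x.1.2.1 * x.1.1 ^ k = cq k x.1.1 x.1.2.1 * x.1.2.1 := by
    unfold cq
    rw [conj_pow, inv_mul_cancel_right]
  rw [mul_assoc, h3, ← mul_assoc, h2]

end

end Pool.Agent.Lib.P0c8ca5.K3
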