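import Mathlib
import Pool.Agent.Lib.P0c8ca5Id.K3LT

/-!
# P0c8ca5Id.K3Tr: the transfer of `T1 ^ k` on the triples is trivial
-/

namespace Pool.Agent.Lib.P0c8ca5.K3

open MulAction Ab Fo

section
variable {G : Type*} [Group G] [Finite G] {p k : ℕ} [Fact p.Prime] {S : Subgroup G} {w : G}
  {C : Set G}

theorem vX_smul (hC : CInv C) (hy : HyS p k S w) (x : XW3 p w C) (s : ↥S)
    (v : ↥(VV S k x)) (v' : ↥(VV S k (cj3 hC (s : G) (hy.cw s s.2) (vX hy x v)))) :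
    ∃ v'' : ↥(VV S k x), vX hy (cj3 hC (s : G) (hy.cw s s.2) (vX hy x v)) v' =
      cj3 hC (s : G) (hy.cw s s.2) (vX hy x v'') := by
  have h1 := VV_cj' hC hy (vX hy x v) s.2 v'.2
  rw [VV_vX hy x v] at h1
  refine ⟨⟨(s : G)⁻¹ * v'.1 * s * v.1, Subgroup.mul_mem _ h1 v.2⟩, ?_⟩
  apply Subtype.ext
  change ((s : G) * x.1.1 * (s : G)⁻¹, v'.1 * ((s : G) * (v.1 * x.1.2.1) * (s : G)⁻¹),
      (s : G) * x.1.2.2 * (s : G)⁻¹) =
    ((s : G) * x.1.1 * (s : G)⁻¹,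
      (s : G) * ((s : G)⁻¹ * v'.1 * s * v.1 * x.1.2.1) * (s : G)⁻¹,
      (s : G) * x.1.2.2 * (s : G)⁻¹)
  rw [Prod.mk.injEq, Prod.mk.injEq]
  exact ⟨rfl, by group, rfl⟩

theorem vX_smul' (hC : CInv C) (hy : HyS p k S w) (x : XW3 p w C) (s : ↥S)
    (v v'' : ↥(VV S k x)) :
    ∃ v' : ↥(VV S k (cj3 hC (s : G) (hy.cw s s.2) (vX hy x v))),
      vX hy (cj3 hC (s : G) (hy.cw s s.2) (vX hy x v)) v' =
      cj3 hC (s : G) (hy.cw s s.2) (vX hy x v'') := by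
  have h1 : v''.1 * v.1⁻¹ ∈ VV S k (vX hy x v) := by
    rw [VV_vX hy x v]
    exact Subgroup.mul_mem _ v''.2 (Subgroup.inv_mem _ v.2)
  have h2 := VV_cj hC hy (vX hy x v) s.2 h1
  refine ⟨⟨(s : G) * (v''.1 * v.1⁻¹) * (s : G)⁻¹, h2⟩, ?_⟩
  apply Subtype.ext
  change ((s : G) * x.1.1 * (s : G)⁻¹, (s : G) * (v''.1 * v.1⁻¹) * (s : G)⁻¹ *
      ((s : G) * (v.1 * x.1.2.1) * (s : G)⁻¹), (s : G) * x.1.2.2 * (s : G)⁻¹) =
    ((s : G) * x.1.1 * (s : G)⁻¹, (s : G) * (v''.1 * x.1.2.1) * (s : G)⁻¹,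
      (s : G) * x.1.2.2 * (s : G)⁻¹)
  rw [Prod.mk.injEq, Prod.mk.injEq]
  exact ⟨rfl, by group, rfl⟩

theorem trL_T (hC : CInv C) (hy : HyS p k S w) {A : Type*} [CommGroup A] (lam : ↥S →* A)
    {κ : XW3 p w C → A} (hκ : ∀ (s : ↥S) (x : XW3 p w C),
      κ (cj3 hC (s : G) (hy.cw s s.2) x) = lam s * κ x) :
    @trL (↥S) (XW3 p w C) A _ (act3 hC hy) _ κ (T1^[k] : XW3 p w C → XW3 p w C) = 1 := by
  letI : MulAction ↥S (XW3 p w C) := act3 hC hy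
  have hκ' : ∀ (s : ↥S) (x : XW3 p w C), κ (s • x) = lam s * κ x := hκ
  have hs1 : ∀ (s : ↥S) (x : XW3 p w C), T1 (s • x) = s • T1 x := fun s x => T1_cj hC _ _ x
  have hT : ∀ (s : ↥S) (x : XW3 p w C), T1^[k] (s • x) = s • T1^[k] x := iter_smul hs1 k
  have : Finite (orbitRel.Quotient ↥S (XW3 p w C)) := Quotient.finite _
  let B : orbitRel.Quotient ↥S (XW3 p w C) → Set (orbitRel.Quotient ↥S (XW3 p w C)) := fun q =>
    Set.range (fun v : ↥(VV S k q.out) =>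
      (Quotient.mk (orbitRel ↥S (XW3 p w C)) (vX hy q.out v)))
  refine prod_blocks (fun q => trF κ (T1^[k]) q.out) B ?_ ?_ ?_
  · intro q
    refine ⟨1, ?_⟩
    have h1 : vX hy q.out 1 = q.out := by
      apply Subtype.ext
      change (q.out.1.1, 1 * q.out.1.2.1, q.out.1.2.2) = q.out.1
      rw [one_mul]
    change Quotient.mk (orbitRel ↥S (XW3 p w C)) (vX hy q.out 1) = q
    rw [h1]
    exact Quotient.out_eq q
  · rintro q q' ⟨v, hv⟩
    have hv' : Quotient.mk (orbitRel ↥S (XW3 p w C)) (vX hy q.out v) = q' := hv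
    -- a representative
    obtain ⟨s, hs⟩ : ∃ s : ↥S, s • vX hy q.out v = q'.out := by
      have h1 : Quotient.mk (orbitRel ↥S (XW3 p w C)) q'.out =
          Quotient.mk (orbitRel ↥S (XW3 p w C)) (vX hy q.out v) := by
        rw [hv']
        exact Quotient.out_eq q'
      obtain ⟨s, hs⟩ := Quotient.exact h1
      exact ⟨s, hs⟩
    have hB' : B q' = Set.range (fun v' : ↥(VV S k q'.out) =>
      (Quotient.mk (orbitRel ↥S (XW3 p w C)) (vX hy q'.out v'))) := rfl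
    rw [hB', ← hs]
    ext t
    constructor
    · rintro ⟨v', rfl⟩
      obtain ⟨v'', h1⟩ := vX_smul hC hy q.out s v v'
      refine ⟨v'', ?_⟩
      change Quotient.mk (orbitRel ↥S (XW3 p w C)) (vX hy q.out v'') =
        Quotient.mk (orbitRel ↥S (XW3 p w C)) (vX hy (s • vX hy q.out v) v')
      have h2 : vX hy (s • vX hy q.out v) v' = s • vX hy q.out v'' := h1
      rw [h2, mk_smul]
    · rintro ⟨v'', rfl⟩
      obtain ⟨v', h1⟩ := vX_smul' hC hy q.out s v v''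
      refine ⟨v', ?_⟩
      change Quotient.mk (orbitRel ↥S (XW3 p w C)) (vX hy (s • vX hy q.out v) v') =
        Quotient.mk (orbitRel ↥S (XW3 p w C)) (vX hy q.out v'')
      have h2 : vX hy (s • vX hy q.out v) v' = s • vX hy q.out v'' := h1
      rw [h2, mk_smul]
  · intro q
    set x := q.out with hx
    have hyx := hyC hy x
    have hpx := pc x
    letI : CommGroup ↥(VV S k x) :=
      { (inferInstance : Group ↥(VV S k x)) with
        mul_comm := fun u v => Subtype.ext (Vg_comm hyx hpx u.2 v.2).eq }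
    letI : CommGroup ↥(QQ S k x) :=
      { (inferInstance : Group ↥(QQ S k x)) with
        mul_comm := fun u v => Subtype.ext (Qg_comm hyx hpx u.2 v.2).eq }
    let f : ↥(QQ S k x) →* ↥(VV S k x) :=
      { toFun := fun y => ⟨y.1 * x.1.2.1 * y.1⁻¹ * x.1.2.1⁻¹, cmt_mem hyx hpx y.2⟩
        map_one' := by
          apply Subtype.ext
          change (1 : G) * x.1.2.1 * 1⁻¹ * x.1.2.1⁻¹ = 1
          group
        map_mul' := by
          intro y z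
          apply Subtype.ext
          change y.1 * z.1 * x.1.2.1 * (y.1 * z.1)⁻¹ * x.1.2.1⁻¹ =
            y.1 * x.1.2.1 * y.1⁻¹ * x.1.2.1⁻¹ * (z.1 * x.1.2.1 * z.1⁻¹ * x.1.2.1⁻¹)
          have h1 := cmt_mem hyx hpx z.2
          have h2 := (Vg_Qg hyx hpx h1 y.2).eq
          have h3 := cmt_mem hyx hpx y.2
          have h4 := (Vg_comm hyx hpx h3 h1).eq
          calc y.1 * z.1 * x.1.2.1 * (y.1 * z.1)⁻¹ * x.1.2.1⁻¹
              = y.1 * (z.1 * x.1.2.1 * z.1⁻¹ * x.1.2.1⁻¹) * x.1.2.1 * y.1⁻¹ * x.1.2.1⁻¹ := by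
                group
            _ = (z.1 * x.1.2.1 * z.1⁻¹ * x.1.2.1⁻¹) * y.1 * x.1.2.1 * y.1⁻¹ * x.1.2.1⁻¹ := by
                rw [h2]
            _ = (z.1 * x.1.2.1 * z.1⁻¹ * x.1.2.1⁻¹) * (y.1 * x.1.2.1 * y.1⁻¹ * x.1.2.1⁻¹) := by
                group
            _ = y.1 * x.1.2.1 * y.1⁻¹ * x.1.2.1⁻¹ * (z.1 * x.1.2.1 * z.1⁻¹ * x.1.2.1⁻¹) := by
                rw [h4] }
    have hfv : ∀ y : ↥(QQ S k x), (f y).1 = y.1 * x.1.2.1 * y.1⁻¹ * x.1.2.1⁻¹ :=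
      fun _ => rfl
    have hQs : ∀ y ∈ QQ S k x, (y ∈ S ∧ y * x.1.2.2 = x.1.2.2 * y) ∧ y * x.1.1 = x.1.1 * y :=
      fun y hy1 => ⟨mem_Sc.1 (Qg_sub hyx hpx hy1).1, (Qg_sub hyx hpx hy1).2⟩
    let ι : ↥(QQ S k x) →* ↥S := Subgroup.inclusion (fun y hy1 => (hQs y hy1).1.1)
    have hι : ∀ y : ↥(QQ S k x), ((ι y : ↥S) : G) = y.1 := fun _ => rfl
    have hcq : cq k x.1.1 x.1.2.1 ∈ VV S k x := cq_mem_Vg hyx hpx
    have hsv : ∀ (s : ↥S) (x : XW3 p w C),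
      (s • x).1 = ((s : G) * x.1.1 * (s : G)⁻¹, (s : G) * x.1.2.1 * (s : G)⁻¹,
        (s : G) * x.1.2.2 * (s : G)⁻¹) := fun _ _ => rfl
    refine block_one (lam := lam) hκ' hT (vX hy x) ⟨cq k x.1.1 x.1.2.1, hcq⟩ f ?_ ι ?_ ?_ ?_ ?_
    · rw [injective_iff_map_eq_one]
      intro y hy1
      have h1 : y.1 * x.1.2.1 * y.1⁻¹ * x.1.2.1⁻¹ = 1 := by
        rw [← hfv, hy1]
        rfl
      have h2 := Qg_sub hyx hpx y.2
      have h3 : y.1 * x.1.2.1 = x.1.2.1 * y.1 := by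
        have h4 : y.1 * x.1.2.1 = (y.1 * x.1.2.1 * y.1⁻¹ * x.1.2.1⁻¹) * (x.1.2.1 * y.1) := by
          group
        rw [h4, h1, one_mul]
      exact Subtype.ext (fix_one hyx hpx h2.1 h2.2 h3)
    · intro y v
      apply Subtype.ext
      rw [hsv, hι]
      change (x.1.1, (f y).1 * v.1 * x.1.2.1, x.1.2.2) =
        (y.1 * x.1.1 * y.1⁻¹, y.1 * (v.1 * x.1.2.1) * y.1⁻¹, y.1 * x.1.2.2 * y.1⁻¹)
      have h2 := hQs y.1 y.2
      have h3 := (Vg_Qg hyx hpx v.2 y.2).eq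
      have h4 := (Vg_comm hyx hpx (f y).2 v.2).eq
      rw [Prod.mk.injEq, Prod.mk.injEq]
      refine ⟨?_, ?_, ?_⟩
      · rw [h2.2, mul_inv_cancel_right]
      · calc (f y).1 * v.1 * x.1.2.1 = v.1 * (f y).1 * x.1.2.1 := by rw [h4]
          _ = v.1 * (y.1 * x.1.2.1 * y.1⁻¹ * x.1.2.1⁻¹) * x.1.2.1 := by rw [hfv]
          _ = (v.1 * y.1) * x.1.2.1 * y.1⁻¹ := by group
          _ = (y.1 * v.1) * x.1.2.1 * y.1⁻¹ := by rw [h3]
          _ = y.1 * (v.1 * x.1.2.1) * y.1⁻¹ := by group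
      · rw [h2.1.2, mul_inv_cancel_right]
    · intro v
      exact T1k hy x v
    · intro v v' s h
      have h1 := congrArg Subtype.val h
      rw [hsv] at h1
      have h2 : x.1.1 = (s : G) * x.1.1 * (s : G)⁻¹ := congrArg Prod.fst h1
      have h3 : v.1 * x.1.2.1 = (s : G) * (v'.1 * x.1.2.1) * (s : G)⁻¹ :=
        congrArg (fun t => t.2.1) h1
      have h3c : x.1.2.2 = (s : G) * x.1.2.2 * (s : G)⁻¹ := congrArg (fun t => t.2.2) h1
      have hsa : (s : G) * x.1.1 = x.1.1 * (s : G) := by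
        conv_rhs => rw [h2]
        group
      have hsc : (s : G) * x.1.2.2 = x.1.2.2 * (s : G) := by
        conv_rhs => rw [h3c]
        group
      have hsS : (s : G) ∈ Sc S x.1.2.2 := mem_Sc.2 ⟨s.2, hsc⟩
      -- `v` as an element of the group of the pair `(a, v' b)`
      have hP' := Pw_vb hyx hpx v'.2
      have hVV : Vg (Sc S x.1.2.2) k x.1.1 (v'.1 * x.1.2.1) = Vg (Sc S x.1.2.2) k x.1.1 x.1.2.1 :=
        Vg_vb hyx hpx v'.2
      have h4 : (s : G) * (v'.1 * x.1.2.1) * (s : G)⁻¹ * (v'.1 * x.1.2.1)⁻¹ ∈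
          Vg (Sc S x.1.2.2) k x.1.1 (v'.1 * x.1.2.1) := by
        rw [hVV, ← h3]
        have h5 : v.1 * x.1.2.1 * (v'.1 * x.1.2.1)⁻¹ = v.1 * v'.1⁻¹ := by group
        rw [h5]
        exact Subgroup.mul_mem _ v.2 (Subgroup.inv_mem _ v'.2)
      have h5 := mem_Qg_of hyx hP' hsS hsa h4
      rw [Qg_vb hyx hpx v'.2] at h5
      refine ⟨⟨s, h5⟩, ?_⟩
      apply Subtype.ext
      change v.1 = (f ⟨s, h5⟩).1 * v'.1
      rw [hfv]
      change v.1 = (s : G) * x.1.2.1 * (s : G)⁻¹ * x.1.2.1⁻¹ * v'.1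
      have h6 := (Vg_Qg hyx hpx v'.2 h5).eq
      have h7 : (s : G) * x.1.2.1 * (s : G)⁻¹ * x.1.2.1⁻¹ ∈ Vg (Sc S x.1.2.2) k x.1.1 x.1.2.1 :=
        cmt_mem hyx hpx h5
      have h8 := (Vg_comm hyx hpx h7 v'.2).eq
      rw [h8]
      have h9 : v.1 = (s : G) * (v'.1 * x.1.2.1) * (s : G)⁻¹ * x.1.2.1⁻¹ := by
        rw [← h3, mul_inv_cancel_right]
      rw [h9]
      calc (s : G) * (v'.1 * x.1.2.1) * (s : G)⁻¹ * x.1.2.1⁻¹
          = ((s : G) * v'.1) * x.1.2.1 * (s : G)⁻¹ * x.1.2.1⁻¹ := by group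
        _ = (v'.1 * (s : G)) * x.1.2.1 * (s : G)⁻¹ * x.1.2.1⁻¹ := by
            have h10 : ((s : G)) * v'.1 = v'.1 * (s : G) := h6
            rw [h10]
        _ = v'.1 * ((s : G) * x.1.2.1 * (s : G)⁻¹ * x.1.2.1⁻¹) := by group
    · apply Subtype.ext
      change (cq k x.1.1 x.1.2.1) ^ (Nat.card (Vg (Sc S x.1.2.2) k x.1.1 x.1.2.1) /
        Nat.card (Qg (Sc S x.1.2.2) k x.1.1 x.1.2.1)) = 1
      exact cq_pow hyx hpx

end

end Pool.Agent.Lib.P0c8ca5.K3
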