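import Mathlib
import Pool.Agent.Lib.P0c8ca5Bw.DC
import Pool.Agent.Lib.P0c8ca5Bw.TSl
import Pool.Agent.Lib.P0c8ca5V.ClsF
import Pool.Agent.Lib.P0c8ca5Ab.Cls

/-! From the numbers of the triples `(a, b, c)` with `[a, b] c = w` to `eS`. -/

namespace Pool.Agent.Lib.P0c8ca5.Id

open MonoidAlgebra Bw

section
variable {p : ℕ} {G : Type*} [Group G]

open Classical in
/-- the sum over the triples with `[a, b] c = w` generating a group that contains `O^p(G)` -/
noncomputable def nW (p : ℕ) (m : G → ℤ) (w : G) : ℤ :=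
  ∑ᶠ t : G × G × G, if cmt t.1 t.2.1 * t.2.2 = w ∧ Opr p (⊤ : Subgroup G) ≤ gen t
    then m t.2.2 else 0

/-- the divisibility for `w` -/
def Kl (p : ℕ) (w : G) : Prop := ∀ m : G → ℤ, IsWt p (⊤ : Subgroup G) m →
  (p : ℤ) * (ordProj[p] (Nat.card (Subgroup.centralizer ({w} : Set G))) : ℕ) ∣ nW p m w

theorem nW_conj [Fact p.Prime] [Finite G] {m : G → ℤ} (hm : IsWt p (⊤ : Subgroup G) m)
    (g w : G) : nW p m (g * w * g⁻¹) = nW p m w := by
  classical
  unfold nW
  rw [← finsum_comp_equiv (DAAux.cT g)]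
  refine finsum_congr (fun t => ?_)
  have e : cmt (DAAux.cT g t).1 (DAAux.cT g t).2.1 * (DAAux.cT g t).2.2
      = g * (cmt t.1 t.2.1 * t.2.2) * g⁻¹ := by
    simp [DAAux.cT, cmt, mul_assoc]
  have e2 : m (DAAux.cT g t).2.2 = m t.2.2 := hm.conj g (Subgroup.mem_top g) _
  have e3 : g * (cmt t.1 t.2.1 * t.2.2) * g⁻¹ = g * w * g⁻¹ ↔ cmt t.1 t.2.1 * t.2.2 = w := by
    constructor
    · intro h
      exact mul_left_cancel (mul_right_cancel h)
    · intro h
      rw [h]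
  have e4 : Opr p (⊤ : Subgroup G) ≤ cg g (gen t) ↔ Opr p (⊤ : Subgroup G) ≤ gen t := by
    have h1 := DCAux.cg_Opr_top (p := p) g
    constructor
    · intro h
      rw [← h1] at h
      exact DAAux.cg_le_cg_iff.1 h
    · intro h
      rw [← h1]
      exact DAAux.cg_le_cg_iff.2 h
  rw [e, e2, DAAux.gen_cT]
  exact if_congr (and_congr e3 e4) rfl rfl

theorem bS_eq [Finite G] (S : Set G) (m : G → ℤ) :
    bS p S (⊤ : Subgroup G) m
      = ∑ᶠ w : G, @ite ℤ (w ∈ S) (Classical.propDecidable _) (nW p m w) 0 := by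
  classical
  have : Fintype G := Fintype.ofFinite G
  unfold bS nW
  rw [finsum_eq_sum_of_fintype, finsum_eq_sum_of_fintype]
  have h1 : ∀ w : G, @ite ℤ (w ∈ S) (Classical.propDecidable _)
      (∑ᶠ t : G × G × G, if cmt t.1 t.2.1 * t.2.2 = w ∧ Opr p (⊤ : Subgroup G) ≤ gen t
        then m t.2.2 else 0) 0
      = ∑ t : G × G × G, if w ∈ S ∧ cmt t.1 t.2.1 * t.2.2 = w ∧ Opr p (⊤ : Subgroup G) ≤ gen t
        then m t.2.2 else 0 := by
    intro w
    rw [finsum_eq_sum_of_fintype]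
    by_cases h : w ∈ S
    · rw [if_pos h]
      refine Finset.sum_congr rfl fun t _ => ?_
      exact if_congr (by simp only [h, true_and]) rfl rfl
    · rw [if_neg h]
      symm
      exact Finset.sum_eq_zero fun t _ => if_neg fun h1 => h h1.1
  rw [Finset.sum_congr rfl fun w _ => h1 w, Finset.sum_comm]
  refine Finset.sum_congr rfl fun t _ => ?_
  rw [Finset.sum_eq_single (cmt t.1 t.2.1 * t.2.2)
    (fun w _ hw => if_neg fun h => hw h.2.1.symm) (fun h => absurd (Finset.mem_univ _) h)]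
  unfold dS
  by_cases hS : cmt t.1 t.2.1 * t.2.2 ∈ S
  · by_cases ho : Opr p (⊤ : Subgroup G) ≤ gen t
    · rw [if_pos ⟨le_top, ho⟩, if_pos hS, if_pos ⟨hS, rfl, ho⟩]
    · rw [if_neg (fun h => ho h.2), if_neg (fun h => ho h.2.2)]
  · rw [if_neg hS, ite_self, if_neg (fun h => hS h.1)]

theorem bS_dvd [Fact p.Prime] [Finite G] {S : Set G} (hS : CInv S) {m : G → ℤ}
    (hm : IsWt p (⊤ : Subgroup G) m) (h : ∀ w ∈ S, Kl p w) :
    (p : ℤ) * (ordProj[p] (Nat.card G) : ℕ) ∣ bS p S (⊤ : Subgroup G) m := by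
  classical
  rw [bS_eq]
  refine Ab.cls_sum ?_ ?_
  · intro g w
    beta_reduce
    rw [nW_conj hm]
    exact if_congr (hS g w) rfl rfl
  · intro w
    split_ifs with hw
    · exact h w hw m hm
    · exact dvd_zero _

end

/-- from the chain condition on subgroups to the sum over all triples -/
theorem eS_of_Kl {p : ℕ} [Fact p.Prime] {A : Type*} [Group A] [Finite A] {S : Set A}
    (hS : CInv S) {m : A → ℤ} (hm : IsWt p ⊤ m)
    (h : ∀ U : Subgroup A, NoP p U → ∀ w : ↥U, (w : A) ∈ S → Kl p w) :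
    (p : ℤ) * (Nat.card A : ℤ) ∣ eS p S m := by
  refine eS_of_bS hS hm fun U hU => ?_
  rw [← bS_dn]
  exact bS_dvd (cInv_dn hS U) (IsWt_dn U hm) fun w hw => h U hU w hw

end Pool.Agent.Lib.P0c8ca5.Id
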