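import Mathlib
import Pool.Agent.Lib.P0c8ca5Id.Cnt
import Pool.Agent.Lib.P0c8ca5Id.K3Defs

/-! From the numbers of the triples with `c` in a set to the sums with weights. -/

namespace Pool.Agent.Lib.P0c8ca5.Id

open MonoidAlgebra Bw

theorem Kl_of_card {p : ℕ} {G : Type*} [Group G] [Finite G] {w : G}
    (h : ∀ C : Set G, K3.CInv C →
      p * ordProj[p] (Nat.card (Subgroup.centralizer ({w} : Set G))) ∣
      Nat.card {t : G × G × G // cmt t.1 t.2.1 * t.2.2 = w ∧ t.2.2 ∈ C ∧
        ∀ g : G, Preg p g → g ∈ Subgroup.closure ({t.1, t.2.1, t.2.2} : Set G)}) : Kl p w := by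
  classical
  intro m hm
  have : Fintype G := Fintype.ofFinite G
  unfold nW
  rw [finsum_eq_sum_of_fintype, ← Finset.sum_filter,
    ← Finset.sum_fiberwise_of_maps_to (g := fun t : G × G × G => m t.2.2)
      (t := Finset.univ.image m) (fun t _ => Finset.mem_image_of_mem m (Finset.mem_univ _))]
  refine Finset.dvd_sum fun v _ => ?_
  have hC : K3.CInv {c : G | m c = v} := by
    intro g c hc
    change m (g * c * g⁻¹) = v
    rw [hm.conj g (Subgroup.mem_top g)]
    exact hc
  have h1 := h _ hC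
  have h2 : Nat.card {t : G × G × G // cmt t.1 t.2.1 * t.2.2 = w ∧ t.2.2 ∈ {c : G | m c = v} ∧
        ∀ g : G, Preg p g → g ∈ Subgroup.closure ({t.1, t.2.1, t.2.2} : Set G)}
      = ((Finset.univ.filter fun t : G × G × G => cmt t.1 t.2.1 * t.2.2 = w ∧
        Opr p (⊤ : Subgroup G) ≤ gen t).filter fun t => m t.2.2 = v).card := by
    rw [Nat.card_eq_fintype_card, Fintype.card_subtype]
    congr 1
    ext t
    simp only [Finset.mem_filter, Finset.mem_univ, true_and, Set.mem_setOf_eq]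
    rw [ClsFAux.opr_le_iff]
    constructor
    · rintro ⟨h1, h2, h3⟩
      exact ⟨⟨h1, h3⟩, h2⟩
    · rintro ⟨⟨h1, h3⟩, h2⟩
      exact ⟨h1, h2, h3⟩
  rw [h2] at h1
  have h3 : ∑ t ∈ (Finset.univ.filter fun t : G × G × G => cmt t.1 t.2.1 * t.2.2 = w ∧
        Opr p (⊤ : Subgroup G) ≤ gen t).filter (fun t => m t.2.2 = v), m t.2.2
      = v * (((Finset.univ.filter fun t : G × G × G => cmt t.1 t.2.1 * t.2.2 = w ∧
        Opr p (⊤ : Subgroup G) ≤ gen t).filter fun t => m t.2.2 = v).card : ℤ) := by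
    rw [Finset.sum_congr rfl (fun t ht => (Finset.mem_filter.1 ht).2), Finset.sum_const,
      nsmul_eq_mul, mul_comm]
  rw [h3]
  refine Dvd.dvd.mul_left ?_ _
  exact_mod_cast h1

end Pool.Agent.Lib.P0c8ca5.Id
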