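import Mathlib
import Pool.Agent.Lib.P0c8ca5Id.KlC
import Pool.Agent.Lib.P0c8ca5Id.Fun
import Pool.Agent.Lib.P0c8ca5Id.Gd
import Pool.Agent.Lib.P0c8ca5Id.K3Key

/-! The alternating sum of a block vanishes modulo `p` if the center of its defect group is not
contained in the commutator subgroup. -/

namespace Pool.Agent.Lib.P0c8ca5.Id

open MonoidAlgebra Bw

set_option linter.unusedSectionVars false

section
variable {p : ℕ} {A : Type*} [Group A]

/-- the p-part of `w` is not in the commutator subgroup of the centralizer of `w` -/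
def Ge (p : ℕ) (w : A) : Prop :=
  w * (pr p w)⁻¹ ∉ ⁅Subgroup.centralizer ({w} : Set A), Subgroup.centralizer ({w} : Set A)⁆

theorem mem_cent1 {w x : A} : x ∈ Subgroup.centralizer ({w} : Set A) ↔ x * w = w * x := by
  rw [Subgroup.mem_centralizer_singleton_iff]

variable [Fact p.Prime] [Finite A]

theorem pr_mul_parts {u d : A} (hud : Commute u d) (hu : Pel p u) (hd : Preg p d) :
    pr p (u * d) = d := by
  obtain ⟨n, hn⟩ := hu
  rw [pr_mul hud, pr_of_pow hn, one_mul, pr_eq_self hd]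

theorem Ge_of {u d : A} (hud : Commute u d) (hu : Pel p u) (hd : Preg p d)
    (h : u ∉ ⁅Subgroup.centralizer ({u * d} : Set A), Subgroup.centralizer ({u * d} : Set A)⁆) :
    Ge p (u * d) := by
  unfold Ge
  rw [pr_mul_parts hud hu hd, mul_inv_cancel_right]
  exact h

theorem Ge_conj {w : A} (g : A) (h : Ge p w) : Ge p (g * w * g⁻¹) := by
  unfold Ge at h ⊢
  rw [pr_conj]
  intro h1
  apply h
  have h2 : cg g⁻¹ (Subgroup.centralizer ({g * w * g⁻¹} : Set A))
      ≤ Subgroup.centralizer ({w} : Set A) := by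
    intro x hx
    rw [mem_cg, mem_cent1, inv_inv] at hx
    rw [mem_cent1]
    calc x * w = g⁻¹ * (g⁻¹⁻¹ * x * g⁻¹ * (g * w * g⁻¹)) * g := by group
      _ = g⁻¹ * (g * x * g⁻¹ * (g * w * g⁻¹)) * g := by rw [inv_inv]
      _ = g⁻¹ * (g * w * g⁻¹ * (g * x * g⁻¹)) * g := by rw [hx]
      _ = w * x := by group
  have h3 : g⁻¹ * (g * w * g⁻¹ * (g * pr p w * g⁻¹)⁻¹) * g⁻¹⁻¹ ∈
      cg g⁻¹ ⁅Subgroup.centralizer ({g * w * g⁻¹} : Set A),
        Subgroup.centralizer ({g * w * g⁻¹} : Set A)⁆ :=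
    (ChOrbAux.mem_cg' g⁻¹ _ _).2 h1
  have h4 : cg g⁻¹ ⁅Subgroup.centralizer ({g * w * g⁻¹} : Set A),
        Subgroup.centralizer ({g * w * g⁻¹} : Set A)⁆
      ≤ ⁅Subgroup.centralizer ({w} : Set A), Subgroup.centralizer ({w} : Set A)⁆ := by
    unfold cg at h2 ⊢
    rw [Subgroup.map_commutator]
    exact Subgroup.commutator_mono h2 h2
  have e : g⁻¹ * (g * w * g⁻¹ * (g * pr p w * g⁻¹)⁻¹) * g⁻¹⁻¹ = w * (pr p w)⁻¹ := by group
  rw [← e]
  exact h4 h3

theorem Ge_sub {U : Subgroup A} {w : ↥U} (h : Ge p (w : A)) : Ge p w := by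
  unfold Ge at h ⊢
  intro h1
  apply h
  have h2 : ((w * (pr p w)⁻¹ : ↥U) : A) ∈
      (⁅Subgroup.centralizer ({w} : Set ↥U), Subgroup.centralizer ({w} : Set ↥U)⁆).map
        U.subtype := Subgroup.mem_map.2 ⟨_, h1, rfl⟩
  rw [Subgroup.map_commutator] at h2
  have h3 : (Subgroup.centralizer ({w} : Set ↥U)).map U.subtype
      ≤ Subgroup.centralizer ({(w : A)} : Set A) := by
    rintro _ ⟨x, hx, rfl⟩
    rw [mem_cent1]
    have h4 := mem_cent1.1 hx
    exact congrArg Subtype.val h4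
  have h5 := Subgroup.commutator_mono h3 h3 h2
  have e : ((w * (pr p w)⁻¹ : ↥U) : A) = (w : A) * (pr p (w : A))⁻¹ := by
    rw [QuoAux.pr_coe' w]
    rfl
  rwa [e] at h5

theorem Kl_of_Ge (hO : NoP p (⊤ : Subgroup A)) {w : A} (h : Ge p w) : Kl p w := by
  refine Kl_of_card fun C hC => ?_
  have h1 : Commute (w * (pr p w)⁻¹) (pr p w) := by
    have h2 : Commute w (pr p w) := by
      unfold pr
      exact (Commute.refl w).pow_right _
    exact h2.mul_left (Commute.refl (pr p w)).inv_left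
  have h3 : w * (pr p w)⁻¹ * pr p w = w := by group
  have h4 : Pel p (w * (pr p w)⁻¹) := by
    rw [pel_iff_pr]
    have h5 : pr p w = pr p (w * (pr p w)⁻¹) * pr p (pr p w) := by
      rw [← pr_mul h1, h3]
    rw [pr_pr] at h5
    exact (mul_eq_right.1 h5.symm)
  have h6 := K3.focal3 (p := p) hO hC h1 h4 (preg_pr w) (by rw [h3]; exact h)
  rw [h3] at h6
  exact h6

end

section
variable {p : ℕ} {k : Type*} [Field k] {A : Type*} [Group A] [Fintype A]
variable [Fact p.Prime] [CharP k p] [IsAlgClosed k]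

theorem cInv_isConj (w : A) : CInv {x : A | IsConj w x} := by
  intro g x
  change IsConj w (g * x * g⁻¹) ↔ IsConj w x
  have h : IsConj x (g * x * g⁻¹) := isConj_iff.2 ⟨g, rfl⟩
  exact ⟨fun h1 => h1.trans h.symm, fun h1 => h1.trans h⟩

/-- the alternating sum of a block `b` whose defect group has a central element outside the
commutator subgroup -/
theorem TE_center {b : MonoidAlgebra k A} (hb : IsBlock (⊤ : Subgroup A) b) {D : Subgroup A}
    (hD : IsDefectGroup p (⊤ : Subgroup A) b D) {u : A} (hu : u ∈ D)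
    (huc : ∀ x ∈ D, u * x = x * u) (hu' : u ∉ ⁅D, D⁆) : TE p b = 0 := by
  obtain ⟨d, hud, hd, hDd, hmax, hnn⟩ := exists_dd hb hD hu huc
  have hn := not_mem_comm hD.isPGroup hu huc hu' hd hud hDd hmax
  have hup : Pel p u := by
    obtain ⟨n, hn⟩ := hD.isPGroup ⟨u, hu⟩
    exact ⟨n, congrArg Subtype.val hn⟩
  have hG := Ge_of hud hup hd hn
  have hC := cInv_isConj (u * d)
  refine TE_blk hb (NilCAux.hI_mem hC ⊤) (TE_of_eS hC hb fun m hm => ?_) hnn
  refine eS_of_Kl hC hm fun U hU w hw => ?_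
  obtain ⟨g, hg⟩ := isConj_iff.1 (show IsConj (u * d) (w : A) from hw)
  have h1 : Ge p (w : A) := hg ▸ Ge_conj g hG
  exact Kl_of_Ge ((NoP_dn U).2 hU) (Ge_sub h1)

end

end Pool.Agent.Lib.P0c8ca5.Id
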