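import Mathlib
import Pool.Agent.Lib.P0c8ca5V.TDefs

/-!
# Rk: the trace of a central idempotent is the dimension of its part of the center

`ctr k U e` is the space of the `z` in the center of `kU` with `z * e = z` (for a central idempotent `e` of `kU`
its dimension is the number of the ordinary irreducible characters of `U` in the blocks below `e`).

PROOF of `trE_idem`. As in `trE_nilpotent` (P0c8ca5V.R2b): `trE k U e = (R2bAux.MT U e).trace`. By `R2bAux.MT_mulVec` the matrix `MT U e` acts on `Cl U (· ∈ U) → k` as `conv e`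
on the class functions (`R2bAux.CF`; `f ↦ fun Y => f Y.out` is a linear bijection from the class functions of `U` onto `Cl U .. → k`). `e` is idempotent, so
(`R2bAux.conv_conv`) `MT U e` is a projection and its trace is the dimension of its range = the `v` with `(MT U e).mulVec v = v` (`LinearMap.IsProj.trace`, `Matrix.trace_toLin'..`,
or `LinearMap.IsIdempotentElem`..). The map `z ↦ (fun Y => z.coeff (Y.out)⁻¹)` is a linear bijection from `ctr k U e` onto these `v`:
`conv e f x = ∑ y, e y * f (y * x)`; for `f x = z.coeff x⁻¹` this is `(e * z).coeff x⁻¹ = (z * e).coeff x⁻¹` (`coeff_mul_fin`, `z` is invariant under `U` and supported in `U`, `commute_of`).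
-/

namespace Pool.Agent.Lib.P0c8ca5.Id

open MonoidAlgebra

set_option linter.unusedSectionVars false

/-- the part of the center of `kU` cut out by `e` -/
def ctr (k : Type*) [Field k] {A : Type*} [Group A] (U : Subgroup A) (e : MonoidAlgebra k A) :
    Submodule k (MonoidAlgebra k A) where
  carrier := {z | z ∈ fixAlg k U U ∧ z * e = z}
  add_mem' := fun ha hb => ⟨(fixAlg k U U).add_mem ha.1 hb.1, by rw [add_mul, ha.2, hb.2]⟩
  zero_mem' := ⟨(fixAlg k U U).zero_mem, zero_mul e⟩
  smul_mem' := fun c _ ha => ⟨(fixAlg k U U).smul_mem ha.1 c, by rw [smul_mul_assoc, ha.2]⟩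

namespace RkAux

open R2bAux

variable {k : Type*} [Field k] {A : Type*} [Group A] [Fintype A] {U : Subgroup A}

/-- the values of a central element at the inverses of the representatives of the classes -/
noncomputable def ev (k : Type*) [Field k] {A : Type*} [Group A] (U : Subgroup A) :
    ↥(Subalgebra.toSubmodule (fixAlg k U U)) →ₗ[k] (Cl U (fun x => x ∈ U) → k) where
  toFun z := fun Y => z.1.coeff (Y.out : A)⁻¹
  map_add' _ _ := rfl
  map_smul' _ _ := rfl

theorem ev_bij (k : Type*) [Field k] {A : Type*} [Group A] [Fintype A] (U : Subgroup A) :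
    Function.Bijective (ev k U) := by
  classical
  constructor
  · rw [injective_iff_map_eq_zero]
    rintro ⟨z, hz⟩ h
    have hz' := mem_fixAlg.1 (show z ∈ fixAlg k U U from hz)
    apply Subtype.ext
    ext x
    change z.coeff x = 0
    by_cases hx : x ∈ U
    · let Y : Cl U (fun x => x ∈ U) := Quotient.mk _ ⟨x⁻¹, U.inv_mem hx⟩
      obtain ⟨g, hg, e⟩ : ∃ g ∈ U, (Y.out : A) = g * x⁻¹ * g⁻¹ := by
        have h1 : Quotient.mk (clSetoid U (fun x => x ∈ U)) ⟨x⁻¹, U.inv_mem hx⟩
            = Quotient.mk _ Y.out := by rw [Quotient.out_eq]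
        exact Quotient.exact h1
      have h1 : z.coeff (Y.out : A)⁻¹ = 0 := congrFun h Y
      have h2 : (Y.out : A)⁻¹ = g * x * g⁻¹ := by rw [e]; group
      rw [h2, hz'.2 g hg] at h1
      exact h1
    · by_contra h1
      exact hx (hz'.1 x h1)
  · intro v
    let z : MonoidAlgebra k A := MonoidAlgebra.ofCoeff (Finsupp.equivFunOnFinite.symm fun x =>
      if h : x⁻¹ ∈ U then v (Quotient.mk _ ⟨x⁻¹, h⟩) else 0)
    have hzc : ∀ x, z.coeff x = if h : x⁻¹ ∈ U then v (Quotient.mk _ ⟨x⁻¹, h⟩) else 0 :=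
      fun x => rfl
    have hz : z ∈ fixAlg k U U := by
      rw [mem_fixAlg]
      refine ⟨fun x hx => ?_, fun g hg x => ?_⟩
      · by_contra h
        apply hx
        rw [hzc, dif_neg]
        exact fun h' => h (by simpa using U.inv_mem h')
      · rw [hzc, hzc]
        have e1 : (g * x * g⁻¹)⁻¹ = g * x⁻¹ * g⁻¹ := by group
        by_cases hx : x⁻¹ ∈ U
        · have hx' : (g * x * g⁻¹)⁻¹ ∈ U := by
            rw [e1]
            exact U.mul_mem (U.mul_mem hg hx) (U.inv_mem hg)
          rw [dif_pos hx, dif_pos hx']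
          congr 1
          exact (Quotient.sound ⟨g, hg, e1⟩ : Quotient.mk (clSetoid U (fun x => x ∈ U))
            ⟨x⁻¹, hx⟩ = Quotient.mk _ ⟨(g * x * g⁻¹)⁻¹, hx'⟩).symm
        · have hx' : ¬ (g * x * g⁻¹)⁻¹ ∈ U := by
            intro h
            rw [e1] at h
            apply hx
            have h2 := U.mul_mem (U.mul_mem (U.inv_mem hg) h) hg
            have e2 : g⁻¹ * (g * x⁻¹ * g⁻¹) * g = x⁻¹ := by group
            rwa [e2] at h2
          rw [dif_neg hx, dif_neg hx']
    refine ⟨⟨z, hz⟩, ?_⟩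
    funext Y
    change z.coeff (Y.out : A)⁻¹ = v Y
    have h1 : ((Y.out : A)⁻¹)⁻¹ ∈ U := by
      rw [inv_inv]
      exact Y.out.2
    rw [hzc, dif_pos h1]
    congr 1
    have h2 : (⟨((Y.out : A)⁻¹)⁻¹, h1⟩ : {x : A // x ∈ U}) = Y.out := Subtype.ext (inv_inv _)
    rw [h2]
    exact Quotient.out_eq Y

/-- multiplication with `e` -/
noncomputable def ml (e : MonoidAlgebra k A) (he : e ∈ fixAlg k U U) :
    ↥(Subalgebra.toSubmodule (fixAlg k U U)) →ₗ[k] ↥(Subalgebra.toSubmodule (fixAlg k U U)) where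
  toFun z := ⟨z.1 * e, (fixAlg k U U).mul_mem z.2 he⟩
  map_add' x y := Subtype.ext (add_mul x.1 y.1 e)
  map_smul' c x := Subtype.ext (smul_mul_assoc c x.1 e)

theorem conv_coeff {e z : MonoidAlgebra k A} (x : A) :
    conv e (fun y => z.coeff y⁻¹) x⁻¹ = (z * e).coeff x := by
  unfold conv
  rw [coeff_mul_fin]
  rw [← Equiv.sum_comp ((Equiv.inv A).trans (Equiv.mulLeft x))
    (fun y => z.coeff y * e.coeff (y⁻¹ * x))]
  refine Finset.sum_congr rfl fun y _ => ?_
  have e1 : ((Equiv.inv A).trans (Equiv.mulLeft x)) y = x * y⁻¹ := rfl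
  have e2 : (y * x⁻¹)⁻¹ = x * y⁻¹ := by group
  have e3 : (x * y⁻¹)⁻¹ * x = y := by group
  change e.coeff y * z.coeff (y * x⁻¹)⁻¹ = _
  rw [e1, e2, e3, mul_comm]

end RkAux

open RkAux R2bAux

theorem trE_idem {k : Type*} [Field k] {A : Type*} [Group A] [Fintype A] {U : Subgroup A}
    {e : MonoidAlgebra k A} (he : e ∈ fixAlg k U U) (hee : e * e = e) :
    trE k U (fun x => e.coeff x) = (Module.finrank k ↥(ctr k U e) : k) := by
  classical
  have : Fintype (Cl U (fun x => x ∈ U)) := Fintype.ofFinite _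
  have he' := mem_fixAlg.1 he
  -- the trace as the trace of a matrix
  have h1 : trE k U (fun x => e.coeff x) = (MT U e).trace := by
    unfold trE Matrix.trace
    rw [finsum_eq_sum_of_fintype]
    refine Finset.sum_congr rfl fun X _ => ?_
    change _ = MT U e X X
    unfold MT
    refine Finset.sum_congr rfl fun y _ => ?_
    split_ifs <;> rfl
  -- the linear equivalence
  let φ := LinearEquiv.ofBijective (ev k U) (ev_bij k U)
  have h2 : ∀ z : ↥(Subalgebra.toSubmodule (fixAlg k U U)),
      (MT U e).mulVec (φ z) = φ (ml e he z) := by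
    intro z
    have hz' := mem_fixAlg.1 (show z.1 ∈ fixAlg k U U from z.2)
    have hCF : CF U (fun x => z.1.coeff x⁻¹) := by
      refine ⟨fun x hx => ?_, fun g hg x => ?_⟩
      · by_contra h
        exact hx (by simpa using U.inv_mem (hz'.1 _ h))
      · have e1 : (g * x * g⁻¹)⁻¹ = g * x⁻¹ * g⁻¹ := by group
        change z.1.coeff (g * x * g⁻¹)⁻¹ = z.1.coeff x⁻¹
        rw [e1, hz'.2 g hg]
    have h3 := MT_mulVec he'.1 hCF
    have h4 : (φ z : Cl U (fun x => x ∈ U) → k) = fun Y => z.1.coeff (Y.out : A)⁻¹ := rfl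
    rw [h4, h3]
    funext X
    have h5 := conv_coeff (e := e) (z := z.1) (X.out : A)⁻¹
    rw [inv_inv] at h5
    exact h5
  -- the projection on the functions on the classes
  let T := Matrix.toLin' (MT U e)
  have hT : ∀ v, T v = (MT U e).mulVec v := fun v => Matrix.toLin'_apply _ _
  let P : Submodule k (Cl U (fun x => x ∈ U) → k) := LinearMap.eqLocus T LinearMap.id
  have hP : ∀ v, v ∈ P ↔ T v = v := fun v => Iff.rfl
  have hidem : ∀ v, T (T v) = T v := by
    intro v
    obtain ⟨z, rfl⟩ := φ.surjective v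
    have h3 : T (φ z) = φ (ml e he z) := by rw [hT, h2]
    rw [h3, hT, h2]
    congr 1
    apply Subtype.ext
    change z.1 * e * e = z.1 * e
    rw [mul_assoc, hee]
  have hproj : LinearMap.IsProj P T := ⟨fun v => hidem v, fun v hv => hv⟩
  have hle : ∀ z ∈ ctr k U e, z ∈ fixAlg k U U := fun z hz => hz.1
  let F : ↥(ctr k U e) →ₗ[k] ↥P :=
    { toFun := fun z => ⟨φ ⟨z.1, hle z.1 z.2⟩, by
        rw [hP, hT, h2]
        congr 1
        exact Subtype.ext z.2.2⟩
      map_add' := fun x y => rfl
      map_smul' := fun c x => rfl }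
  have hF : Function.Bijective F := by
    constructor
    · intro z z' h
      have h3 : φ ⟨z.1, hle z.1 z.2⟩ = φ ⟨z'.1, hle z'.1 z'.2⟩ :=
        congrArg (fun t : ↥P => (t : Cl U (fun x => x ∈ U) → k)) h
      have h4 := φ.injective h3
      have h5 : z.1 = z'.1 :=
        congrArg (fun t : ↥(Subalgebra.toSubmodule (fixAlg k U U)) => (t : MonoidAlgebra k A)) h4
      exact Subtype.ext h5
    · rintro ⟨v, hv⟩
      obtain ⟨z, rfl⟩ := φ.surjective v
      rw [hP, hT, h2] at hv
      have h3 : z.1 * e = z.1 :=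
        congrArg (fun t : ↥(Subalgebra.toSubmodule (fixAlg k U U)) => (t : MonoidAlgebra k A))
          (φ.injective hv)
      exact ⟨⟨z.1, z.2, h3⟩, rfl⟩
  rw [h1, ← Matrix.trace_toLin'_eq, hproj.trace]
  congr 1
  exact ((LinearEquiv.ofBijective F hF).finrank_eq).symm

end Pool.Agent.Lib.P0c8ca5.Id
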