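import Mathlib
import Pool.Agent.Lib.P0c8ca5Id.Kz
import Pool.Agent.Lib.P0c8ca5Id.Rk

/-! The alternating sum of the numbers of characters. -/

namespace Pool.Agent.Lib.P0c8ca5.Id

open MonoidAlgebra Bw

set_option linter.unusedSectionVars false

section
variable {p : ℕ} {A : Type*} [Group A]

/-- the elements centralizing all members of `σ` -/
def sC (σ : Finset (Subgroup A)) : Subgroup A := ⨅ Q ∈ σ, Subgroup.centralizer (Q : Set A)

theorem mem_sC {σ : Finset (Subgroup A)} {x : A} :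
    x ∈ sC σ ↔ ∀ Q ∈ σ, x ∈ Subgroup.centralizer (Q : Set A) := by
  unfold sC
  simp only [Subgroup.mem_iInf]

/-- the group `U = sN σ` with its normal subgroup `Q`, the largest member -/
theorem sand_sC [Finite A] {σ : Finset (Subgroup A)} (h : IsChE p σ) :
    ∃ Q, Sand p Q (sN σ) ∧ sC σ = Subgroup.centralizer (Q : Set A) := by
  classical
  by_cases hne : σ.Nonempty
  · obtain ⟨M, hM, hmax⟩ := Finset.exists_maximal hne
    have hall : ∀ Q ∈ σ, Q ≤ M := by
      intro Q hQ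
      rcases h.1.1.total hQ hM with h1 | h1
      · exact h1
      · exact hmax hQ h1
    refine ⟨M, ⟨(h.1.2 M hM).1, ?_, ?_, ?_⟩, ?_⟩
    · intro x hx
      rw [TogAux.mem_sN]
      intro Q hQ
      have key : ∀ y ∈ Q, x * y * x⁻¹ = y := by
        intro y hy
        rw [(h.2 M hM).1 x hx y (hall Q hQ hy)]
        group
      have key' : ∀ y ∈ Q, x⁻¹ * y * x = y := by
        intro y hy
        have h1 := (h.2 M hM).1 x hx y (hall Q hQ hy)
        rw [mul_assoc, ← h1]
        group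
      rw [Subgroup.mem_normalizer_iff]
      intro y
      constructor
      · intro hy
        rw [key y hy]
        exact hy
      · intro hy
        have h1 := key' _ hy
        have e : x⁻¹ * (x * y * x⁻¹) * x = y := by group
        rw [e] at h1
        rw [h1]
        exact hy
    · intro x hx
      exact TogAux.mem_sN.1 hx M hM
    · intro x hx
      rw [TogAux.mem_sN]
      intro Q hQ
      have h1 : x ∈ Subgroup.centralizer (Q : Set A) := by
        rw [Subgroup.mem_centralizer_iff] at hx ⊢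
        exact fun y hy => hx y (hall Q hQ hy)
      exact Subgroup.centralizer_le_normalizer _ h1
    · ext x
      rw [mem_sC]
      constructor
      · intro hx
        exact hx M hM
      · intro hx Q hQ
        rw [Subgroup.mem_centralizer_iff] at hx ⊢
        exact fun y hy => hx y (hall Q hQ hy)
  · rw [Finset.not_nonempty_iff_eq_empty] at hne
    subst hne
    have h1 : sN (∅ : Finset (Subgroup A)) = ⊤ := by
      unfold sN
      simp
    have h2 : sC (∅ : Finset (Subgroup A)) = ⊤ := by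
      unfold sC
      simp
    rw [h1, h2]
    refine ⟨⊥, ⟨IsPGroup.of_bot, bot_le, ?_, le_top⟩, ?_⟩
    · intro x _
      rw [Subgroup.mem_normalizer_iff]
      intro y
      rw [Subgroup.mem_bot, Subgroup.mem_bot, conj_eq_one_iff]
    · symm
      rw [eq_top_iff]
      intro x _
      rw [Subgroup.mem_centralizer_iff]
      intro y hy
      rw [SetLike.mem_coe, Subgroup.mem_bot] at hy
      rw [hy, one_mul, mul_one]

theorem mem_chRE [Finite A] {σ : Finset (Subgroup A)} :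
    σ ∈ chRE p A ↔ σ ∈ chR p A ∧ ∀ Q ∈ σ, IsEl p Q := by
  classical
  unfold chRE
  rw [Finset.mem_filter]

end

section
variable {p : ℕ} {k : Type*} [Field k] {A : Type*} [Group A]

/-- `k(B_σ)`: the dimension of the part of the center of the group algebra of `sN σ` cut out by the
restriction of `b` to `sC σ` -/
noncomputable def kB (σ : Finset (Subgroup A)) (b : MonoidAlgebra k A) : ℕ :=
  Module.finrank k ↥(ctr k (sN σ) (resS (sC σ : Set A) b))

/-- the image under conjugation -/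
theorem ctr_cj {U : Subgroup A} {e : MonoidAlgebra k A} (g : A) {z : MonoidAlgebra k A}
    (hz : z ∈ ctr k U e) : cj g z ∈ ctr k (cg g U) (cj g e) := by
  obtain ⟨h1, h2⟩ := hz
  rw [mem_fixAlg] at h1
  refine ⟨?_, by rw [← cj_mul, h2]⟩
  rw [mem_fixAlg]
  refine ⟨fun x hx => ?_, fun h hh x => ?_⟩
  · rw [coeff_cj] at hx
    exact mem_cg.2 (h1.1 _ hx)
  · rw [coeff_cj, coeff_cj]
    have e1 : g⁻¹ * (h * x * h⁻¹) * g = (g⁻¹ * h * g) * (g⁻¹ * x * g) * (g⁻¹ * h * g)⁻¹ := by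
      group
    rw [e1]
    exact h1.2 _ (mem_cg.1 hh) _

theorem finrank_ctr_cj [Finite A] (U : Subgroup A) (e : MonoidAlgebra k A) (g : A) :
    Module.finrank k ↥(ctr k (cg g U) (cj g e)) = Module.finrank k ↥(ctr k U e) := by
  let f : ↥(ctr k U e) →ₗ[k] ↥(ctr k (cg g U) (cj g e)) :=
    { toFun := fun z => ⟨cj g z.1, ctr_cj g z.2⟩
      map_add' := fun a b => Subtype.ext (cj_add g a.1 b.1)
      map_smul' := fun c a => Subtype.ext (cj_smul g c a.1) }
  have hinj : Function.Injective f := by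
    intro a b h
    have h1 := congrArg Subtype.val h
    have h2 := congrArg (cj g⁻¹) h1
    change cj g⁻¹ (cj g a.1) = cj g⁻¹ (cj g b.1) at h2
    rw [cj_cj, cj_cj, inv_mul_cancel, cj_one_left, cj_one_left] at h2
    exact Subtype.ext h2
  have hsurj : Function.Surjective f := by
    intro y
    have h1 := ctr_cj g⁻¹ y.2
    rw [cg_cg, cj_cj, inv_mul_cancel, cg_one, cj_one_left] at h1
    refine ⟨⟨_, h1⟩, Subtype.ext ?_⟩
    change cj g (cj g⁻¹ y.1) = y.1
    rw [cj_cj, mul_inv_cancel, cj_one_left]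
  exact (LinearEquiv.ofBijective f ⟨hinj, hsurj⟩).finrank_eq.symm

theorem sC_cgS (g : A) (σ : Finset (Subgroup A)) : sC (ChOrbAux.cgS g σ) = cg g (sC σ) := by
  ext x
  rw [mem_cg, mem_sC, mem_sC]
  constructor
  · intro h Q hQ
    have h1 := h (cg g Q) (ChOrbAux.mem_cgS.2 ⟨Q, hQ, rfl⟩)
    rw [Subgroup.mem_centralizer_iff] at h1 ⊢
    intro y hy
    have h2 := h1 (g * y * g⁻¹) ((ChOrbAux.mem_cg' g y Q).2 hy)
    calc y * (g⁻¹ * x * g) = g⁻¹ * (g * y * g⁻¹ * x) * g := by group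
      _ = g⁻¹ * (x * (g * y * g⁻¹)) * g := by rw [h2]
      _ = g⁻¹ * x * g * y := by group
  · intro h Q hQ
    obtain ⟨R, hR, rfl⟩ := ChOrbAux.mem_cgS.1 hQ
    have h1 := h R hR
    rw [Subgroup.mem_centralizer_iff] at h1 ⊢
    intro y hy
    have h2 := h1 (g⁻¹ * y * g) (mem_cg.1 hy)
    calc y * x = g * (g⁻¹ * y * g * (g⁻¹ * x * g)) * g⁻¹ := by group
      _ = g * (g⁻¹ * x * g * (g⁻¹ * y * g)) * g⁻¹ := by rw [h2]
      _ = x * y := by group

theorem kB_cgS [Finite A] (g : A) (σ : Finset (Subgroup A)) {b : MonoidAlgebra k A}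
    (hb : InvBy (⊤ : Subgroup A) b) : kB (ChOrbAux.cgS g σ) b = kB σ b := by
  have h1 : resS ((cg g (sC σ) : Subgroup A) : Set A) b = cj g (resS (sC σ : Set A) b) := by
    ext x
    rw [coeff_cj]
    by_cases hx : x ∈ cg g (sC σ)
    · have hx' := mem_cg.1 hx
      rw [coeff_resS_of_mem _ (show x ∈ ((cg g (sC σ) : Subgroup A) : Set A) from hx),
        coeff_resS_of_mem _ (show g⁻¹ * x * g ∈ (sC σ : Set A) from hx')]
      have h2 := hb g⁻¹ (Subgroup.mem_top _) x
      rw [inv_inv] at h2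
      exact h2.symm
    · have hx' : ¬ g⁻¹ * x * g ∈ sC σ := fun h => hx (mem_cg.2 h)
      rw [coeff_resS_of_notMem _ (show x ∉ ((cg g (sC σ) : Subgroup A) : Set A) from hx),
        coeff_resS_of_notMem _ (show g⁻¹ * x * g ∉ (sC σ : Set A) from hx')]
  unfold kB
  rw [ChOrbAux.sN_cgS, sC_cgS, h1, finrank_ctr_cj]

end

section
variable {p : ℕ} {k : Type*} [Field k] {A : Type*} [Group A] [Fintype A]
variable [Fact p.Prime] [CharP k p] [IsAlgClosed k]

theorem trE_kB {σ : Finset (Subgroup A)} (h : IsChE p σ) {b : MonoidAlgebra k A}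
    (hb : b ∈ fixAlg k (⊤ : Subgroup A) ⊤) (hbb : b * b = b) :
    trE k (sN σ) (fun x => (rz (sN σ) b).coeff x) = (kB σ b : k) := by
  classical
  obtain ⟨Q, hQ, hC⟩ := sand_sC h
  have hbi : InvBy (⊤ : Subgroup A) b := (mem_fixAlg.1 hb).2
  set e := resS (sC σ : Set A) b with he
  have hcn : ∀ g ∈ sN σ, ∀ x, g * x * g⁻¹ ∈ sC σ ↔ x ∈ sC σ := by
    have key : ∀ g ∈ sN σ, ∀ x ∈ sC σ, g * x * g⁻¹ ∈ sC σ := by
      intro g hg x hx
      rw [hC, Subgroup.mem_centralizer_iff] at hx ⊢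
      intro y hy
      have h1 := (Subgroup.mem_normalizer_iff.1
        (Subgroup.inv_mem _ (hQ.no hg)) y).1 hy
      have h2 := hx _ h1
      rw [inv_inv] at h2
      calc y * (g * x * g⁻¹) = g * (g⁻¹ * y * g * x) * g⁻¹ := by group
        _ = g * (x * (g⁻¹ * y * g)) * g⁻¹ := by rw [h2]
        _ = g * x * g⁻¹ * y := by group
    intro g hg x
    refine ⟨fun hx => ?_, key g hg x⟩
    have h1 := key g⁻¹ ((sN σ).inv_mem hg) _ hx
    have e1 : g⁻¹ * (g * x * g⁻¹) * g⁻¹⁻¹ = x := by group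
    rwa [e1] at h1
  have heU : e ∈ fixAlg k (sN σ) (sN σ) := by
    rw [mem_fixAlg]
    refine ⟨fun x hx => ?_, fun g hg x => ?_⟩
    · by_cases hx' : x ∈ sC σ
      · rw [hC] at hx'
        exact hQ.ce hx'
      · exact absurd (coeff_resS_of_notMem b (show x ∉ (sC σ : Set A) from hx')) hx
    · by_cases hx' : x ∈ sC σ
      · rw [he, coeff_resS_of_mem _ (show x ∈ (sC σ : Set A) from hx'),
          coeff_resS_of_mem _ (show g * x * g⁻¹ ∈ (sC σ : Set A) from (hcn g hg x).2 hx')]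
        exact hbi g (Subgroup.mem_top g) x
      · rw [he, coeff_resS_of_notMem _ (show x ∉ (sC σ : Set A) from hx'),
          coeff_resS_of_notMem _ (show g * x * g⁻¹ ∉ (sC σ : Set A) from
            fun h1 => hx' ((hcn g hg x).1 h1))]
  have hee : e * e = e := by
    rw [he, hC, ← resS_mul hQ.pg (hbi.mono le_top) (hbi.mono le_top), hbb]
  have hd : rz (sN σ) b - e ∈ fixAlg k (sN σ) (sN σ) :=
    (fixAlg k (sN σ) (sN σ)).sub_mem (NilCAux.rz_mem hb _) heU
  have hdn : IsNilpotent (rz (sN σ) b - e) := by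
    refine nil_sub hQ.le hQ.no hQ.pg hd fun x hx => ?_
    have hx' : x ∈ (sC σ : Set A) := by
      rw [hC]
      exact hx
    have h1 : (rz (sN σ) b - e).coeff x = (rz (sN σ) b).coeff x - e.coeff x := rfl
    rw [h1, rz_coeff, if_pos (hQ.ce hx), he, coeff_resS_of_mem _ hx', sub_self]
  have h3 := trE_nilpotent (p := p) (mem_fixAlg.1 hd).1 (mem_fixAlg.1 hd).2 hdn
  have h4 : (fun t => (rz (sN σ) b).coeff t) = fun t => e.coeff t
      + (rz (sN σ) b - e).coeff t := by
    funext t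
    change _ = e.coeff t + ((rz (sN σ) b).coeff t - e.coeff t)
    ring
  rw [h4, trE_add, h3, add_zero, trE_idem heU hee]
  rfl

/-- the alternating sum over the chosen representatives -/
theorem TE_kB {b : MonoidAlgebra k A} (hb : b ∈ fixAlg k (⊤ : Subgroup A) ⊤) (hbb : b * b = b) :
    TE p b = ((∑ σ ∈ chRE p A, (-1) ^ σ.card * (kB σ b : ℤ) : ℤ) : k) := by
  unfold TE
  push_cast
  refine Finset.sum_congr rfl fun σ hσ => ?_
  rw [trE_kB (isChE_of_mem hσ) hb hbb]

/-- any set of representatives -/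
theorem sum_reps {w : Finset (Subgroup A) → ℤ} (hw : ∀ g σ, w (ChOrbAux.cgS g σ) = w σ)
    (R : Finset (Finset (Subgroup A))) (hR1 : ∀ σ ∈ R, IsChE p σ)
    (hR2 : ∀ τ, IsChE p τ → ∃! σ, σ ∈ R ∧ ∃ g : A, τ = ChOrbAux.cgS g σ) :
    ∑ σ ∈ R, w σ = ∑ σ ∈ chRE p A, w σ := by
  classical
  let _ := ChOrbAux.actS (A := A)
  have hmem : ∀ σ : Finset (Subgroup A), σ ∈ chRE p A ↔ IsChE p σ ∧
      (Quotient.mk (MulAction.orbitRel A (Finset (Subgroup A))) σ).out = σ := by
    intro σ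
    rw [mem_chRE]
    unfold chR
    rw [Set.Finite.mem_toFinset]
    constructor
    · rintro ⟨⟨h1, h2⟩, h3⟩
      exact ⟨⟨h1, h3⟩, h2⟩
    · rintro ⟨⟨h1, h3⟩, h2⟩
      exact ⟨⟨h1, h2⟩, h3⟩
  have hout : ∀ σ : Finset (Subgroup A), ∃ g : A,
      (Quotient.mk (MulAction.orbitRel A (Finset (Subgroup A))) σ).out = ChOrbAux.cgS g σ := by
    intro σ
    have h1 : (MulAction.orbitRel A (Finset (Subgroup A)))
        (Quotient.mk (MulAction.orbitRel A (Finset (Subgroup A))) σ).out σ :=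
      Quotient.exact (Quotient.out_eq _)
    rw [MulAction.orbitRel_apply] at h1
    obtain ⟨g, hg⟩ := h1
    exact ⟨g, hg.symm⟩
  refine Finset.sum_bij
    (fun σ _ => (Quotient.mk (MulAction.orbitRel A (Finset (Subgroup A))) σ).out) ?_ ?_ ?_ ?_
  · intro σ hσ
    obtain ⟨g, hg⟩ := hout σ
    rw [hmem]
    refine ⟨?_, by rw [Quotient.out_eq]⟩
    rw [hg]
    exact (ElAux.isChE_cgS g σ).2 (hR1 σ hσ)
  · intro σ hσ τ hτ h
    obtain ⟨g, hg⟩ := hout σ
    obtain ⟨g', hg'⟩ := hout τ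
    have h1 : ChOrbAux.cgS g σ = ChOrbAux.cgS g' τ := by
      rw [← hg, ← hg']
      exact h
    obtain ⟨ρ, _, hu⟩ := hR2 _ ((ElAux.isChE_cgS g σ).2 (hR1 σ hσ))
    rw [hu σ ⟨hσ, g, rfl⟩, hu τ ⟨hτ, g', h1⟩]
  · intro τ hτ
    obtain ⟨hτ1, hτ2⟩ := (hmem τ).1 hτ
    obtain ⟨σ, ⟨hσ, g, hg⟩, _⟩ := hR2 τ hτ1
    refine ⟨σ, hσ, ?_⟩
    have h1 : Quotient.mk (MulAction.orbitRel A (Finset (Subgroup A))) σ
        = Quotient.mk (MulAction.orbitRel A (Finset (Subgroup A))) τ := by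
      refine Quotient.sound ?_
      change (MulAction.orbitRel A (Finset (Subgroup A))) σ τ
      rw [MulAction.orbitRel_apply]
      refine ⟨g⁻¹, ?_⟩
      change ChOrbAux.cgS g⁻¹ τ = σ
      rw [hg, ChOrbAux.cgS_cgS, inv_mul_cancel, ChOrbAux.cgS_one]
    rw [h1]
    exact hτ2
  · intro σ hσ
    obtain ⟨g, hg⟩ := hout σ
    rw [hg, hw]

/-- THEOREM Z: the alternating sum of the numbers of characters of a block whose defect group has a
central element outside its commutator subgroup is divisible by `p` -/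
theorem krs {b : MonoidAlgebra k A} (hb : IsBlock (⊤ : Subgroup A) b) {D : Subgroup A}
    (hD : IsDefectGroup p (⊤ : Subgroup A) b D) {u : A} (hu : u ∈ D)
    (huc : ∀ x ∈ D, u * x = x * u) (hu' : u ∉ ⁅D, D⁆)
    (R : Finset (Finset (Subgroup A))) (hR1 : ∀ σ ∈ R, IsChE p σ)
    (hR2 : ∀ τ, IsChE p τ → ∃! σ, σ ∈ R ∧ ∃ g : A, τ = ChOrbAux.cgS g σ) :
    (p : ℤ) ∣ ∑ σ ∈ R, (-1) ^ σ.card * (kB σ b : ℤ) := by
  have h1 := TE_center hb hD hu huc hu'
  rw [TE_kB hb.mem hb.idem, CharP.intCast_eq_zero_iff k p] at h1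
  rw [sum_reps (p := p) (fun g σ => by rw [ChOrbAux.card_cgS, kB_cgS g σ hb.invBy]) R hR1 hR2]
  exact h1

end

end Pool.Agent.Lib.P0c8ca5.Id
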