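import Mathlib
import Pool.Agent.Lib.P0c8ca5V.GalE

/-! Class functions invariant under the powers congruent to 1 modulo `p`: only the p-rational
elements count. -/

namespace Pool.Agent.Lib.P0c8ca5.Id

open GalE

variable {p : ℕ} {A : Type*} [Group A]

theorem phi_perm1 [Finite A] {φ : A → ℤ}
    (hj : ∀ j, GalJ p A j → j ≡ 1 [MOD p] → ∀ x, φ (x ^ j) = φ x)
    {π : Equiv.Perm A} (hπ : π ∈ Lam p A) (x : A) : φ (π x) = φ x := by
  obtain ⟨j, hj1, hj3, hj2⟩ := hπ
  rw [hj2, hj j hj1 hj3]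

open Classical in
theorem rat_sum1 [Fact p.Prime] [Fintype A] {φ : A → ℤ} (hcl : ∀ c x, φ (c * x * c⁻¹) = φ x)
    (hpel : ∀ x, φ x ≠ 0 → Pel p x) (hj : ∀ j, GalJ p A j → j ≡ 1 [MOD p] → ∀ x, φ (x ^ j) = φ x)
    (hd : ∀ x, φ x ≠ 0 →
      ((ordProj[p] (Nat.card (Subgroup.centralizer ({x} : Set A))) : ℕ) : ℤ) ∣ φ x) :
    (p : ℤ) * (ordProj[p] (Nat.card A) : ℕ) ∣ ∑ x : A, if PRat p x then 0 else φ x := by
  have hp : p.Prime := Fact.out
  by_cases hpA : p ∣ Nat.card A
  swap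
  · have h1 : ∀ x : A, (if PRat p x then 0 else φ x) = 0 := by
      intro x
      split_ifs with hx
      · rfl
      · by_contra h2
        apply hx
        obtain ⟨n, hn⟩ := hpel x h2
        have h3 : orderOf x ∣ 1 := by
          have h4 : Nat.Coprime (Nat.card A) (p ^ n) :=
            Nat.Coprime.pow_right n ((Nat.Prime.coprime_iff_not_dvd hp).2 hpA).symm
          rw [← h4.gcd_eq_one]
          exact Nat.dvd_gcd (orderOf_dvd_natCard x) (orderOf_dvd_of_pow_eq_one hn)
        have h5 : x = 1 := orderOf_eq_one_iff.1 (Nat.dvd_one.1 h3)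
        rw [h5]
        intro j _
        rw [one_pow]
    rw [Finset.sum_eq_zero (fun x _ => h1 x)]
    exact dvd_zero _
  have hCp : IsPGroup p (Lam p A) := Lam_pGroup
  have hcomm : ∀ (g : A) (c : ↥(Lam p A)), Commute (cjA g) ((Lam p A).subtype c) := by
    rintro g ⟨c, j, hj1, hj2, hj3⟩
    apply Equiv.ext
    intro x
    change g * c x * g⁻¹ = c (g * x * g⁻¹)
    rw [hj3, hj3, conj_pow]
  let Ψ : A × ↥(Lam p A) →* Equiv.Perm A :=
    MonoidHom.noncommCoprod cjA (Lam p A).subtype hcomm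
  let _ : MulAction (A × ↥(Lam p A)) A := MulAction.compHom _ Ψ
  have hsm : ∀ (g : A) (c : ↥(Lam p A)) (x : A),
      ((g, c) : A × ↥(Lam p A)) • x = g * (c : Equiv.Perm A) x * g⁻¹ := fun _ _ _ => rfl
  have hcard : ∀ K : Subgroup ↥(Lam p A), ordProj[p] (Nat.card K) = Nat.card K := by
    intro K
    obtain ⟨n, hn⟩ := IsPGroup.iff_card.1 (hCp.to_subgroup K)
    rw [hn, hp.factorization_pow]
    simp
  have hcard' : ordProj[p] (Nat.card ↥(Lam p A)) = Nat.card ↥(Lam p A) := by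
    obtain ⟨n, hn⟩ := IsPGroup.iff_card.1 hCp
    rw [hn, hp.factorization_pow]
    simp
  have key := orb_dvd_p (p := p) (T := A × ↥(Lam p A)) (X := A)
    (fun x => ((Nat.card ↥(Lam p A) : ℕ) : ℤ) * (if PRat p x then 0 else φ x)) ?_ (p : ℤ) ?_
  · rw [← Finset.mul_sum, Nat.card_prod, Nat.ordProj_mul p Nat.card_pos.ne' Nat.card_pos.ne',
      hcard'] at key
    have h1 : (((Nat.card ↥(Lam p A) : ℕ) : ℤ)) ≠ 0 := by
      exact_mod_cast (Nat.card_pos (α := ↥(Lam p A))).ne'
    have h2 : (p : ℤ) * ((ordProj[p] (Nat.card A) * Nat.card ↥(Lam p A) : ℕ) : ℤ)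
        = ((Nat.card ↥(Lam p A) : ℕ) : ℤ) * ((p : ℤ) * (ordProj[p] (Nat.card A) : ℕ)) := by
      push_cast
      ring
    rw [h2] at key
    exact (mul_dvd_mul_iff_left h1).1 key
  · rintro ⟨g, c⟩ x
    simp only [hsm, hcl, phi_perm1 hj c.2]
    have h1 : PRat p (g * (c : Equiv.Perm A) x * g⁻¹) ↔ PRat p x :=
      (pRat_conj g _).trans (pRat_perm c.2 x)
    congr 1
    exact if_congr h1 rfl rfl
  · intro x
    by_cases hx : PRat p x
    · simp only [if_pos hx, mul_zero]
      exact dvd_zero _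
    by_cases hφ : φ x = 0
    · simp only [hφ, ite_self, mul_zero]
      exact dvd_zero _
    simp only [if_neg hx]
    let S : Subgroup (A × ↥(Lam p A)) := MulAction.stabilizer (A × ↥(Lam p A)) x
    let π : ↥S →* ↥(Lam p A) := (MonoidHom.snd A ↥(Lam p A)).comp S.subtype
    have hπ : ∀ s : ↥S, π s = (s : A × ↥(Lam p A)).2 := fun s => rfl
    have hker : Nat.card π.ker = Nat.card (Subgroup.centralizer ({x} : Set A)) := by
      refine Nat.card_congr
        { toFun := fun s => ⟨((s : ↥S) : A × ↥(Lam p A)).1, ?_⟩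
          invFun := fun g => ⟨⟨((g : A), 1), ?_⟩, ?_⟩
          left_inv := ?_
          right_inv := ?_ }
      · have h2 : ((s : ↥S) : A × ↥(Lam p A)).2 = 1 := s.2
        have h3 : (((s : ↥S) : A × ↥(Lam p A))) • x = x := (s : ↥S).2
        have h4 := hsm ((s : ↥S) : A × ↥(Lam p A)).1 ((s : ↥S) : A × ↥(Lam p A)).2 x
        rw [Prod.mk.eta, h3, h2] at h4
        rw [Subgroup.mem_centralizer_singleton_iff]
        have h5 : x = ((s : ↥S) : A × ↥(Lam p A)).1 * x * (((s : ↥S) : A × ↥(Lam p A)).1)⁻¹ := h4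
        exact (mul_inv_eq_iff_eq_mul.1 h5.symm)
      · change (g : A) * x * (g : A)⁻¹ = x
        have h5 := Subgroup.mem_centralizer_singleton_iff.1 g.2
        rw [mul_inv_eq_iff_eq_mul]
        exact h5
      · rfl
      · intro s
        apply Subtype.ext
        apply Subtype.ext
        have h2 : ((s : ↥S) : A × ↥(Lam p A)).2 = 1 := s.2
        exact Prod.ext rfl h2.symm
      · intro g
        rfl
    have hidx : p ∣ π.range.index := by
      obtain ⟨n, hn⟩ := hCp.index π.range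
      have h1 : n ≠ 0 := by
        rintro rfl
        rw [pow_zero, Subgroup.index_eq_one] at hn
        apply hx
        intro j hj1
        obtain ⟨i, hi1, hi2, hi3⟩ := exists_galJ hpA hj1
        let σ : ↥(Lam p A) := ⟨powCoprime hi1.1, i, hi1, hi2, fun _ => rfl⟩
        have h2 : σ ∈ π.range := by
          rw [hn]
          exact Subgroup.mem_top _
        obtain ⟨s, hs⟩ := h2
        rw [hπ] at hs
        have h3 : ((s : A × ↥(Lam p A))) • x = x := s.2
        have h4 := hsm (s : A × ↥(Lam p A)).1 (s : A × ↥(Lam p A)).2 x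
        rw [Prod.mk.eta, h3, hs] at h4
        have h5 : x = (s : A × ↥(Lam p A)).1 * x ^ i * ((s : A × ↥(Lam p A)).1)⁻¹ := h4
        rw [← hi3 x (hpel x hφ)]
        exact (isConj_iff.2 ⟨_, h5.symm⟩).symm
      rw [hn]
      exact dvd_pow_self p h1
    have h1 : Nat.card ↥S = Nat.card π.ker * Nat.card π.range := by
      rw [← Subgroup.index_ker, Subgroup.card_mul_index]
    have h2 : Nat.card π.range * π.range.index = Nat.card ↥(Lam p A) :=
      Subgroup.card_mul_index _
    obtain ⟨i, hi⟩ := hidx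
    obtain ⟨d, hd'⟩ := hd x hφ
    change (p : ℤ) * ((ordProj[p] (Nat.card ↥S) : ℕ) : ℤ) ∣ _
    rw [h1, Nat.ordProj_mul p Nat.card_pos.ne' Nat.card_pos.ne', hcard, hker, ← h2, hi, hd']
    refine ⟨(i : ℤ) * d, ?_⟩
    push_cast
    ring

end Pool.Agent.Lib.P0c8ca5.Id
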