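import Mathlib
import Pool.Agent.Lib.P0c8ca5V.RotP

/-! Permutations of p-power order modulo the action of a group: the number of the elements which
induce it. -/

namespace Pool.Agent.Lib.P0c8ca5.Id

open RotAux

namespace RtAux

section
variable {p : ℕ} [Fact p.Prime] {T X : Type*} [Group T] [Finite T] [MulAction T X]

theorem fixpow {g : T} {x : X} (h : g • x = x) (n : ℕ) : g ^ n • x = x := by
  have h1 : g ∈ MulAction.stabilizer T x := h
  exact Subgroup.pow_mem _ h1 n

theorem iter {F : Equiv.Perm X} (hF : ∀ (g : T) (x : X), F (g • x) = g • F x) {h : T} {x : X}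
    (hh : F x = h • x) (n : ℕ) : (F ^ n) x = h ^ n • x := by
  induction n with
  | zero => rw [pow_zero, pow_zero, one_smul, Equiv.Perm.one_apply]
  | succ n ih => rw [pow_succ', Equiv.Perm.mul_apply, ih, hF, hh, ← mul_smul, ← pow_succ]

theorem pel_conj (g x : T) : Pel p (g * x * g⁻¹) ↔ Pel p x := by
  unfold Pel
  refine exists_congr fun n => ?_
  rw [conj_pow]
  exact conj_eq_one_iff

/-- A fixed class: the number of the p-elements inducing `F` is 1 modulo p. -/
theorem n_mod {r : ℕ} {F : Equiv.Perm X} (hF : ∀ (g : T) (x : X), F (g • x) = g • F x)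
    {v : T} (hv : Pel p v) (hvc : ∀ g : T, v * g = g * v) {x : X}
    (hFv : (F ^ p ^ r) x = v • x) (hst : ¬ p ∣ Nat.card (MulAction.stabilizer T x)) {h : T}
    (hh : F x = h • x) :
    (p : ℤ) ∣ 1 - (Nat.card {y : T // Pel p y ∧ F x = y • x} : ℤ) := by
  classical
  have hp : p.Prime := Fact.out
  have : Fintype T := Fintype.ofFinite T
  have hno : ∀ z : T, z • x = x → Pel p z → z = 1 := by
    rintro z hz ⟨n, hn⟩
    have h1 : orderOf (⟨z, hz⟩ : MulAction.stabilizer T x) ∣ p ^ n :=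
      orderOf_dvd_of_pow_eq_one (Subtype.ext hn)
    have h2 : orderOf (⟨z, hz⟩ : MulAction.stabilizer T x) ∣
        Nat.card (MulAction.stabilizer T x) := orderOf_dvd_natCard _
    have h3 : Nat.Coprime (p ^ n) (Nat.card (MulAction.stabilizer T x)) :=
      Nat.Coprime.pow_left n ((Nat.Prime.coprime_iff_not_dvd hp).2 hst)
    have h4 : orderOf (⟨z, hz⟩ : MulAction.stabilizer T x) = 1 :=
      Nat.dvd_one.1 (h3 ▸ Nat.dvd_gcd h1 h2)
    exact congrArg Subtype.val (orderOf_eq_one_iff.1 h4)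
  obtain ⟨l, hl⟩ := hv
  -- the p'-part of `h` is in the stabilizer
  obtain ⟨z, hz⟩ : ∃ z, z = v⁻¹ * h ^ p ^ r := ⟨_, rfl⟩
  have hzx : z • x = x := by
    rw [hz, mul_smul, ← iter hF hh, hFv, ← mul_smul, inv_mul_cancel, one_smul]
  have hcomm : Commute v z := hvc z
  have hvz : h ^ p ^ r = v * z := by rw [hz, mul_inv_cancel_left]
  set y := pr p h with hy
  have h5 : h ^ p ^ (r + l) • x = x := by
    rw [pow_add, pow_mul, hvz, hcomm.mul_pow, hl, one_mul]
    exact fixpow hzx _
  have h7 : y ^ p ^ (r + l) = (h ^ p ^ (r + l)) ^ uexp p T := by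
    rw [hy]; unfold pr; rw [← pow_mul, ← pow_mul, mul_comm]
  have h4 : y ^ p ^ (r + l) • x = x := by
    rw [h7]
    exact fixpow h5 _
  have hyx : y • x = x := by
    have h6 : (p ^ (r + l)).Coprime (orderOf y) :=
      Nat.Coprime.pow_left _ ((Nat.Prime.coprime_iff_not_dvd hp).2 (preg_pr h))
    obtain ⟨m, hm⟩ := exists_pow_eq_self_of_coprime h6
    rw [← hm]
    exact fixpow h4 _
  have hyinv : y⁻¹ • x = x := by
    rw [inv_smul_eq_iff]
    exact hyx.symm
  obtain ⟨x0, hx0⟩ : ∃ x0, x0 = h * y⁻¹ := ⟨_, rfl⟩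
  have hx0p : Pel p x0 := by rw [hx0]; exact exists_pow_mul_inv_pr h
  have hx0t : F x = x0 • x := by rw [hx0, mul_smul, hyinv, hh]
  have hcent : ∀ a : T, F x = a • x → (x0⁻¹ * a) • x = x := by
    intro a ha
    rw [mul_smul, ← ha, hx0t, ← mul_smul, inv_mul_cancel, one_smul]
  have hs : F (x0⁻¹ • x) = x := by
    rw [hF, hx0t, ← mul_smul, inv_mul_cancel, one_smul]
  have hstab : ∀ a : T, Pel p a ∧ F x = a • x →
      Pel p (x0 * a * x0⁻¹) ∧ F x = (x0 * a * x0⁻¹) • x := by
    rintro a ⟨ha, hax⟩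
    refine ⟨(pel_conj x0 a).2 ha, ?_⟩
    have hc := hcent a hax
    have hcs : (x0⁻¹ * a) • (x0⁻¹ • x) = x0⁻¹ • x := by
      apply F.injective
      rw [hF, hs, hc]
    have e1 : x0 * a * x0⁻¹ = x0 * (x0 * ((x0⁻¹ * a) * x0⁻¹)) := by group
    rw [e1, mul_smul, mul_smul x0 ((x0⁻¹ * a) * x0⁻¹), mul_smul (x0⁻¹ * a), hcs, ← mul_smul x0 x0⁻¹,
      mul_inv_cancel, one_smul, hx0t]
  let S := {a : T // Pel p a ∧ F x = a • x}
  let f : Function.End S := fun s => ⟨x0 * s.1 * x0⁻¹, hstab s.1 s.2⟩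
  have hf1 : ∀ (n : ℕ) (s : S), ((f ^ n) s : T) = x0 ^ n * s.1 * (x0 ^ n)⁻¹ := by
    intro n
    induction n with
    | zero =>
      intro s
      rw [pow_zero, pow_zero, one_mul, inv_one, mul_one]
      rfl
    | succ n ih =>
      intro s
      have h6 : (f ^ (n + 1)) s = f ((f ^ n) s) := by rw [pow_succ']; rfl
      rw [h6]
      change x0 * ((f ^ n) s : T) * x0⁻¹ = _
      rw [ih, pow_succ']
      group
  obtain ⟨n, hn⟩ := hx0p
  have hf : f ^ p ^ n = 1 := by
    funext s
    apply Subtype.ext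
    rw [hf1, hn, one_mul, inv_one, mul_one]
    rfl
  have h6 := Equiv.Perm.card_fixedPoints_modEq hf
  have h7 : Fintype.card (Function.fixedPoints f) = 1 := by
    rw [Fintype.card_eq_one_iff]
    have hx0S : Pel p x0 ∧ F x = x0 • x := ⟨⟨n, hn⟩, hx0t⟩
    refine ⟨⟨⟨x0, hx0S⟩, ?_⟩, ?_⟩
    · apply Subtype.ext
      change x0 * x0 * x0⁻¹ = x0
      group
    · rintro ⟨⟨a, ha, hax⟩, hfx⟩
      have h8 : x0 * a * x0⁻¹ = a := congrArg Subtype.val hfx
      have h9 : Commute x0 a := mul_inv_eq_iff_eq_mul.1 h8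
      obtain ⟨m, hm⟩ := ha
      have h11 : (x0⁻¹ * a) ^ p ^ (n + m) = 1 := by
        rw [h9.inv_left.mul_pow, inv_pow, pow_add, pow_mul x0, hn, one_pow, inv_one, one_mul,
          mul_comm (p ^ n), pow_mul, hm, one_pow]
      have h12 := hno _ (hcent a hax) ⟨_, h11⟩
      apply Subtype.ext
      apply Subtype.ext
      exact (inv_mul_eq_one.1 h12).symm
  rw [h7] at h6
  have h8 : Nat.card {y : T // Pel p y ∧ F x = y • x} = Fintype.card S :=
    Nat.card_eq_fintype_card
  rw [h8]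
  exact (Nat.modEq_iff_dvd).1 h6

end

end RtAux

open RtAux

theorem rot_lemma {p : ℕ} [Fact p.Prime] {T X : Type*} [Group T] [Finite T] [MulAction T X]
    [Fintype X] {r : ℕ} {F : Equiv.Perm X} (hF : ∀ (g : T) (x : X), F (g • x) = g • F x)
    {v : T} (hv : Pel p v) (hvc : ∀ g : T, v * g = g * v)
    (hFv : ∀ x, (F ^ p ^ r) x = v • x)
    (hst : ∀ x : X, ¬ p ∣ Nat.card (MulAction.stabilizer T x))
    {f : X → ℤ} (hf : ∀ (g : T) (x : X), f (g • x) = f x) (hfF : ∀ x, f (F x) = f x) :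
    (p : ℤ) * (ordProj[p] (Nat.card T) : ℕ) ∣
      ∑ x, f x * (1 - (Nat.card {y : T // Pel p y ∧ F x = y • x} : ℤ)) := by
  classical
  have hp : p.Prime := Fact.out
  let n : X → ℕ := fun x => Nat.card {y : T // Pel p y ∧ F x = y • x}
  let C : Subgroup (Equiv.Perm X) := Subgroup.zpowers F
  have hcomm : ∀ (g : T) (c : ↥C), Commute (MulAction.toPermHom T X g) (C.subtype c) := by
    rintro g ⟨c, k, rfl⟩
    refine Commute.zpow_right ?_ k
    exact Equiv.ext fun t => (hF g t).symm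
  let Ψ : T × ↥C →* Equiv.Perm X := MonoidHom.noncommCoprod (MulAction.toPermHom T X) C.subtype hcomm
  let _ : MulAction (T × ↥C) X := MulAction.compHom _ Ψ
  have hsm : ∀ (g : T) (c : ↥C) (t : X),
      ((g, c) : T × ↥C) • t = g • ((c : Equiv.Perm X) t) := fun _ _ _ => rfl
  have hn1 : ∀ (g : T) (x : X), n (g • x) = n x := by
    intro g x
    refine (Nat.card_congr (Equiv.subtypeEquiv (MulAut.conj g).toEquiv fun y => ?_)).symm
    change _ ↔ Pel p (g * y * g⁻¹) ∧ F (g • x) = (g * y * g⁻¹) • (g • x)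
    rw [RtAux.pel_conj, hF, ← mul_smul]
    refine and_congr Iff.rfl ?_
    have h1 : g * y * g⁻¹ * g = g * y := by group
    rw [h1, mul_smul]
    exact ⟨fun h => congrArg _ h, fun h => MulAction.injective g h⟩
  have hn2 : ∀ x : X, n (F x) = n x := by
    intro x
    refine Nat.card_congr (Equiv.subtypeEquivRight fun y => and_congr Iff.rfl ?_)
    rw [← hF]
    exact ⟨fun h => F.injective h, fun h => congrArg F h⟩
  have hpowinv : ∀ (g : X → ℤ), (∀ x, g (F x) = g x) → ∀ (k : ℤ) (x : X), g ((F ^ k) x) = g x := by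
    intro g hg
    have h1 : ∀ (n : ℕ) (t : X), g ((F ^ n) t) = g t := by
      intro n
      induction n with
      | zero => intro t; rfl
      | succ n ih =>
        intro t
        rw [pow_succ, Equiv.Perm.mul_apply, ih, hg]
    intro k t
    obtain ⟨n, rfl | rfl⟩ := k.eq_nat_or_neg
    · rw [zpow_natCast, h1]
    · rw [← h1 n ((F ^ (-(n : ℤ))) t), ← Equiv.Perm.mul_apply, zpow_neg, zpow_natCast,
        mul_inv_cancel]
      rfl
  have key := orb_dvd_p (p := p) (T := T × ↥C) (X := X)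
    (fun t => ((ordProj[p] (Nat.card C) : ℕ) : ℤ) * (f t * (1 - (n t : ℤ)))) ?_ (p : ℤ) ?_
  · rw [← Finset.mul_sum, Nat.card_prod, Nat.ordProj_mul p Nat.card_pos.ne' Nat.card_pos.ne'] at key
    have h1 : (((ordProj[p] (Nat.card C) : ℕ) : ℤ)) ≠ 0 := by
      exact_mod_cast (Nat.ordProj_pos (Nat.card C) p).ne'
    have h2 : (p : ℤ) * ((ordProj[p] (Nat.card T) * ordProj[p] (Nat.card C) : ℕ) : ℤ)
        = ((ordProj[p] (Nat.card C) : ℕ) : ℤ) * ((p : ℤ) * (ordProj[p] (Nat.card T) : ℕ)) := by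
      push_cast
      ring
    rw [h2] at key
    exact (mul_dvd_mul_iff_left h1).1 key
  · rintro ⟨g, c, k, rfl⟩ t
    simp only [hsm]
    rw [hf, hn1, hpowinv f hfF]
    congr 3
    have h1 := hpowinv (fun x => (n x : ℤ)) (fun x => by rw [hn2]) k t
    exact h1
  · intro t
    let S : Subgroup (T × ↥C) := MulAction.stabilizer (T × ↥C) t
    let π : ↥S →* ↥C := (MonoidHom.snd T ↥C).comp S.subtype
    have hπ : ∀ s : ↥S, π s = (s : T × ↥C).2 := fun s => rfl
    have hker : ¬ p ∣ Nat.card π.ker := by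
      intro h1
      obtain ⟨s, hs⟩ := exists_prime_orderOf_dvd_card' p h1
      have h2 : ((s : ↥S) : T × ↥C).2 = 1 := s.2
      have h3 : (((s : ↥S) : T × ↥C)) • t = t := (s : ↥S).2
      have h4 : ((s : ↥S) : T × ↥C).1 • t = t := by
        have h5 := hsm ((s : ↥S) : T × ↥C).1 ((s : ↥S) : T × ↥C).2 t
        rw [h2] at h5
        rw [← Prod.mk.eta (p := ((s : ↥S) : T × ↥C)), h2] at h3
        exact h5.symm.trans h3
      have h5 : ((s : ↥S) : T × ↥C).1 ^ p = 1 := by
        have h6 : s ^ p = 1 := by rw [← hs]; exact pow_orderOf_eq_one s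
        have h7 := congrArg (fun s : ↥π.ker => ((s : ↥S) : T × ↥C).1) h6
        simpa using h7
      have h6 : ((s : ↥S) : T × ↥C).1 ≠ 1 := by
        intro h7
        have h8 : s = 1 := Subtype.ext (Subtype.ext (Prod.ext h7 h2))
        rw [h8, orderOf_one] at hs
        exact hp.one_lt.ne hs
      have h7 : orderOf (⟨((s : ↥S) : T × ↥C).1, h4⟩ : MulAction.stabilizer T t) = p := by
        refine orderOf_eq_prime (Subtype.ext h5) fun h8 => h6 (congrArg Subtype.val h8)
      exact hst t (h7 ▸ orderOf_dvd_natCard _)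
    let E0 : ↥C := ⟨F, Subgroup.mem_zpowers F⟩
    have hcm : ∀ a b : ↥C, a * b = b * a := by
      rintro ⟨a, i, rfl⟩ ⟨b, j, rfl⟩
      apply Subtype.ext
      exact zpow_mul_comm F i j
    have hN : π.range.Normal := ⟨fun n hn g => by
      rw [hcm g n, mul_inv_cancel_right]
      exact hn⟩
    have h1 : Nat.card ↥S = Nat.card π.ker * Nat.card π.range := by
      rw [← Subgroup.index_ker, Subgroup.card_mul_index]
    by_cases hfix : ∃ h : T, F t = h • t
    · obtain ⟨h, hh⟩ := hfix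
      obtain ⟨q, hq⟩ := n_mod hF hv hvc (hFv t) (hst t) hh
      have h2 := RotPAux.arith' hp h1 hker π.range.index_ne_zero_of_finite Nat.card_pos.ne'
      rw [Subgroup.card_mul_index] at h2
      obtain ⟨i, hi⟩ := h2
      change _ ∣ ((ordProj[p] (Nat.card C) : ℕ) : ℤ) *
        (f t * (1 - (Nat.card {y : T // Pel p y ∧ F t = y • t} : ℤ)))
      rw [hq, hi]
      refine ⟨i * (f t * q), ?_⟩
      push_cast
      ring
    · have hn0 : n t = 0 := by
        change Nat.card {y : T // Pel p y ∧ F t = y • t} = 0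
        rw [Nat.card_eq_zero]
        left
        exact ⟨fun y => hfix ⟨y.1, y.2.2⟩⟩
      have hidx : p ∣ π.range.index := by
        have h1 : E0 ^ p ^ r ∈ π.range := by
          refine ⟨⟨(v⁻¹, E0 ^ p ^ r), ?_⟩, rfl⟩
          change v⁻¹ • ((F ^ p ^ r) t) = t
          rw [hFv, ← mul_smul, inv_mul_cancel, one_smul]
        have h2 : E0 ∉ π.range := by
          rintro ⟨s, hs⟩
          rw [hπ] at hs
          have h3 : ((s : T × ↥C)) • t = t := s.2
          have h4 := hsm (s : T × ↥C).1 (s : T × ↥C).2 t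
          rw [Prod.mk.eta, h3, hs] at h4
          have h5 : t = (s : T × ↥C).1 • F t := h4
          refine hfix ⟨((s : T × ↥C).1)⁻¹, ?_⟩
          rw [eq_inv_smul_iff]
          exact h5.symm
        have h3 : (QuotientGroup.mk E0 : ↥C ⧸ π.range) ^ p ^ r = 1 := by
          rw [← QuotientGroup.mk_pow, QuotientGroup.eq_one_iff]
          exact h1
        obtain ⟨j, _, hj⟩ := (Nat.dvd_prime_pow hp).1 (orderOf_dvd_of_pow_eq_one h3)
        have h4 : j ≠ 0 := by
          rintro rfl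
          rw [pow_zero, orderOf_eq_one_iff, QuotientGroup.eq_one_iff] at hj
          exact h2 hj
        have h5 : p ∣ orderOf (QuotientGroup.mk E0 : ↥C ⧸ π.range) := by
          rw [hj]
          exact dvd_pow_self p h4
        exact h5.trans (orderOf_dvd_natCard _)
      have h2 := arith hp h1 hker hidx Nat.card_pos.ne' π.range.index_ne_zero_of_finite
      rw [Subgroup.card_mul_index] at h2
      refine Dvd.dvd.mul_right ?_ _
      exact_mod_cast h2

end Pool.Agent.Lib.P0c8ca5.Id
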