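import Mathlib
import Pool.Agent.Lib.P0c8ca5Id.Cnt
import Pool.Agent.Lib.P0c8ca5Id.Rt
import Pool.Agent.Lib.P0c8ca5Id.Rs
import Pool.Agent.Lib.P0c8ca5V.Par
import Pool.Agent.Lib.P0c8ca5V.GalF
import Pool.Agent.Lib.P0c8ca5V.THpA

/-! The divisibility for `w` if the p-part of `w` has no rational root in the centralizer of `w`. -/

namespace Pool.Agent.Lib.P0c8ca5.Id

open RotAux

/-- the p-part of `w` has order dividing `p` and no `q`-th root that is rational in the centralizer
of `w` -/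
def Gr (p q : ℕ) {A : Type*} [Group A] (w : A) : Prop :=
  (w * (pr p w)⁻¹) ^ p = 1 ∧ ∀ y : A, Commute y w → y ^ q = w * (pr p w)⁻¹ →
    ¬ ∀ j : ℕ, j ≡ 1 [MOD p] → ∃ g : A, Commute g w ∧ g * y * g⁻¹ = y ^ j

namespace KrAux

section
variable {p : ℕ} [Fact p.Prime] {A : Type*} [Group A] [Finite A]

theorem cm_d {w x : A} (h : Commute x w) : Commute x (pr p w) := by
  unfold pr
  exact h.pow_right _

theorem cm_u {w x : A} (h : Commute x w) : Commute x (w * (pr p w)⁻¹) :=
  h.mul_right (cm_d h).inv_right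

theorem ud_eq (w : A) : w * (pr p w)⁻¹ * pr p w = w := by group

theorem pel_u (w : A) : Pel p (w * (pr p w)⁻¹) := exists_pow_mul_inv_pr w

theorem exists_d0 {r : ℕ} (w : A) : ∃ d0 : A, d0 ^ p ^ r = pr p w ∧ Preg p d0 ∧
    (∀ x : A, Commute x w → Commute x d0) ∧ d0 ∈ Subgroup.zpowers w := by
  have hp : p.Prime := Fact.out
  have h1 : (p ^ r).Coprime (orderOf (pr p w)) :=
    Nat.Coprime.pow_left _ ((Nat.Prime.coprime_iff_not_dvd hp).2 (preg_pr w))
  obtain ⟨m, hm⟩ := exists_pow_eq_self_of_coprime h1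
  refine ⟨pr p w ^ m, ?_, ?_, fun x hx => (cm_d hx).pow_right m, ?_⟩
  · rw [← pow_mul, mul_comm, pow_mul, hm]
  · unfold Preg
    intro h2
    exact preg_pr w (h2.trans (orderOf_pow_dvd m))
  · refine Subgroup.pow_mem _ ?_ m
    unfold pr
    exact Subgroup.pow_mem _ (Subgroup.mem_zpowers w) _

end

section
variable {p : ℕ} [Fact p.Prime] {A : Type*} [Group A] [Finite A]
variable {r s : ℕ} {E : A × A × A → A × A × A} {T : A → A → A × A × A}

theorem E_inj (hE : IsRot (p ^ r) E) : Function.Injective E := RotPAux.E_inj hE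

/-- the group generated by a fixed triple -/
theorem opr_iff2 (hE : IsRot (p ^ r) E) (hT : IsPar (p ^ r) s E T) {x z : A}
    (hz : z ^ s = 1) :
    Opr p (⊤ : Subgroup A) ≤ gen (T x z) ↔
      Opr p (⊤ : Subgroup A) ≤ Subgroup.closure {x, z} := by
  refine ⟨fun h => h.trans (hT.le x z), fun h => ?_⟩
  have hn := ParAux.norm_gen hE (hT.fix x z hz)
  have hxK : x ^ p ^ r ∈ gen (T x z) := by
    rw [← hT.u x z hz]
    have h1 : (T x z).1 ∈ gen (T x z) := Subgroup.subset_closure (by simp)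
    have h2 : (T x z).2.1 ∈ gen (T x z) := Subgroup.subset_closure (by simp)
    have h3 : (T x z).2.2 ∈ gen (T x z) := Subgroup.subset_closure (by simp)
    exact mul_mem (mul_mem (mul_mem (mul_mem h1 h2) (inv_mem h1)) (inv_mem h2)) h3
  have h1 : Subgroup.closure {x, z} ≤ ParAux.ext (gen (T x z)) x hn := by
    rw [Subgroup.closure_le]
    rintro y (rfl | rfl)
    · exact ⟨-1, by simp⟩
    · obtain ⟨i, hi⟩ := hT.zz x y
      refine ⟨i, ?_⟩
      have h2 : x ^ (-i) * (x ^ i * y) * (x ^ (-i))⁻¹ ∈ gen (T x y) :=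
        (Subgroup.mem_normalizer_iff.1 (zpow_mem hn _) _).1 hi
      have h3 : y * x ^ i = x ^ (-i) * (x ^ i * y) * (x ^ (-i))⁻¹ := by
        rw [zpow_neg]
        group
      rw [h3]
      exact h2
  have h2 : Opr p (⊤ : Subgroup A) = Subgroup.closure {y | y ∈ (⊤ : Subgroup A) ∧ Preg p y} := rfl
  rw [h2, Subgroup.closure_le]
  rintro y ⟨_, hy⟩
  have h3 : y ∈ Opr p (⊤ : Subgroup A) := Subgroup.subset_closure ⟨Subgroup.mem_top y, hy⟩
  obtain ⟨i, hi⟩ := h1 (h h3)
  have h4 := ParAux.pow_mem_of hn hi (p ^ r)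
  have h5 : x ^ (i * ((p ^ r : ℕ) : ℤ)) ∈ gen (T x z) := by
    rw [mul_comm, zpow_mul, zpow_natCast]
    exact Subgroup.zpow_mem _ hxK i
  have h6 : y ^ p ^ r ∈ gen (T x z) := by
    have h7 := mul_mem h4 (inv_mem h5)
    rwa [mul_inv_cancel_right] at h7
  exact mem_of_preg hy h6

end

section
variable {p : ℕ} [Fact p.Prime] {A : Type*} [Group A] [Fintype A]
variable {r s : ℕ} {E : A × A × A → A × A × A} {T : A → A → A × A × A}

theorem memC {w x : A} : x ∈ Subgroup.centralizer ({w} : Set A) ↔ Commute x w := by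
  rw [Subgroup.mem_centralizer_singleton_iff]
  exact Iff.rfl

/-- the action of the centralizer of `w` on the triples -/
@[reducible] def actW (p : ℕ) (w : A) : MulAction (Subgroup.centralizer ({w} : Set A))
    {t : A × A × A // uu t = w ∧ Opr p (⊤ : Subgroup A) ≤ gen t} where
  smul g t := ⟨cj3 (g : A) t.1, by
    refine ⟨?_, ?_⟩
    · rw [uu_cj3', t.2.1]
      have h1 : Commute (g : A) w := memC.1 g.2
      rw [h1.eq, mul_inv_cancel_right]
    · rw [gen_cj3]
      conv_lhs => rw [← map_Opr_top (p := p) (g : A)]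
      exact Subgroup.map_mono t.2.2⟩
  one_smul t := Subtype.ext (cj3_one t.1)
  mul_smul g h t := Subtype.ext (cj3_mul (g : A) (h : A) t.1)

open Classical in
/-- the function of the roots -/
noncomputable def ph (p q s : ℕ) (m : A → ℤ) (w d0 : A)
    (y : ↥(Subgroup.centralizer ({w} : Set A))) : ℤ :=
  if (y : A) ^ q = w * (pr p w)⁻¹ then GalD.phP p q s m (d0 * y) else 0

theorem w_of {q : ℕ} {w d0 y : A} (hd0 : d0 ^ q = pr p w) (hc : Commute y d0)
    (hy : y ^ q = w * (pr p w)⁻¹) : (d0 * y) ^ q = w := by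
  have h1 : Commute d0 y := hc.symm
  rw [h1.mul_pow, hd0, hy]
  have h2 : Commute (pr p w) w := (cm_d (Commute.refl w)).symm
  rw [← mul_assoc, h2.eq, mul_assoc, mul_inv_cancel, mul_one]

open Classical in
/-- The number of triples in terms of the roots. -/
theorem step1 (hE : IsRot (p ^ r) E) (hT : IsPar (p ^ r) s E T)
    (hO : NoP p (⊤ : Subgroup A)) {w d0 : A} (hd0 : d0 ^ p ^ r = pr p w)
    (hdc : ∀ x : A, Commute x w → Commute x d0)
    {m : A → ℤ} (hm : IsWt p ⊤ m) :
    (p : ℤ) * (ordProj[p] (Nat.card (Subgroup.centralizer ({w} : Set A))) : ℕ) ∣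
      nW p m w - ∑ y : ↥(Subgroup.centralizer ({w} : Set A)), ph p (p ^ r) s m w d0 y := by
  classical
  have hp : p.Prime := Fact.out
  let X := {t : A × A × A // uu t = w ∧ Opr p (⊤ : Subgroup A) ≤ gen t}
  let C := Subgroup.centralizer ({w} : Set A)
  letI : MulAction C X := actW p w
  have hsm : ∀ (g : C) (t : X), ((g • t : X) : A × A × A) = cj3 (g : A) t.1 := fun _ _ => rfl
  have hEi := RotPAux.E_inj hE
  have hwd : Commute w d0 := hdc w (Commute.refl w)
  let F0 : X → X := fun t => ⟨cj3 d0⁻¹ (E t.1), by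
    refine ⟨?_, ?_⟩
    · rw [uu_cj3', hE.u, t.2.1, inv_inv]
      have h1 : Commute d0⁻¹ w := hwd.symm.inv_left
      rw [h1.eq, inv_mul_cancel_right]
    · rw [gen_cj3, hE.gn]
      conv_lhs => rw [← map_Opr_top (p := p) d0⁻¹]
      exact Subgroup.map_mono t.2.2⟩
  have hF0 : Function.Injective F0 := by
    intro t t' h
    have h1 : cj3 d0⁻¹ (E t.1) = cj3 d0⁻¹ (E t'.1) := congrArg Subtype.val h
    exact Subtype.ext (hEi ((cjP d0⁻¹).injective h1))
  let F : Equiv.Perm X := Equiv.ofBijective F0 (Finite.injective_iff_bijective.1 hF0)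
  have hFv : ∀ t : X, ((F t : X) : A × A × A) = cj3 d0⁻¹ (E t.1) := fun _ => rfl
  have hFc : ∀ (g : C) (t : X), F (g • t) = g • F t := by
    intro g t
    apply Subtype.ext
    rw [hFv, hsm, hE.cj, ← cj3_mul, hsm, hFv, ← cj3_mul]
    congr 1
    exact ((hdc g (memC.1 g.2)).inv_right).symm.eq
  have hpow : ∀ (n : ℕ) (t : X), (((F ^ n) t : X) : A × A × A) = cj3 (d0⁻¹ ^ n) (E^[n] t.1) := by
    intro n
    induction n with
    | zero =>
      intro t
      rw [pow_zero, pow_zero, cj3_one]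
      rfl
    | succ n ih =>
      intro t
      rw [pow_succ', Equiv.Perm.mul_apply, hFv, ih, hE.cj, ← cj3_mul, ← pow_succ',
        Function.iterate_succ_apply']
  have huC : w * (pr p w)⁻¹ ∈ C := memC.2 (cm_u (Commute.refl w)).symm
  let v : C := ⟨w * (pr p w)⁻¹, huC⟩
  have hv : Pel p v := by
    obtain ⟨n, hn⟩ := pel_u (p := p) w
    exact ⟨n, Subtype.ext hn⟩
  have hvc : ∀ g : C, v * g = g * v := by
    intro g
    apply Subtype.ext
    exact ((cm_u (p := p) (memC.1 g.2)).symm).eq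
  have hFq : ∀ t : X, (F ^ p ^ r) t = v • t := by
    intro t
    apply Subtype.ext
    rw [hpow, hE.pow, t.2.1, hsm, ← cj3_mul]
    congr 1
    rw [inv_pow, hd0]
    exact ((cm_d (p := p) (Commute.refl w)).inv_right).symm.eq
  have hst : ∀ t : X, ¬ p ∣ Nat.card (MulAction.stabilizer C t) := by
    intro t h2
    obtain ⟨g, hg⟩ := exists_prime_orderOf_dvd_card' p h2
    have h3 : cj3 ((g : C) : A) t.1 = t.1 := congrArg Subtype.val (g.2 : (g : C) • t = t)
    refine no_p_cent hO t.2.2 h3 ?_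
    rw [Subgroup.orderOf_coe, Subgroup.orderOf_coe, hg]
  let f : X → ℤ := fun t => m t.1.2.2
  have hf : ∀ (g : C) (t : X), f (g • t) = f t := fun g t => hm.conj (g : A) (Subgroup.mem_top _) _
  have hfF : ∀ t, f (F t) = f t := by
    intro t
    obtain ⟨g, hg⟩ := hE.c t.1
    change m (cj3 d0⁻¹ (E t.1)).2.2 = m t.1.2.2
    have h1 : (cj3 d0⁻¹ (E t.1)).2.2 = d0⁻¹ * (E t.1).2.2 * d0⁻¹⁻¹ := rfl
    rw [h1, hm.conj _ (Subgroup.mem_top _), hg, hm.conj _ (Subgroup.mem_top _)]
  have key := rot_lemma (p := p) (r := r) hFc hv hvc hFq hst hf hfF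
  have e1 : ∑ t : X, f t = nW p m w := by
    unfold nW
    rw [finsum_eq_sum_of_fintype, ← Finset.sum_filter]
    exact (Finset.sum_subtype (Finset.univ.filter fun t : A × A × A => cmt t.1 t.2.1 * t.2.2 = w ∧
      Opr p (⊤ : Subgroup A) ≤ gen t) (p := fun t => uu t = w ∧ Opr p (⊤ : Subgroup A) ≤ gen t)
      (fun t => by
        rw [Finset.mem_filter]
        exact ⟨fun h => h.2, fun h => ⟨Finset.mem_univ _, h⟩⟩) (fun t => m t.2.2)).symm
  have e2 : ∑ t : X, f t * (Nat.card {y : C // Pel p y ∧ F t = y • t} : ℤ)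
      = ∑ y : C, ph p (p ^ r) s m w d0 y := by
    have h1 : ∀ t : X, f t * (Nat.card {y : C // Pel p y ∧ F t = y • t} : ℤ)
        = ∑ y : C, if Pel p y ∧ F t = y • t then f t else 0 := by
      intro t
      rw [← Finset.sum_filter, Finset.sum_const, nsmul_eq_mul, mul_comm, Nat.card_eq_fintype_card,
        Fintype.card_subtype]
    rw [Finset.sum_congr rfl fun t _ => h1 t, Finset.sum_comm]
    refine Finset.sum_congr rfl fun y _ => ?_
    have hyw : Commute (y : A) w := memC.1 y.2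
    have hyd : Commute (y : A) d0 := hdc _ hyw
    have hiff : ∀ t : X, F t = y • t ↔ E t.1 = cj3 (d0 * y) t.1 := by
      intro t
      rw [Subtype.ext_iff, hFv, hsm]
      constructor
      · intro h
        have h2 := congrArg (cj3 d0) h
        rwa [← cj3_mul, mul_inv_cancel, cj3_one, ← cj3_mul] at h2
      · intro h
        rw [h, ← cj3_mul, inv_mul_cancel_left]
    unfold ph
    by_cases hyq : (y : A) ^ p ^ r = w * (pr p w)⁻¹
    · rw [if_pos hyq]
      have hyp : Pel p y := by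
        obtain ⟨n, hn⟩ := pel_u (p := p) w
        refine ⟨r + n, Subtype.ext ?_⟩
        rw [Subgroup.coe_pow, pow_add, pow_mul, hyq, hn]
        rfl
      have haq : (d0 * (y : A)) ^ p ^ r = w := w_of hd0 hyd hyq
      have h2 : ∑ t : X, (if Pel p y ∧ F t = y • t then f t else 0)
          = ∑ t : A × A × A, if (uu t = w ∧ Opr p (⊤ : Subgroup A) ≤ gen t) ∧
            E t = cj3 (d0 * y) t then m t.2.2 else 0 := by
        have h3 : ∀ t : X, (if Pel p y ∧ F t = y • t then f t else 0)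
            = (fun t : A × A × A => if E t = cj3 (d0 * y) t then m t.2.2 else 0) t.1 := by
          intro t
          exact if_congr ⟨fun h => (hiff t).1 h.2, fun h => ⟨hyp, (hiff t).2 h⟩⟩ rfl rfl
        rw [Finset.sum_congr rfl fun t _ => h3 t,
          ← Finset.sum_subtype (Finset.univ.filter fun t : A × A × A => uu t = w ∧
            Opr p (⊤ : Subgroup A) ≤ gen t)
          (p := fun t => uu t = w ∧ Opr p (⊤ : Subgroup A) ≤ gen t)
          (fun t => by
            rw [Finset.mem_filter]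
            exact ⟨fun h => h.2, fun h => ⟨Finset.mem_univ _, h⟩⟩)
          (fun t : A × A × A => if E t = cj3 (d0 * y) t then m t.2.2 else 0), Finset.sum_filter]
        refine Finset.sum_congr rfl fun t _ => ?_
        by_cases h4 : uu t = w ∧ Opr p (⊤ : Subgroup A) ≤ gen t
        · rw [if_pos h4]
          exact if_congr ⟨fun h => ⟨h4, h⟩, fun h => h.2⟩ rfl rfl
        · rw [if_neg h4, if_neg (fun h => h4 h.1)]
      rw [h2]
      unfold GalD.phP
      have h3 : ∀ z : A, (if z ^ s = 1 ∧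
          Opr p (⊤ : Subgroup A) ≤ Subgroup.closure {d0 * (y : A), z} then
            m ((d0 * (y : A) * z) ^ p ^ r) else 0)
          = if z ^ s = 1 then (fun t : A × A × A => if (uu t = w ∧
            Opr p (⊤ : Subgroup A) ≤ gen t) ∧
            E t = cj3 (d0 * y) t then m t.2.2 else 0) (T (d0 * y) z) else 0 := by
        intro z
        by_cases hz : z ^ s = 1
        · rw [if_pos hz]
          obtain ⟨g, hg⟩ := hT.cc (d0 * y) z hz
          have h4 : m (T (d0 * (y : A)) z).2.2 = m ((d0 * (y : A) * z) ^ p ^ r) := by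
            rw [hg, hm.conj g (Subgroup.mem_top g)]
          change _ = if (uu (T (d0 * (y : A)) z) = w ∧
            Opr p (⊤ : Subgroup A) ≤ gen (T (d0 * (y : A)) z)) ∧
            E (T (d0 * (y : A)) z) = cj3 (d0 * y) (T (d0 * (y : A)) z) then
              m (T (d0 * (y : A)) z).2.2 else 0
          rw [h4, hT.u _ _ hz, haq, opr_iff2 hE hT hz, hT.fix _ _ hz]
          exact if_congr ⟨fun h => ⟨⟨rfl, h.2⟩, rfl⟩, fun h => ⟨hz, h.1.2⟩⟩ rfl rfl
        · rw [if_neg hz, if_neg (fun h => hz h.1)]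
      rw [Finset.sum_congr rfl fun z _ => h3 z]
      set G : A × A × A → ℤ := fun t : A × A × A => if (uu t = w ∧
            Opr p (⊤ : Subgroup A) ≤ gen t) ∧
            E t = cj3 (d0 * y) t then m t.2.2 else 0 with hG
      have h7 : ∑ z : A, (if z ^ s = 1 then G (T (d0 * y) z) else 0)
          = ∑ z ∈ Finset.univ.filter (fun z : A => z ^ s = 1), G (T (d0 * y) z) :=
        (Finset.sum_filter _ _).symm
      have h8 : ∑ z ∈ Finset.univ.filter (fun z : A => z ^ s = 1), G (T (d0 * y) z)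
          = ∑ t ∈ (Finset.univ.filter (fun z : A => z ^ s = 1)).image
            (fun z => T (d0 * (y : A)) z), G t :=
        (Finset.sum_image (fun z _ z' _ h => hT.inj (d0 * (y : A)) z z' h)).symm
      rw [h7, h8]
      symm
      refine Finset.sum_subset (Finset.subset_univ _) fun t _ ht => ?_
      refine if_neg fun h4 => ?_
      obtain ⟨z, hz, hz'⟩ := hT.surj (d0 * y) t h4.2 (by rw [h4.1.1, haq])
      exact ht (Finset.mem_image.2 ⟨z, Finset.mem_filter.2 ⟨Finset.mem_univ z, hz⟩, hz'.symm⟩)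
    · rw [if_neg hyq]
      refine Finset.sum_eq_zero fun t _ => if_neg ?_
      rintro ⟨hyp, hyt⟩
      apply hyq
      have h3 : (v⁻¹ * y ^ p ^ r) • t = t := by
        rw [mul_smul, ← RtAux.iter hFc hyt, hFq, ← mul_smul, inv_mul_cancel, one_smul]
      have hvy : Commute v y := hvc y
      have h4 : Pel p (v⁻¹ * y ^ p ^ r) := by
        obtain ⟨n, hn⟩ := hv
        obtain ⟨l, hl⟩ := hyp
        refine ⟨n + l, ?_⟩
        have h5 : Commute v⁻¹ (y ^ p ^ r) := (hvy.inv_left).pow_right _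
        rw [h5.mul_pow, inv_pow, pow_add, pow_mul v, hn, one_pow, inv_one, one_mul,
          mul_comm (p ^ n), ← pow_mul, mul_comm (p ^ r), pow_mul, pow_mul, hl, one_pow, one_pow]
      have h5 : (v⁻¹ * y ^ p ^ r : C) = 1 := by
        obtain ⟨n, hn⟩ := h4
        have h6 : orderOf (⟨v⁻¹ * y ^ p ^ r, h3⟩ : MulAction.stabilizer C t) ∣ p ^ n :=
          orderOf_dvd_of_pow_eq_one (Subtype.ext hn)
        have h7 : orderOf (⟨v⁻¹ * y ^ p ^ r, h3⟩ : MulAction.stabilizer C t) ∣
          Nat.card (MulAction.stabilizer C t) := orderOf_dvd_natCard _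
        have h8 : Nat.Coprime (p ^ n) (Nat.card (MulAction.stabilizer C t)) :=
          Nat.Coprime.pow_left n ((Nat.Prime.coprime_iff_not_dvd hp).2 (hst t))
        have h9 : orderOf (⟨v⁻¹ * y ^ p ^ r, h3⟩ : MulAction.stabilizer C t) = 1 :=
          Nat.dvd_one.1 (h8 ▸ Nat.dvd_gcd h6 h7)
        exact congrArg Subtype.val (orderOf_eq_one_iff.1 h9)
      have h6 := congrArg Subtype.val (inv_mul_eq_one.1 h5)
      exact h6.symm
  have e3 : ∑ t : X, f t * (1 - (Nat.card {y : C // Pel p y ∧ F t = y • t} : ℤ))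
      = nW p m w - ∑ y : C, ph p (p ^ r) s m w d0 y := by
    rw [← e1, ← e2, ← Finset.sum_sub_distrib]
    refine Finset.sum_congr rfl fun t _ => ?_
    ring
  rw [e3] at key
  exact key

open Classical in
/-- The roots which are not rational do not count. -/
theorem step2 {q : ℕ} (hq : ∃ r, q = p ^ r) (hO : NoP p (⊤ : Subgroup A)) {w d0 : A}
    (hd0 : d0 ^ q = pr p w) (hdr : Preg p d0)
    (hdc : ∀ x : A, Commute x w → Commute x d0) (hw : Gr p q w)
    {m : A → ℤ} (hm : IsWt p ⊤ m) :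
    (p : ℤ) * (ordProj[p] (Nat.card (Subgroup.centralizer ({w} : Set A))) : ℕ) ∣
      ∑ y : ↥(Subgroup.centralizer ({w} : Set A)), ph p q s m w d0 y := by
  classical
  have hp : p.Prime := Fact.out
  obtain ⟨r, rfl⟩ := hq
  have hpel : ∀ y : ↥(Subgroup.centralizer ({w} : Set A)),
      (y : A) ^ p ^ r = w * (pr p w)⁻¹ → Pel p y := by
    intro y hyq
    obtain ⟨n, hn⟩ := pel_u (p := p) w
    refine ⟨r + n, Subtype.ext ?_⟩
    rw [Subgroup.coe_pow, pow_add, pow_mul, hyq, hn]
    rfl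
  have hu1 : w * (pr p w)⁻¹ ≠ 1 := by
    intro h
    refine hw.2 1 (Commute.one_left w) (by rw [one_pow, h]) ?_
    intro j _
    exact ⟨1, Commute.one_left w, by simp⟩
  have hpA : p ∣ Nat.card A := by
    have h1 : orderOf (w * (pr p w)⁻¹) = p := orderOf_eq_prime hw.1 hu1
    rw [← h1]
    exact orderOf_dvd_natCard _
  have h := rat_sum1 (p := p) (A := ↥(Subgroup.centralizer ({w} : Set A)))
    (φ := ph p (p ^ r) s m w d0) (fun c y => ?_) (fun y hy => ?_) (fun j hj hj1 y => ?_)
    (fun y hy => ?_)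
  · have h1 : ∀ y : ↥(Subgroup.centralizer ({w} : Set A)),
        (if PRat p y then 0 else ph p (p ^ r) s m w d0 y) = ph p (p ^ r) s m w d0 y := by
      intro y
      by_cases h2 : PRat p y
      · rw [if_pos h2]
        unfold ph
        rw [if_neg]
        intro h3
        refine hw.2 y (memC.1 y.2) h3 fun j hj => ?_
        obtain ⟨c, hc⟩ := isConj_iff.1 (h2 j hj)
        exact ⟨c, memC.1 c.2, congrArg Subtype.val hc⟩
      · rw [if_neg h2]
    rw [Finset.sum_congr rfl fun y _ => h1 y] at h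
    exact h
  · have hcw : Commute (c : A) w := memC.1 c.2
    unfold ph
    have h1 : ((c * y * c⁻¹ : ↥(Subgroup.centralizer ({w} : Set A))) : A)
        = (c : A) * y * (c : A)⁻¹ := rfl
    rw [h1, conj_pow]
    have h2 : (c : A) * (y : A) ^ p ^ r * (c : A)⁻¹ = w * (pr p w)⁻¹ ↔
        (y : A) ^ p ^ r = w * (pr p w)⁻¹ := by
      have h3 : Commute (c : A) (w * (pr p w)⁻¹) := cm_u hcw
      rw [mul_inv_eq_iff_eq_mul, ← h3.eq]
      exact ⟨fun h => mul_left_cancel h, fun h => by rw [h]⟩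
    have h4 : d0 * ((c : A) * y * (c : A)⁻¹) = (c : A) * (d0 * y) * (c : A)⁻¹ := by
      have h5 : Commute (c : A) d0 := hdc _ hcw
      rw [← mul_assoc, ← mul_assoc, ← h5.eq, mul_assoc (c : A) d0]
    rw [h4, GalD.phP_conj hm]
    exact if_congr h2 rfl rfl
  · unfold ph at hy
    by_contra h2
    exact hy (if_neg fun h3 => h2 (hpel y h3))
  · unfold ph
    by_cases h1 : (y : A) ^ p ^ r = w * (pr p w)⁻¹
    · have hvj : (w * (pr p w)⁻¹) ^ j = w * (pr p w)⁻¹ := by
        conv_rhs => rw [← pow_one (w * (pr p w)⁻¹)]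
        rw [pow_eq_pow_iff_modEq]
        exact hj1.of_dvd (orderOf_dvd_of_pow_eq_one hw.1)
      have h2 : ((y ^ j : ↥(Subgroup.centralizer ({w} : Set A))) : A) ^ p ^ r
          = w * (pr p w)⁻¹ := by
        rw [Subgroup.coe_pow, ← pow_mul, mul_comm, pow_mul, h1, hvj]
      rw [if_pos h1, if_pos h2]
      obtain ⟨i, hi1, hi2, hi3⟩ := GalE.exists_galJ hpA hj1
      have hyp : Pel p (y : A) := by
        obtain ⟨n, hn⟩ := hpel y h1
        exact ⟨n, congrArg Subtype.val hn⟩
      have h3 : d0 ^ i = d0 := by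
        conv_rhs => rw [← pow_one d0]
        rw [pow_eq_pow_iff_modEq]
        exact hi1.2.of_dvd (orderOf_dvd_ordCompl hdr)
      have h4 : d0 * ((y ^ j : ↥(Subgroup.centralizer ({w} : Set A))) : A) = (d0 * y) ^ i := by
        have h5 : Commute d0 (y : A) := (hdc _ (memC.1 y.2)).symm
        rw [h5.mul_pow, h3, hi3 _ hyp, Subgroup.coe_pow]
      rw [h4, GalD.phP_pow hm hi1]
    · rw [if_neg h1, if_neg]
      intro h2
      apply h1
      have hvj : (w * (pr p w)⁻¹) ^ j = w * (pr p w)⁻¹ := by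
        conv_rhs => rw [← pow_one (w * (pr p w)⁻¹)]
        rw [pow_eq_pow_iff_modEq]
        exact hj1.of_dvd (orderOf_dvd_of_pow_eq_one hw.1)
      rw [Subgroup.coe_pow, ← pow_mul, mul_comm, pow_mul] at h2
      rw [← hvj] at h2
      have huC : w * (pr p w)⁻¹ ∈ Subgroup.centralizer ({w} : Set A) :=
        memC.2 (cm_u (Commute.refl w)).symm
      have h3 : (powCoprime hj.1) (y ^ p ^ r) = (powCoprime hj.1)
          (⟨w * (pr p w)⁻¹, huC⟩ : ↥(Subgroup.centralizer ({w} : Set A))) := by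
        apply Subtype.ext
        exact h2
      exact congrArg Subtype.val ((powCoprime hj.1).injective h3)
  · unfold ph at hy ⊢
    have h1 : (y : A) ^ p ^ r = w * (pr p w)⁻¹ := by
      by_contra h2
      exact hy (if_neg h2)
    rw [if_pos h1]
    refine dvd_trans ?_ (GalFAux.phP_dvd hO hm (d0 * (y : A)))
    have h2 : (Subgroup.centralizer ({y} : Set ↥(Subgroup.centralizer ({w} : Set A)))).map
        (Subgroup.centralizer ({w} : Set A)).subtype
        ≤ Subgroup.centralizer ({d0 * (y : A)} : Set A) := by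
      rintro _ ⟨c, hc, rfl⟩
      have h3 : Commute (c : A) (y : A) := congrArg Subtype.val
        (Subgroup.mem_centralizer_singleton_iff.1 hc)
      exact memC.2 ((hdc _ (memC.1 c.2)).mul_right h3)
    have h3 := Subgroup.card_dvd_of_le h2
    rw [Subgroup.card_map_of_injective (Subgroup.subtype_injective _)] at h3
    exact_mod_cast Nat.ordProj_dvd_ordProj_of_dvd Nat.card_pos.ne' h3 p

end

end KrAux

open KrAux

theorem Kl_of_Gr {p : ℕ} [Fact p.Prime] {A : Type*} [Group A] [Finite A] {r s : ℕ}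
    {E : A × A × A → A × A × A} {T : A → A → A × A × A} (hE : IsRot (p ^ r) E)
    (hT : IsPar (p ^ r) s E T) (hO : NoP p (⊤ : Subgroup A)) {w : A} (hw : Gr p (p ^ r) w) :
    Kl p w := by
  classical
  have : Fintype A := Fintype.ofFinite A
  intro m hm
  obtain ⟨d0, hd0, hdr, hdc, -⟩ := exists_d0 (p := p) (r := r) w
  have h1 := step1 hE hT hO hd0 hdc hm
  have h2 := step2 (s := s) ⟨r, rfl⟩ hO hd0 hdr hdc hw hm
  have h3 := dvd_add h1 h2
  rwa [sub_add_cancel] at h3

end Pool.Agent.Lib.P0c8ca5.Id
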