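import Mathlib
import Pool.Agent.Lib.P0c8ca5Id.Kz
import Pool.Agent.Lib.P0c8ca5Id.Kr
import Pool.Agent.Lib.P0c8ca5V.Fus

/-! Central elements without rational roots: from a defect group to a centralizer. -/

namespace Pool.Agent.Lib.P0c8ca5.Id

open MonoidAlgebra Bw

set_option linter.unusedSectionVars false

/-- `u` has order dividing `p`, and no `y` in `D` with `y ^ q = u` is conjugate in `D` to all the
powers `y ^ j` with `j = 1` modulo `p` -/
def NRoot (p q : ℕ) {A : Type*} [Group A] (D : Subgroup A) (u : A) : Prop :=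
  u ^ p = 1 ∧ ∀ y ∈ D, y ^ q = u → ¬ ∀ j : ℕ, j ≡ 1 [MOD p] → ∃ s ∈ D, s * y * s⁻¹ = y ^ j

section
variable {p : ℕ} {A : Type*} [Group A] [Fact p.Prime] [Fintype A]

theorem syl_cent {D : Subgroup A} (hDp : IsPGroup p D) {u d : A} (hu : u ∈ D)
    (huc : ∀ x ∈ D, u * x = x * u) (hd : Preg p d) (hud : Commute u d)
    (hDd : D ≤ Subgroup.centralizer ({d} : Set A))
    (hmax : ∀ P : Subgroup A, IsPGroup p P → P ≤ Subgroup.centralizer ({d} : Set A) →
      D ≤ P → P = D) :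
    IsSyl p (Subgroup.centralizer ({u * d} : Set A)) D ∧
      ∀ x ∈ Subgroup.centralizer ({u * d} : Set A), Commute x u := by
  classical
  set C : Subgroup A := Subgroup.centralizer ({u * d} : Set A) with hC
  have hpel : Pel p u := by
    obtain ⟨n, hn⟩ := hDp ⟨u, hu⟩
    exact ⟨n, congrArg Subtype.val hn⟩
  have hp : p.Prime := Fact.out
  have hcop : Nat.Coprime (orderOf u) (orderOf d) := by
    obtain ⟨m, hm⟩ := hpel
    exact Nat.Coprime.coprime_dvd_left (orderOf_dvd_of_pow_eq_one hm)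
      (Nat.Coprime.pow_left m ((Nat.Prime.coprime_iff_not_dvd hp).2 hd))
  have hcu : ∀ x ∈ C, Commute x u := by
    intro x hx
    have h1 : Commute x (u * d) := GdAux.mem_cent.1 hx
    obtain ⟨t, ht1, ht2⟩ := Nat.chineseRemainder hcop 1 0
    have h2 : (u * d) ^ t = u := by
      rw [hud.mul_pow, pow_eq_pow_iff_modEq.2 ht1, pow_eq_pow_iff_modEq.2 ht2, pow_one, pow_zero,
        mul_one]
    rw [← h2]
    exact h1.pow_right t
  have hcd : ∀ x ∈ C, Commute x d := by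
    intro x hx
    have h1 : Commute x (u * d) := GdAux.mem_cent.1 hx
    obtain ⟨t, ht1, ht2⟩ := Nat.chineseRemainder hcop 0 1
    have h2 : (u * d) ^ t = d := by
      rw [hud.mul_pow, pow_eq_pow_iff_modEq.2 ht1, pow_eq_pow_iff_modEq.2 ht2, pow_one, pow_zero,
        one_mul]
    rw [← h2]
    exact h1.pow_right t
  have hDC : D ≤ C := by
    intro x hx
    refine GdAux.mem_cent.2 ?_
    exact (show Commute x u from (huc x hx).symm).mul_right (GdAux.mem_cent.1 (hDd hx))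
  have hCd : C ≤ Subgroup.centralizer ({d} : Set A) := fun x hx => GdAux.mem_cent.2 (hcd x hx)
  exact ⟨GdAux.isSyl_of_max hDC hDp
    (fun P hP hPC hDP => hmax P hP (hPC.trans hCd) hDP), hcu⟩

theorem Gr_of {r : ℕ} {D : Subgroup A} (hDp : IsPGroup p D) {u d : A} (hu : u ∈ D)
    (huc : ∀ x ∈ D, u * x = x * u) (hn : NRoot p (p ^ r) D u) (hd : Preg p d) (hud : Commute u d)
    (hDd : D ≤ Subgroup.centralizer ({d} : Set A))
    (hmax : ∀ P : Subgroup A, IsPGroup p P → P ≤ Subgroup.centralizer ({d} : Set A) →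
      D ≤ P → P = D) : Gr p (p ^ r) (u * d) := by
  classical
  obtain ⟨hsyl, hcu⟩ := syl_cent hDp hu huc hd hud hDd hmax
  have hpel : Pel p u := by
    obtain ⟨n, hn⟩ := hDp ⟨u, hu⟩
    exact ⟨n, congrArg Subtype.val hn⟩
  unfold Gr
  rw [pr_mul_parts hud hpel hd, mul_inv_cancel_right]
  refine ⟨hn.1, fun y hy hyq hall => ?_⟩
  have hyC : y ∈ Subgroup.centralizer ({u * d} : Set A) := GdAux.mem_cent.2 hy
  have hyp : Pel p (⟨y, hyC⟩ : ↥(Subgroup.centralizer ({u * d} : Set A))) := by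
    refine ⟨r + 1, Subtype.ext ?_⟩
    rw [Subgroup.coe_pow, pow_succ, pow_mul]
    change (y ^ p ^ r) ^ p = 1
    rw [hyq, hn.1]
  obtain ⟨S, hS, hyS, hSj⟩ := FusAux.exists_pgroup hyp
  obtain ⟨g, hg, hgS⟩ := hsyl.conj (S.map (Subgroup.centralizer ({u * d} : Set A)).subtype)
    (by
      rintro _ ⟨x, -, rfl⟩
      exact x.2) (hS.map _)
  have hgu : Commute g u := hcu g hg
  refine hn.2 (g⁻¹ * y * g) (mem_cg.1 (hgS ⟨_, hyS, rfl⟩)) ?_ fun j hj => ?_
  · have h1 : (g⁻¹ * y * g) ^ p ^ r = g⁻¹ * y ^ p ^ r * g := by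
      have h2 := conj_pow (i := p ^ r) (a := g⁻¹) (b := y)
      rwa [inv_inv] at h2
    rw [h1, hyq, mul_assoc, ← hgu.eq, inv_mul_cancel_left]
  · obtain ⟨c, hc1, hc2⟩ := hall j hj
    have hcC : c ∈ Subgroup.centralizer ({u * d} : Set A) := GdAux.mem_cent.2 hc1
    obtain ⟨s, hs, hsy⟩ := hSj j hj (isConj_iff.2 ⟨⟨c, hcC⟩, Subtype.ext hc2⟩)
    have hsy' : (s : A) * y * (s : A)⁻¹ = y ^ j := congrArg Subtype.val hsy
    refine ⟨g⁻¹ * s * g, mem_cg.1 (hgS ⟨_, hs, rfl⟩), ?_⟩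
    have h1 : (g⁻¹ * y * g) ^ j = g⁻¹ * y ^ j * g := by
      have h2 := conj_pow (i := j) (a := g⁻¹) (b := y)
      rwa [inv_inv] at h2
    rw [h1, ← hsy']
    group

theorem Gr_conj {q : ℕ} {w : A} (g : A) (h : Gr p q w) : Gr p q (g * w * g⁻¹) := by
  unfold Gr at h ⊢
  rw [pr_conj]
  have e : g * w * g⁻¹ * (g * pr p w * g⁻¹)⁻¹ = g * (w * (pr p w)⁻¹) * g⁻¹ := by group
  rw [e]
  have hcm : ∀ x : A, Commute x (g * w * g⁻¹) → Commute (g⁻¹ * x * g) w := by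
    intro x hx
    change g⁻¹ * x * g * w = w * (g⁻¹ * x * g)
    calc g⁻¹ * x * g * w = g⁻¹ * (x * (g * w * g⁻¹)) * g := by group
      _ = g⁻¹ * (g * w * g⁻¹ * x) * g := by rw [hx.eq]
      _ = w * (g⁻¹ * x * g) := by group
  refine ⟨by rw [conj_pow, h.1]; group, fun y hy hyq hall => ?_⟩
  have h1 : ∀ i : ℕ, (g⁻¹ * y * g) ^ i = g⁻¹ * y ^ i * g := by
    intro i
    have h2 := conj_pow (i := i) (a := g⁻¹) (b := y)
    rwa [inv_inv] at h2
  refine h.2 (g⁻¹ * y * g) (hcm y hy) ?_ fun j hj => ?_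
  · rw [h1, hyq]
    group
  · obtain ⟨c, hc, hcy⟩ := hall j hj
    refine ⟨g⁻¹ * c * g, hcm c hc, ?_⟩
    rw [h1, ← hcy]
    group

theorem Gr_sub {q : ℕ} {U : Subgroup A} {w : ↥U} (h : Gr p q (w : A)) : Gr p q w := by
  have e : ((w * (pr p w)⁻¹ : ↥U) : A) = (w : A) * (pr p (w : A))⁻¹ := by
    rw [QuoAux.pr_coe' w]
    rfl
  refine ⟨Subtype.ext ?_, fun y hy hyq hall => ?_⟩
  · rw [Subgroup.coe_pow, e, h.1]
    rfl
  · refine h.2 y (congrArg Subtype.val hy) ?_ fun j hj => ?_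
    · rw [← e, ← hyq]
      rfl
    · obtain ⟨c, hc, hcy⟩ := hall j hj
      exact ⟨c, congrArg Subtype.val hc, congrArg Subtype.val hcy⟩

end

end Pool.Agent.Lib.P0c8ca5.Id
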