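import Mathlib
import Pool.Agent.Lib.P0c8ca5Id.Krs
import Pool.Agent.Lib.P0c8ca5Id.Dr
import Pool.Agent.Lib.P0c8ca5V.ParX

/-! The alternating sum of a block vanishes modulo `p` if its defect group has a good central
element: outside the commutator subgroup, or, for `p = 2, 3`, without rational roots. -/

namespace Pool.Agent.Lib.P0c8ca5.Id

open MonoidAlgebra Bw

set_option linter.unusedSectionVars false

/-- `u` is outside the commutator subgroup of `D`, or `p = 2` and `u` has order at most 2 and no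
fourth root in `D` conjugate in `D` to its powers with exponents `1` modulo `2`, or `p = 3` and `u`
has order dividing 3 and no cube root in `D` conjugate in `D` to its powers with exponents `1`
modulo `3` -/
def Gc (p : ℕ) {A : Type*} [Group A] (D : Subgroup A) (u : A) : Prop :=
  u ∉ ⁅D, D⁆ ∨ (p = 2 ∧ NRoot 2 4 D u) ∨ (p = 3 ∧ NRoot 3 3 D u)

section
variable {p : ℕ} {k : Type*} [Field k] {A : Type*} [Group A] [Fintype A]
variable [Fact p.Prime] [CharP k p] [IsAlgClosed k]

/-- if all elements of the class in subgroups without nontrivial normal p-subgroups satisfy `Kl`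
then the sum vanishes -/
theorem TE_of_class {b : MonoidAlgebra k A} (hb : IsBlock (⊤ : Subgroup A) b) {w : A}
    (hnn : ¬ IsNilpotent (hI k {x : A | IsConj w x} (⊤ : Subgroup A) * b))
    (h : ∀ U : Subgroup A, NoP p (⊤ : Subgroup ↥U) → ∀ x : ↥U, IsConj w (x : A) → Kl p x) :
    TE p b = 0 := by
  have hC := cInv_isConj w
  refine TE_blk hb (NilCAux.hI_mem hC ⊤) (TE_of_eS hC hb fun m hm => ?_) hnn
  exact eS_of_Kl hC hm fun U hU x hx => h U ((NoP_dn U).2 hU) x hx

/-- the alternating sum of a block `b` whose defect group has a good central element -/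
theorem TE_center' {b : MonoidAlgebra k A} (hb : IsBlock (⊤ : Subgroup A) b) {D : Subgroup A}
    (hD : IsDefectGroup p (⊤ : Subgroup A) b D) {u : A} (hu : u ∈ D)
    (huc : ∀ x ∈ D, u * x = x * u) (hu' : Gc p D u) : TE p b = 0 := by
  rcases hu' with hu' | ⟨hp, hr⟩ | ⟨hp, hr⟩
  · exact TE_center hb hD hu huc hu'
  · subst hp
    obtain ⟨d, hud, hd, hDd, hmax, hnn⟩ := exists_dd hb hD hu huc
    have hG : Gr 2 (2 ^ 2) (u * d) := Gr_of (r := 2) hD.isPGroup hu huc
      (by norm_num; exact hr) hd hud hDd hmax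
    refine TE_of_class hb hnn fun U hU x hx => ?_
    obtain ⟨g, hg⟩ := isConj_iff.1 hx
    have h1 : Gr 2 (2 ^ 2) (x : A) := hg ▸ Gr_conj g hG
    exact Kl_of_Gr (r := 2) (s := 2) (E := E4) (T := T4) (by norm_num; exact E4_isRot)
      (by norm_num; exact T4_isPar) hU (Gr_sub h1)
  · subst hp
    obtain ⟨d, hud, hd, hDd, hmax, hnn⟩ := exists_dd hb hD hu huc
    have hG : Gr 3 (3 ^ 1) (u * d) := Gr_of (r := 1) hD.isPGroup hu huc
      (by norm_num; exact hr) hd hud hDd hmax
    refine TE_of_class hb hnn fun U hU x hx => ?_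
    obtain ⟨g, hg⟩ := isConj_iff.1 hx
    have h1 : Gr 3 (3 ^ 1) (x : A) := hg ▸ Gr_conj g hG
    exact Kl_of_Gr (r := 1) (s := 3) (E := E3) (T := T3) (by norm_num; exact E3_isRot)
      (by norm_num; exact T3_isPar) hU (Gr_sub h1)

open Classical in
/-- Let `b` be a block with defect group `D` and let `u` be a good element of the center of `D`. The
alternating sum of the numbers `k(B_σ)` over representatives `R` of the conjugacy classes of chains of
elementary abelian p-subgroups is divisible by `p`. -/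
theorem krs' {b : MonoidAlgebra k A} (hb : IsBlock (⊤ : Subgroup A) b) {D : Subgroup A}
    (hD : IsDefectGroup p (⊤ : Subgroup A) b D) {u : A} (hu : u ∈ D)
    (huc : ∀ x ∈ D, u * x = x * u) (hu' : Gc p D u)
    (R : Finset (Finset (Subgroup A))) (hR1 : ∀ σ ∈ R, IsChE p σ)
    (hR2 : ∀ τ, IsChE p τ → ∃! σ, σ ∈ R ∧ ∃ g : A, τ = ChOrbAux.cgS g σ) :
    (p : ℤ) ∣ ∑ σ ∈ R, (-1) ^ σ.card * (kB σ b : ℤ) := by
  have h1 := TE_center' hb hD hu huc hu'
  rw [TE_kB hb.mem hb.idem, CharP.intCast_eq_zero_iff k p] at h1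
  rw [sum_reps (p := p) (fun g σ => by rw [ChOrbAux.card_cgS, kB_cgS g σ hb.invBy]) R hR1 hR2]
  exact h1

end

end Pool.Agent.Lib.P0c8ca5.Id
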