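import Mathlib
import Pool.Agent.Lib.P0c8ca5Se.Lb
import Pool.Agent.Lib.P0c8ca5Id.Kzr

/-! The theorem for the blocks all of whose local blocks have defect groups with a good central
element. -/

namespace Pool.Agent.Lib.P0c8ca5.Id

open MonoidAlgebra Bw

set_option linter.unusedSectionVars false

section
variable {p : ℕ} {k : Type*} [Field k] {A : Type*} [Group A] [Fintype A]
variable [Fact p.Prime] [CharP k p] [IsAlgClosed k]

/-- the blocks below a central idempotent, nontrivial defect groups with a good central element -/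
theorem TE_idem' {c : MonoidAlgebra k A} (hc : c ∈ fixAlg k (⊤ : Subgroup A) ⊤) (hcc : c * c = c)
    (hl : ∀ f, IsBlock (⊤ : Subgroup A) f → f * c = f → ∀ S : Subgroup A,
      IsDefectGroup p (⊤ : Subgroup A) f S → S ≠ ⊥ →
        ∃ u ∈ S, (∀ x ∈ S, u * x = x * u) ∧ Gc p S u) :
    Id.TE p c = (Nat.card {f : MonoidAlgebra k A | IsDZ p (⊤ : Subgroup A) f ∧ f * c = f} : k) := by
  classical
  let Bl : Finset (MonoidAlgebra k A) :=
    ((finite_isBlock (k := k) (⊤ : Subgroup A)).toFinset).filter (fun f => f * c ≠ 0)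
  have hBl : ∀ b, b ∈ Bl ↔ IsBlock (⊤ : Subgroup A) b ∧ b * c ≠ 0 := by
    intro b
    rw [Finset.mem_filter, Set.Finite.mem_toFinset]
    rfl
  have hmul : ∀ b ∈ Bl, b * c = b := by
    intro b hb
    obtain ⟨h1, h2⟩ := (hBl b).1 hb
    have hcm : b * c = c * b := commute_of h1.suppIn (mem_fixAlg.1 hc).2
    rcases h1.mul_eq hc hcc with h | h
    · exact absurd (by rw [hcm, h]) h2
    · rw [hcm, h]
  have h1 := WSumAux.sum_blocks (p := p) hc hcc Bl hBl
  have h2 : Id.TE p c = ∑ b ∈ Bl, Id.TE p b := by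
    rw [← Id.TE_sum, h1]
  have h3 : ∀ b ∈ Bl, Id.TE p b = if IsDZ p (⊤ : Subgroup A) b then (1 : k) else 0 := by
    intro b hb
    by_cases hz : IsDZ p (⊤ : Subgroup A) b
    · rw [if_pos hz, Se.TE_dz hz]
    · rw [if_neg hz]
      have hb' := ((hBl b).1 hb).1
      obtain ⟨S, hS, _⟩ := exists_defect (p := p) (N := (⊤ : Subgroup A)) (e := b)
        (bot_le) IsPGroup.of_bot hb'.hasBr_bot
      have hne : S ≠ ⊥ := by
        rintro rfl
        exact hz (isDZ_iff.2 ⟨hb', hS⟩)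
      obtain ⟨u, hu, huc, hun⟩ := hl b hb' (hmul b hb) S hS hne
      exact TE_center' hb' hS hu huc hun
  rw [h2, Finset.sum_congr rfl h3, ← Finset.sum_filter, Finset.sum_const, nsmul_eq_mul, mul_one]
  congr 1
  have h4 : {f : MonoidAlgebra k A | IsDZ p (⊤ : Subgroup A) f ∧ f * c = f}
      = ↑(Bl.filter fun b => IsDZ p (⊤ : Subgroup A) b) := by
    ext f
    rw [Finset.mem_coe, Finset.mem_filter, Set.mem_setOf_eq]
    constructor
    · rintro ⟨h5, h6⟩
      refine ⟨(hBl f).2 ⟨h5.blk, ?_⟩, h5⟩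
      rw [h6]
      exact h5.blk.ne_zero
    · rintro ⟨h5, h6⟩
      exact ⟨h6, hmul f h5⟩
  rw [h4, Nat.card_coe_set_eq, Set.ncard_coe_finset]

/-- the difference of the two sides for a block of the whole group -/
theorem gap_lb_top' {b : MonoidAlgebra k A} (hb : IsBlock (⊤ : Subgroup A) b)
    (hl : ∀ Q : Subgroup A, IsPGroup p Q → ∀ f, IsBlock (⊤ : Subgroup (NQ Q)) f →
      f * proj Q b = f → ∀ S : Subgroup (NQ Q), IsDefectGroup p (⊤ : Subgroup (NQ Q)) f S →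
        S ≠ ⊥ → ∃ u ∈ S, (∀ x ∈ S, u * x = x * u) ∧ Gc p S u) :
    ∃ t : ℤ, gap p (⊤ : Subgroup A) ⊤ b = (p : ℚ) * t := by
  classical
  have h1 : ((TFinAux.gp p b : ℤ) : k) = 0 := by
    unfold TFinAux.gp
    push_cast
    rw [← trL_blk hb.mem hb.idem, Se.trL_TE (p := p) hb.mem, ← Finset.sum_sub_distrib]
    refine Finset.sum_eq_zero fun Q hQ => ?_
    have hQp := TFinAux.mem_TT hQ
    unfold Se.TEQ
    letI : Fintype (NQ Q) := Fintype.ofFinite _
    have h2 : proj Q b * proj Q b = proj Q b := by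
      rw [← proj_mul hQp (hb.invBy.mono le_top) (hb.invBy.mono le_top), hb.idem]
    rw [TE_idem' (TFinAux.proj_mem hb.mem) h2 (hl Q hQp), TFinAux.sec_top Q, sub_self]
  obtain ⟨s, hs⟩ := (CharP.intCast_eq_zero_iff k p _).1 h1
  refine ⟨s, ?_⟩
  rw [TFinAux.gap_gp hb, hs]
  push_cast
  rfl

end

section transport
variable {p : ℕ} {k : Type*} [Field k] {A₁ A₂ : Type*} [Group A₁] [Group A₂]
variable {C₁ : Subgroup A₁} {C₂ : Subgroup A₂} (ψ : C₁ ≃* C₂)

theorem NRoot_im {q : ℕ} {S : Subgroup A₁} (hS : S ≤ C₁) (x : C₁)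
    (h : NRoot p q (Se.im ψ S) ((ψ x : C₂) : A₂)) : NRoot p q S (x : A₁) := by
  refine ⟨?_, fun y hy hyq hall => ?_⟩
  · have h1 : (ψ x) ^ p = 1 := Subtype.ext h.1
    rw [← map_pow, map_eq_one_iff ψ ψ.injective] at h1
    exact congrArg Subtype.val h1
  · have hyC := hS hy
    refine h.2 _ ((Se.mem_im ψ ⟨y, hyC⟩).2 hy) ?_ fun j hj => ?_
    · have h1 : (⟨y, hyC⟩ : C₁) ^ q = x := Subtype.ext hyq
      have h2 := congrArg (fun z : C₁ => ((ψ z : C₂) : A₂)) h1
      simp only [map_pow] at h2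
      exact h2
    · obtain ⟨s, hs, hsy⟩ := hall j hj
      refine ⟨_, (Se.mem_im ψ ⟨s, hS hs⟩).2 hs, ?_⟩
      have h1 : (⟨s, hS hs⟩ : C₁) * ⟨y, hyC⟩ * (⟨s, hS hs⟩ : C₁)⁻¹ = (⟨y, hyC⟩ : C₁) ^ j :=
        Subtype.ext hsy
      have h2 := congrArg (fun z : C₁ => ((ψ z : C₂) : A₂)) h1
      simp only [map_pow, map_mul, map_inv] at h2
      exact h2

theorem Gc_im {S : Subgroup A₁} (hS : S ≤ C₁) (x : C₁)
    (h : Gc p (Se.im ψ S) ((ψ x : C₂) : A₂)) : Gc p S (x : A₁) := by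
  rcases h with h | ⟨hp, h⟩ | ⟨hp, h⟩
  · exact Or.inl fun h1 => h (Se.im_comm ψ hS x h1)
  · exact Or.inr (Or.inl ⟨hp, NRoot_im ψ hS x h⟩)
  · exact Or.inr (Or.inr ⟨hp, NRoot_im ψ hS x h⟩)

end transport

/-- for every p-subgroup `Q` of `G`, every nontrivial defect group `S` of a block of `N_G(Q)/Q`
below the image of `e` has a good central element -/
def LocGood' (p : ℕ) {k : Type*} [Field k] {A : Type*} [Group A] (G : Subgroup A)
    (e : MonoidAlgebra k A) : Prop :=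
  ∀ Q : Subgroup A, Q ≤ G → IsPGroup p Q → ∀ f : MonoidAlgebra k (NQ Q), IsBlock (sec G Q) f →
    f * proj Q e = f → ∀ S : Subgroup (NQ Q), IsDefectGroup p (sec G Q) f S → S ≠ ⊥ →
      ∃ u ∈ S, (∀ x ∈ S, u * x = x * u) ∧ Gc p S u

/-- Navarro's equality modulo `p` for the blocks all of whose local blocks have defect groups `S`
with `S = 1` or with a good central element -/
theorem gap_lb' {p : ℕ} [Fact p.Prime] {k : Type*} [Field k] [IsAlgClosed k] [CharP k p]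
    {Γ : Type*} [Group Γ] [Finite Γ] (G : Subgroup Γ) [G.Normal] (hΓ : IsPGroup p (Γ ⧸ G))
    {e : MonoidAlgebra k Γ} (he : IsBlock G e) (hinv : InvBy ⊤ e) (hl : LocGood' p G e) :
    ∃ t : ℤ, gap p G ⊤ e = (p : ℚ) * t := by
  have : Fintype Γ := Fintype.ofFinite Γ
  have : Fintype ↥G := Fintype.ofFinite _
  obtain ⟨t, ht⟩ := gap_mod hΓ he hinv
  have he' := dn_isBlock he
  have hb' : SuppIn (⊤ : Subgroup ↥G) (dn G e) := fun x _ => Subgroup.mem_top x
  have key : ∃ t : ℤ, gap p (⊤ : Subgroup ↥G) ⊤ (dn G e) = (p : ℚ) * t := by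
    refine gap_lb_top' he' ?_
    intro Q hQ f hf hfe S hS hne
    obtain ⟨ψ, hψ⟩ := TrBAux.exists_iso_sec G Q
    have htr := TrBAux.tr_proj G he.suppIn Q hψ
    rw [← TFinAux.sec_top Q] at hf hS
    have hs1 : SuppIn (sec (⊤ : Subgroup ↥G) Q) (proj Q (dn G e)) := proj_suppIn hb' _
    have h1 := tr_isBlock ψ hf
    have h2 : tr ψ f * proj (Q.map G.subtype) e = tr ψ f := by
      rw [← htr, ← tr_mul ψ hf.suppIn hs1, hfe]
    have h3 := Se.defect_im ψ hf.suppIn hS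
    have h4 : Se.im ψ S ≠ ⊥ := by
      intro h5
      apply hne
      rw [eq_bot_iff]
      intro x hx
      have h6 := (Se.mem_im ψ ⟨x, hS.le hx⟩).2 hx
      rw [h5, Subgroup.mem_bot] at h6
      have h7 : ψ ⟨x, hS.le hx⟩ = 1 := Subtype.ext h6
      rw [map_eq_one_iff ψ ψ.injective] at h7
      exact Subgroup.mem_bot.2 (congrArg Subtype.val h7)
    obtain ⟨u, hu, huc, hun⟩ := hl (Q.map G.subtype) (by
      rintro _ ⟨x, _, rfl⟩
      exact x.2) (hQ.map _) _ h1 h2 _ h3 h4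
    have huC := Se.im_le ψ S hu
    have h8 : ψ (ψ.symm ⟨u, huC⟩) = ⟨u, huC⟩ := MulEquiv.apply_symm_apply _ _
    refine ⟨ψ.symm ⟨u, huC⟩, ?_, ?_, ?_⟩
    · rw [← Se.mem_im ψ, h8]
      exact hu
    · intro x hx
      have h9 := huc _ ((Se.mem_im ψ ⟨x, hS.le hx⟩).2 hx)
      have h10 : ψ.symm ⟨u, huC⟩ * ⟨x, hS.le hx⟩ = ⟨x, hS.le hx⟩ * ψ.symm ⟨u, huC⟩ := by
        apply ψ.injective
        rw [map_mul, map_mul, h8]
        exact Subtype.ext h9
      exact congrArg Subtype.val h10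
    · refine Gc_im ψ hS.le _ ?_
      rw [h8]
      exact hun
  obtain ⟨t', ht'⟩ := key
  rw [gap_transport he] at ht'
  refine ⟨t + t', ?_⟩
  rw [ht, ht']
  push_cast
  ring

end Pool.Agent.Lib.P0c8ca5.Id
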