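import Mathlib
import Pool.Agent.Lib.P0c8ca5Id.Lbr
import Pool.Agent.Lib.P0c8ca5Bw.NilB
import Pool.Agent.Lib.P0c8ca5E.SmallG

/-! Groups all of whose sections have a good central element. -/

namespace Pool.Agent.Lib.P0c8ca5.Id

open MonoidAlgebra Bw

set_option linter.unusedSectionVars false

/-- `NRoot` for the image of `z` in the section `E / R` -/
def NRootS (p q : ℕ) {A : Type*} [Group A] (R E : Subgroup A) (z : A) : Prop :=
  z ^ p ∈ R ∧ ∀ y ∈ E, z⁻¹ * y ^ q ∈ R →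
    ¬ ∀ j : ℕ, j ≡ 1 [MOD p] → ∃ s ∈ E, s * y * s⁻¹ * (y ^ j)⁻¹ ∈ R

/-- `Gc` for the image of `z` in the section `E / R` -/
def GcS (p : ℕ) {A : Type*} [Group A] (R E : Subgroup A) (z : A) : Prop :=
  z ∉ R ⊔ ⁅E, E⁆ ∨ (p = 2 ∧ NRootS 2 4 R E z) ∨ (p = 3 ∧ NRootS 3 3 R E z)

/-- every section `E / R` of `D` different from 1 has a good central element -/
def SecG (p : ℕ) {A : Type*} [Group A] (D : Subgroup A) : Prop :=
  ∀ R E : Subgroup A, R ≤ E → E ≤ D → E ≤ Subgroup.normalizer (R : Set A) → R ≠ E →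
    ∃ z ∈ E, (∀ x ∈ E, z * x * z⁻¹ * x⁻¹ ∈ R) ∧ GcS p R E z

section
variable {p : ℕ} {A B : Type*} [Group A] [Group B]

theorem mem_map_inj {f : B →* A} (hf : Function.Injective f) {K : Subgroup B} {x : B} :
    f x ∈ K.map f ↔ x ∈ K := by
  constructor
  · rintro ⟨y, hy, he⟩
    rwa [← hf he]
  · intro h
    exact ⟨x, h, rfl⟩

theorem nrootS_of_map {q : ℕ} {f : B →* A} (hf : Function.Injective f) {R E : Subgroup B} {z : B}
    (h : NRootS p q (R.map f) (E.map f) (f z)) : NRootS p q R E z := by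
  refine ⟨?_, fun y hy hyq hall => ?_⟩
  · have h1 := h.1
    rw [← map_pow] at h1
    exact (mem_map_inj hf).1 h1
  · refine h.2 (f y) ((mem_map_inj hf).2 hy) ?_ fun j hj => ?_
    · rw [← map_pow, ← map_inv, ← map_mul]
      exact (mem_map_inj hf).2 hyq
    · obtain ⟨s, hs, hsy⟩ := hall j hj
      refine ⟨f s, (mem_map_inj hf).2 hs, ?_⟩
      rw [← map_pow, ← map_inv, ← map_inv, ← map_mul, ← map_mul, ← map_mul]
      exact (mem_map_inj hf).2 hsy

theorem gcS_of_map {f : B →* A} (hf : Function.Injective f) {R E : Subgroup B} {z : B}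
    (h : GcS p (R.map f) (E.map f) (f z)) : GcS p R E z := by
  rcases h with h | ⟨hp, h⟩ | ⟨hp, h⟩
  · refine Or.inl fun h1 => h ?_
    rw [← Subgroup.map_commutator, ← Subgroup.map_sup]
    exact (mem_map_inj hf).2 h1
  · exact Or.inr (Or.inl ⟨hp, nrootS_of_map hf h⟩)
  · exact Or.inr (Or.inr ⟨hp, nrootS_of_map hf h⟩)

theorem secG_of_map {f : B →* A} (hf : Function.Injective f) {P : Subgroup B}
    (h : SecG p (P.map f)) : SecG p P := by
  intro R E hRE hEP hn hne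
  obtain ⟨z, hz, hz1, hz2⟩ := h (R.map f) (E.map f) (Subgroup.map_mono hRE)
    (Subgroup.map_mono hEP) (by
      rintro _ ⟨x, hx, rfl⟩
      rw [Subgroup.mem_normalizer_iff]
      intro y
      have hxn := Subgroup.mem_normalizer_iff.1 (hn hx)
      constructor
      · rintro ⟨y', hy', rfl⟩
        exact ⟨x * y' * x⁻¹, (hxn y').1 hy', by simp⟩
      · rintro ⟨y', hy', he⟩
        have h1 : y = f (x⁻¹ * y' * x) := by
          have h2 : f y' = f x * y * (f x)⁻¹ := he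
          rw [map_mul, map_mul, map_inv, h2]
          group
        refine ⟨x⁻¹ * y' * x, ?_, h1.symm⟩
        refine (hxn _).2 ?_
        have e : x * (x⁻¹ * y' * x) * x⁻¹ = y' := by group
        rw [e]
        exact hy') (by
      intro h1
      exact hne (Subgroup.map_injective hf h1))
  obtain ⟨z', hz', rfl⟩ := hz
  refine ⟨z', hz', fun x hx => ?_, gcS_of_map hf hz2⟩
  have h1 := hz1 (f x) ⟨x, hx, rfl⟩
  rw [← map_inv, ← map_inv, ← map_mul, ← map_mul, ← map_mul] at h1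
  exact (mem_map_inj hf).1 h1

theorem secG_mono {D P : Subgroup A} (h : SecG p D) (hP : P ≤ D) : SecG p P :=
  fun R E hRE hEP hn hne => h R E hRE (hEP.trans hP) hn hne

theorem secG_cg {D : Subgroup A} (h : SecG p D) (g : A) : SecG p (cg g D) := by
  refine secG_of_map (f := (MulAut.conj g⁻¹).toMonoidHom) (MulAut.conj g⁻¹).injective ?_
  have e : (cg g D).map (MulAut.conj g⁻¹).toMonoidHom = D := by
    change cg g⁻¹ (cg g D) = D
    rw [cg_cg, inv_mul_cancel, cg_one]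
  rw [e]
  exact h

/-- from the section `pre Q S / Q` to `S` -/
theorem gc_of_pre {Q : Subgroup A} {S : Subgroup (NQ Q)} {z : A}
    (hz : z ∈ Subgroup.normalizer (Q : Set A)) (h : GcS p Q (pre Q S) z) :
    Gc p S (qm Q z hz) := by
  have hN : pre Q S ≤ Subgroup.normalizer (Q : Set A) := fun x hx => (mem_pre.1 hx).1
  have hpow : ∀ {x : A} (hx : x ∈ Subgroup.normalizer (Q : Set A)) (n : ℕ),
      qm Q x hx ^ n = qm Q (x ^ n) (Subgroup.pow_mem _ hx n) := fun hx n => rfl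
  have hroot : ∀ {p q : ℕ}, NRootS p q Q (pre Q S) z → NRoot p q S (qm Q z hz) := by
    intro p q h
    refine ⟨?_, fun y hy hyq hall => ?_⟩
    · rw [hpow]
      exact qm_eq_one_iff.2 h.1
    · obtain ⟨y', hy'N, rfl⟩ := qm_surj y
      refine h.2 y' (mem_pre.2 ⟨hy'N, hy⟩) ?_ fun j hj => ?_
      · rw [hpow] at hyq
        exact qm_eq_iff.1 hyq.symm
      · obtain ⟨s, hs, hsy⟩ := hall j hj
        obtain ⟨s', hs'N, rfl⟩ := qm_surj s
        refine ⟨s', mem_pre.2 ⟨hs'N, hs⟩, ?_⟩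
        have m1 : s' * y' * s'⁻¹ ∈ Subgroup.normalizer (Q : Set A) :=
          Subgroup.mul_mem _ (Subgroup.mul_mem _ hs'N hy'N) (Subgroup.inv_mem _ hs'N)
        have m2 : y' ^ j ∈ Subgroup.normalizer (Q : Set A) := Subgroup.pow_mem _ hy'N j
        have h2 : qm Q (y' ^ j) m2 = qm Q (s' * y' * s'⁻¹) m1 := hsy.symm
        have h3 := qm_eq_iff.1 h2
        have h4 := (Subgroup.mem_normalizer_iff.1 m2 _).1 h3
        have h5 : y' ^ j * ((y' ^ j)⁻¹ * (s' * y' * s'⁻¹)) * (y' ^ j)⁻¹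
            = s' * y' * s'⁻¹ * (y' ^ j)⁻¹ := by group
        rwa [h5] at h4
  rcases h with h | ⟨hp, h⟩ | ⟨hp, h⟩
  · refine Or.inl fun h1 => h ?_
    have e1 : (((pre Q S).subgroupOf (Subgroup.normalizer (Q : Set A))).map
        (QuotientGroup.mk' (Q.subgroupOf (Subgroup.normalizer (Q : Set A))))) = S := by
      ext w
      constructor
      · rintro ⟨x, hx, rfl⟩
        exact (mem_pre.1 (Subgroup.mem_subgroupOf.1 hx)).2
      · intro hw
        obtain ⟨x, hx, rfl⟩ := qm_surj w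
        exact ⟨⟨x, hx⟩, Subgroup.mem_subgroupOf.2 (mem_pre.2 ⟨hx, hw⟩), rfl⟩
    rw [← e1, ← Subgroup.map_commutator] at h1
    obtain ⟨c, hc, hcz⟩ := h1
    have hc' : (c : A) ∈ ⁅pre Q S, pre Q S⁆ := by
      have h2 : (⁅(pre Q S).subgroupOf (Subgroup.normalizer (Q : Set A)),
          (pre Q S).subgroupOf (Subgroup.normalizer (Q : Set A))⁆).map
          (Subgroup.normalizer (Q : Set A)).subtype = ⁅pre Q S, pre Q S⁆ := by
        rw [Subgroup.map_commutator, Subgroup.subgroupOf_map_subtype, inf_eq_left.2 hN]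
      rw [← h2]
      exact ⟨c, hc, rfl⟩
    have h3 : qm Q (c : A) c.2 = qm Q z hz := hcz
    have h4 := qm_eq_iff.1 h3
    have h5 := (Subgroup.mem_normalizer_iff.1 c.2 _).1 h4
    have e2 : (c : A) * ((c : A)⁻¹ * z) * (c : A)⁻¹ = z * (c : A)⁻¹ := by group
    rw [e2] at h5
    have e3 : z = z * (c : A)⁻¹ * (c : A) := by group
    rw [e3]
    exact Subgroup.mul_mem _ (Subgroup.mem_sup_left h5) (Subgroup.mem_sup_right hc')
  · exact Or.inr (Or.inl ⟨hp, hroot h⟩)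
  · exact Or.inr (Or.inr ⟨hp, hroot h⟩)

end

section
variable {p : ℕ} {k : Type*} [Field k] {A : Type*} [Group A] [Fintype A]
variable [Fact p.Prime] [CharP k p] [IsAlgClosed k]

theorem locGood_top {b : MonoidAlgebra k A} (hb : IsBlock (⊤ : Subgroup A) b)
    {D : Subgroup A} (hD : IsDefectGroup p (⊤ : Subgroup A) b D) (hs : SecG p D)
    (Q : Subgroup A) (hQ : IsPGroup p Q) (f : MonoidAlgebra k (NQ Q))
    (hf : IsBlock (⊤ : Subgroup (NQ Q)) f) (hfb : f * proj Q b = f) (S : Subgroup (NQ Q))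
    (hS : IsDefectGroup p (⊤ : Subgroup (NQ Q)) f S) (hne : S ≠ ⊥) :
    ∃ u ∈ S, (∀ x ∈ S, u * x = x * u) ∧ Gc p S u := by
  classical
  have hcomm : proj Q b * f = f := by
    rw [← commute_of hf.suppIn (mem_fixAlg.1 (TFinAux.proj_mem hb.mem)).2, hfb]
  have hbr := NilBAux.hasBr_pre hQ hb.invBy hf hcomm hS.isPGroup hS.br
  obtain ⟨D', hD', hle⟩ := exists_defect (p := p) (N := (⊤ : Subgroup A)) (e := b) le_top
    (isPGroup_pre hQ hS.isPGroup) hbr
  obtain ⟨g, _, rfl⟩ := Hy.defect_conj_sub hb hD hD'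
  have hsP : SecG p (pre Q S) := secG_mono (secG_cg hs g) hle
  have hN : pre Q S ≤ Subgroup.normalizer (Q : Set A) := fun x hx => (mem_pre.1 hx).1
  have hQne : Q ≠ pre Q S := by
    intro h
    apply hne
    rw [eq_bot_iff]
    intro w hw
    obtain ⟨x, hx, rfl⟩ := qm_surj w
    have h1 : x ∈ pre Q S := mem_pre.2 ⟨hx, hw⟩
    rw [← h] at h1
    exact Subgroup.mem_bot.2 (qm_eq_one_iff.2 h1)
  obtain ⟨z, hz, hzc, hzg⟩ := hsP Q (pre Q S) (le_pre S) le_rfl hN hQne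
  have hzN := hN hz
  refine ⟨qm Q z hzN, (mem_pre.1 hz).2, fun w hw => ?_, gc_of_pre hzN hzg⟩
  obtain ⟨x, hx, rfl⟩ := qm_surj w
  have h1 := hzc x (mem_pre.2 ⟨hx, hw⟩)
  have m1 : x * z ∈ Subgroup.normalizer (Q : Set A) := Subgroup.mul_mem _ hx hzN
  have m2 : z * x ∈ Subgroup.normalizer (Q : Set A) := Subgroup.mul_mem _ hzN hx
  have h2 : qm Q (x * z) m1 = qm Q (z * x) m2 := by
    refine qm_eq_iff.2 ?_
    have h3 := (Subgroup.mem_normalizer_iff.1 (Subgroup.inv_mem _ m1) _).1 h1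
    have e : (x * z)⁻¹ * (z * x * z⁻¹ * x⁻¹) * (x * z)⁻¹⁻¹ = (x * z)⁻¹ * (z * x) := by group
    rwa [e] at h3
  exact h2.symm

end

/-- if the defect group is good then the local defect groups are good -/
theorem locGood_of_sec {p : ℕ} [Fact p.Prime] {k : Type*} [Field k] [IsAlgClosed k] [CharP k p]
    {Γ : Type*} [Group Γ] [Finite Γ] (G : Subgroup Γ) {e : MonoidAlgebra k Γ} (he : IsBlock G e)
    {D : Subgroup Γ} (hD : IsDefectGroup p G e D) (hs : SecG p D) : LocGood' p G e := by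
  have : Fintype Γ := Fintype.ofFinite Γ
  have : Fintype ↥G := Fintype.ofFinite _
  have he' := dn_isBlock he
  have hb' : SuppIn (⊤ : Subgroup ↥G) (dn G e) := fun x _ => Subgroup.mem_top x
  -- the defect group in `G`
  obtain ⟨D', hD', -⟩ := exists_defect (p := p) (N := (⊤ : Subgroup ↥G)) (e := dn G e)
    (bot_le) IsPGroup.of_bot he'.hasBr_bot
  have hs' : SecG p D' := by
    refine secG_of_map G.subtype_injective ?_
    have hbr : HasBr (D'.map G.subtype) e := by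
      obtain ⟨d, hd1, hd2⟩ := hD'.br
      refine ⟨(d : Γ), ?_, hd2⟩
      rw [Subgroup.mem_centralizer_iff] at hd1 ⊢
      rintro _ ⟨z, hz, rfl⟩
      exact congrArg Subtype.val (hd1 z hz)
    obtain ⟨D1, hD1, hle⟩ := exists_defect (p := p) (N := G) (e := e) (by
      rintro _ ⟨z, _, rfl⟩
      exact z.2) (hD'.isPGroup.map G.subtype) hbr
    obtain ⟨g, _, rfl⟩ := Hy.defect_conj_sub he hD hD1
    exact secG_mono (secG_cg hs g) hle
  intro Q hQG hQ f hf hfe S hS hne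
  set Q0 : Subgroup ↥G := Q.subgroupOf G with hQ0
  have hmap : Q0.map G.subtype = Q := Subgroup.map_subgroupOf_eq_of_le hQG
  have hQ0p : IsPGroup p Q0 := hQ.comap_of_injective G.subtype G.subtype_injective
  obtain ⟨ψ, hψ⟩ := TrBAux.exists_iso_sec G Q0
  have htr := TrBAux.tr_proj G he.suppIn Q0 hψ
  clear_value Q0
  subst hmap
  have h1 := tr_isBlock ψ.symm hf
  have hs1 : SuppIn (sec (⊤ : Subgroup ↥G) Q0) (proj Q0 (dn G e)) := proj_suppIn hb' _
  have hs2 : SuppIn (sec G (Q0.map G.subtype)) (proj (Q0.map G.subtype) e) := by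
    rw [← htr]
    exact tr_suppIn ψ _
  have h2 : tr ψ.symm f * proj Q0 (dn G e) = tr ψ.symm f := by
    have h3 : tr ψ.symm (proj (Q0.map G.subtype) e) = proj Q0 (dn G e) := by
      rw [← htr, tr_symm_tr ψ hs1]
    rw [← h3, ← tr_mul ψ.symm hf.suppIn hs2, hfe]
  have h3 := Se.defect_im ψ.symm hf.suppIn hS
  have h4 : Se.im ψ.symm S ≠ ⊥ := by
    intro h5
    apply hne
    rw [eq_bot_iff]
    intro x hx
    have h6 := (Se.mem_im ψ.symm ⟨x, hS.le hx⟩).2 hx
    rw [h5, Subgroup.mem_bot] at h6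
    have h7 : ψ.symm ⟨x, hS.le hx⟩ = 1 := Subtype.ext h6
    rw [map_eq_one_iff ψ.symm ψ.symm.injective] at h7
    exact Subgroup.mem_bot.2 (congrArg Subtype.val h7)
  have h1' : IsBlock (⊤ : Subgroup (NQ Q0)) (tr ψ.symm f) := by
    rw [← TFinAux.sec_top Q0]
    exact h1
  have h3' : IsDefectGroup p (⊤ : Subgroup (NQ Q0)) (tr ψ.symm f) (Se.im ψ.symm S) := by
    rw [← TFinAux.sec_top Q0]
    exact h3
  obtain ⟨u, hu, huc, hug⟩ := locGood_top he' hD' hs' Q0 hQ0p _ h1' h2 _ h3' h4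
  have huC := Se.im_le ψ.symm S hu
  have h8 : ψ.symm (ψ ⟨u, huC⟩) = ⟨u, huC⟩ := MulEquiv.symm_apply_apply _ _
  refine ⟨ψ ⟨u, huC⟩, ?_, ?_, ?_⟩
  · rw [← Se.mem_im ψ.symm, h8]
    exact hu
  · intro x hx
    have h9 := huc _ ((Se.mem_im ψ.symm ⟨x, hS.le hx⟩).2 hx)
    have h10 : ψ ⟨u, huC⟩ * ⟨x, hS.le hx⟩ = ⟨x, hS.le hx⟩ * ψ ⟨u, huC⟩ := by
      apply ψ.symm.injective
      rw [map_mul, map_mul, h8]
      exact Subtype.ext h9
    exact congrArg Subtype.val h10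
  · refine Gc_im ψ.symm hS.le _ ?_
    rw [h8]
    exact hug

end Pool.Agent.Lib.P0c8ca5.Id
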