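import Mathlib
import Pool.Agent.Lib.P0c8ca5Id.Sec
import Pool.Agent.Lib.P0c8ca5V.NoRat
import Pool.Agent.Lib.P0c8ca5Se.Defs

/-! Section-good groups and groups without rational elements in the sections satisfy `SecG`. -/

namespace Pool.Agent.Lib.P0c8ca5.Id

open MonoidAlgebra Bw

set_option linter.unusedSectionVars false

theorem secG_of_sg {p : ℕ} {A : Type*} [Group A] {D : Subgroup A} (h : Se.Sg D) : SecG p D := by
  intro R E hRE hED hn hne
  obtain ⟨z, hz, hz1, hz2⟩ := h R E hRE hED hn hne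
  exact ⟨z, hz, hz1, Or.inl hz2⟩

/-- a nontrivial section of a p-group has a central element of order `p` -/
theorem exists_central {p : ℕ} [Fact p.Prime] {A : Type*} [Group A] [Finite A] {R E : Subgroup A}
    (hE : IsPGroup p E) (hRE : R ≤ E) (hn : E ≤ Subgroup.normalizer (R : Set A)) (hne : R ≠ E) :
    ∃ z ∈ E, z ∉ R ∧ (∀ x ∈ E, z * x * z⁻¹ * x⁻¹ ∈ R) ∧ z ^ p ∈ R := by
  classical
  have hnor : (R.subgroupOf E).Normal := by
    constructor
    intro r hr g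
    rw [Subgroup.mem_subgroupOf] at hr ⊢
    exact (Subgroup.mem_normalizer_iff.1 (hn g.2) _).1 hr
  have hpQ : IsPGroup p (↥E ⧸ R.subgroupOf E) := hE.to_quotient _
  have hnt : Nontrivial (↥E ⧸ R.subgroupOf E) := by
    by_contra h
    rw [not_nontrivial_iff_subsingleton] at h
    apply hne
    apply le_antisymm hRE
    intro x hx
    have h1 : (QuotientGroup.mk (⟨x, hx⟩ : ↥E) : ↥E ⧸ R.subgroupOf E) = 1 := Subsingleton.elim _ _
    rw [QuotientGroup.eq_one_iff, Subgroup.mem_subgroupOf] at h1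
    exact h1
  have hc := hpQ.center_nontrivial
  have hcp : IsPGroup p ↥(Subgroup.center (↥E ⧸ R.subgroupOf E)) := hpQ.to_subgroup _
  obtain ⟨n, hn0, hcard⟩ := (IsPGroup.nontrivial_iff_card hcp).1 hc
  have hdvd : p ∣ Nat.card ↥(Subgroup.center (↥E ⧸ R.subgroupOf E)) := by
    rw [hcard]
    exact dvd_pow_self p hn0.ne'
  obtain ⟨w, hw⟩ := exists_prime_orderOf_dvd_card' p hdvd
  obtain ⟨⟨z, hz⟩, hzw⟩ := QuotientGroup.mk_surjective (w : ↥E ⧸ R.subgroupOf E)
  refine ⟨z, hz, ?_, ?_, ?_⟩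
  · intro hzR
    have h1 : (QuotientGroup.mk (⟨z, hz⟩ : ↥E) : ↥E ⧸ R.subgroupOf E) = 1 := by
      rw [QuotientGroup.eq_one_iff, Subgroup.mem_subgroupOf]
      exact hzR
    have h2 : w = 1 := Subtype.ext (hzw.symm.trans h1)
    rw [h2, orderOf_one] at hw
    exact (Fact.out : p.Prime).one_lt.ne hw
  · intro x hx
    have h1 := Subgroup.mem_center_iff.1 w.2 (QuotientGroup.mk (⟨x, hx⟩ : ↥E))
    rw [← hzw, ← QuotientGroup.mk_mul, ← QuotientGroup.mk_mul, QuotientGroup.eq,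
      Subgroup.mem_subgroupOf] at h1
    have h2 : (x * z)⁻¹ * (z * x) ∈ R := h1
    have h3 := (Subgroup.mem_normalizer_iff.1 (hn (E.mul_mem hx hz)) _).1 h2
    have e : x * z * ((x * z)⁻¹ * (z * x)) * (x * z)⁻¹ = z * x * z⁻¹ * x⁻¹ := by group
    rwa [e] at h3
  · have h1 : w ^ p = 1 := by
      rw [← hw]
      exact pow_orderOf_eq_one w
    have h2 := congrArg Subtype.val h1
    rw [Subgroup.coe_pow, ← hzw, ← QuotientGroup.mk_pow] at h2
    have h3 := (QuotientGroup.eq_one_iff _).1 (show (QuotientGroup.mk ((⟨z, hz⟩ : ↥E) ^ p) :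
      ↥E ⧸ R.subgroupOf E) = 1 from h2)
    rw [Subgroup.mem_subgroupOf] at h3
    exact h3

theorem nrootS_of_noRat {p q : ℕ} {A : Type*} [Group A] {R E D : Subgroup A} (h : NoRat p q D)
    (hRE : R ≤ E) (hED : E ≤ D) (hn : E ≤ Subgroup.normalizer (R : Set A)) {z : A}
    (hzR : z ∉ R) (hzp : z ^ p ∈ R) : NRootS p q R E z := by
  refine ⟨hzp, fun y hy hyq hall => hzR ?_⟩
  have h1 := h R E hRE hED hn y hy hall
  have h2 := R.mul_mem h1 (R.inv_mem hyq)
  have e : y ^ q * (z⁻¹ * y ^ q)⁻¹ = z := by group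
  rwa [e] at h2

theorem secG_two {A : Type*} [Group A] [Finite A] {D : Subgroup A} (hD : IsPGroup 2 D)
    (h : NoRat 2 4 D) : SecG 2 D := by
  intro R E hRE hED hn hne
  obtain ⟨z, hz, hzR, hzc, hzp⟩ := exists_central (hD.to_le hED) hRE hn hne
  exact ⟨z, hz, hzc, Or.inr (Or.inl ⟨rfl, nrootS_of_noRat h hRE hED hn hzR hzp⟩)⟩

theorem secG_three {A : Type*} [Group A] [Finite A] {D : Subgroup A} (hD : IsPGroup 3 D)
    (h : NoRat 3 3 D) : SecG 3 D := by
  intro R E hRE hED hn hne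
  obtain ⟨z, hz, hzR, hzc, hzp⟩ := exists_central (hD.to_le hED) hRE hn hne
  exact ⟨z, hz, hzc, Or.inr (Or.inr ⟨rfl, nrootS_of_noRat h hRE hED hn hzR hzp⟩)⟩

end Pool.Agent.Lib.P0c8ca5.Id
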